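import Pool.Agent.H88.LH.Defs

/-!
# [H71 KA COR] MP_b39724_nt, theorem K1: the core statement `K1C` (definition)

`G = T ⋊ A`, `T` and `A` abelian of coprime orders, `C` a set of elements of prime order, closed under conjugation and under the powers
prime to the order, `T` generated by `C ∩ T`, which is not empty, `N` classes: then `BASE C N`.
-/

set_option autoImplicit false

noncomputable section

namespace H71.KA

open H88.LH

/-- the core of theorem K1 -/
def K1C : Prop :=
  ∀ (G : Type) [Group G] [Finite G] (T A : Subgroup G) (_ : T.Normal)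
    (_ : ∀ s ∈ T, ∀ t ∈ T, s * t = t * s) (_ : Subgroup.IsComplement' T A)
    (_ : Nat.Coprime (Nat.card T) (Nat.card A)) (_ : ∀ a ∈ A, ∀ b ∈ A, a * b = b * a)
    (C : Set G) (_ : ∀ x ∈ C, (orderOf x).Prime) (_ : ∀ x ∈ C, ∀ g : G, g * x * g⁻¹ ∈ C)
    (_ : ∀ x ∈ C, ∀ j : ℕ, Nat.Coprime j (orderOf x) → x ^ j ∈ C)
    (_ : T = Subgroup.closure (C ∩ T)) (_ : (C ∩ T).Nonempty) (N : ℕ) (g : Fin N → G)
    (_ : ∀ i j, IsConj (g i) (g j) → i = j) (_ : ∀ x, x ∈ C ↔ ∃ i, IsConj x (g i)), BASE C N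

end H71.KA
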