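import Mathlib

/-!
# [H71 KA ZAS] MP_b39724_nt, theorem K1: elements of order `q` in a coset of a commutative normal subgroup of order prime to `q`

* `zas`: `T` a commutative subgroup normalised by `a`, `x = t a`, `x ^ q = a ^ q = 1`, `q` prime to `#T`: then `x = s a s⁻¹` with `s ∈ T`.
* `conj_compl`: `G = N A`, `N` commutative and normal, `#N`, `#A` coprime: an element `x` with `x ^ q = 1`, `q` prime to `#N`, is conjugate under `N` to an element of `A`.
-/

set_option autoImplicit false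

open scoped Classical IsMulCommutative

noncomputable section

namespace H71.KA

variable {G : Type} [Group G]

theorem zas [Finite G] (T : Subgroup G) (hT : ∀ x ∈ T, ∀ y ∈ T, x * y = y * x) {a t : G}
    (ha : ∀ x ∈ T, a * x * a⁻¹ ∈ T) (ht : t ∈ T) {q : ℕ} (hx : (t * a) ^ q = 1) (haq : a ^ q = 1)
    (hco : Nat.Coprime q (Nat.card T)) : ∃ s ∈ T, t * a = s * a * s⁻¹ := by
  have hTc : IsMulCommutative T := ⟨⟨fun x y => Subtype.ext (hT x x.2 y y.2)⟩⟩
  have hf : ∀ i : ℕ, (t * a) ^ i * (a ^ i)⁻¹ ∈ T := by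
    intro i
    induction i with
    | zero => rw [pow_zero, pow_zero, inv_one, mul_one]; exact T.one_mem
    | succ i ih =>
      have h1 : (t * a) ^ (i + 1) * (a ^ (i + 1))⁻¹ = t * (a * ((t * a) ^ i * (a ^ i)⁻¹) * a⁻¹) := by
        rw [pow_succ' (t * a), pow_succ' a]
        group
      rw [h1]
      exact T.mul_mem ht (ha _ ih)
  obtain ⟨f, hfd⟩ : ∃ f : ℕ → T, ∀ i, (f i : G) = (t * a) ^ i * (a ^ i)⁻¹ := ⟨fun i => ⟨_, hf i⟩, fun i => rfl⟩
  obtain ⟨c, hc⟩ : ∃ c : T →* T, ∀ x : T, (c x : G) = a * x * a⁻¹ := by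
    refine ⟨MonoidHom.mk' (fun x => ⟨a * x * a⁻¹, ha x x.2⟩) fun x y => ?_, fun x => rfl⟩
    apply Subtype.ext
    show a * (x * y : T) * a⁻¹ = a * x * a⁻¹ * (a * y * a⁻¹)
    rw [Subgroup.coe_mul]
    group
  have hs : ∀ i, f (i + 1) = ⟨t, ht⟩ * c (f i) := by
    intro i
    apply Subtype.ext
    rw [hfd, Subgroup.coe_mul, hc, hfd, pow_succ' (t * a), pow_succ' a]
    group
  have hfq : f q = f 0 := by
    apply Subtype.ext
    rw [hfd, hfd, hx, haq, pow_zero, pow_zero]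
  obtain ⟨y, hy⟩ : ∃ y : T, y = ∏ i ∈ Finset.range q, f i := ⟨_, rfl⟩
  have h1 : y = ∏ i ∈ Finset.range q, f (i + 1) := by
    have h2 := Finset.prod_range_succ f q
    have h3 := Finset.prod_range_succ' f q
    rw [h2, hfq] at h3
    rw [hy]
    exact mul_right_cancel h3
  have h4 : y = (⟨t, ht⟩ : T) ^ q * c y := by
    calc y = ∏ i ∈ Finset.range q, f (i + 1) := h1
      _ = ∏ i ∈ Finset.range q, ((⟨t, ht⟩ : T) * c (f i)) := Finset.prod_congr rfl fun i _ => hs i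
      _ = _ := by rw [Finset.prod_mul_distrib, Finset.prod_const, Finset.card_range, ← map_prod, ← hy]
  obtain ⟨k, hk⟩ : ∃ k : ℕ, ∀ x : T, x ^ (q * k) = x := by
    rcases Nat.lt_or_ge 1 (Nat.card T) with h7 | h7
    · obtain ⟨k, -, hk⟩ := Nat.exists_mul_mod_eq_one_of_coprime hco h7
      refine ⟨k, fun x => ?_⟩
      rw [← Nat.div_add_mod (q * k) (Nat.card T), pow_add, pow_mul, pow_card_eq_one',
        one_pow, one_mul, hk, pow_one]
    · have h8 : Subsingleton T := (Nat.card_eq_one_iff_unique.1 (le_antisymm h7 Nat.card_pos)).1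
      exact ⟨1, fun x => Subsingleton.elim _ _⟩
  have h9 : (⟨t, ht⟩ : T) = y ^ k * (c (y ^ k))⁻¹ := by
    have h10 : (⟨t, ht⟩ : T) ^ q = y * (c y)⁻¹ := by
      rw [eq_mul_inv_iff_mul_eq]
      exact h4.symm
    rw [map_pow, ← inv_pow, ← mul_pow, ← h10, ← pow_mul, hk]
  refine ⟨(y ^ k : T), (y ^ k).2, ?_⟩
  have h11 : t = (y ^ k : T) * ((c (y ^ k) : T) : G)⁻¹ := by
    have h12 := congrArg Subtype.val h9
    rwa [Subgroup.coe_mul, Subgroup.coe_inv] at h12
  conv_lhs => rw [h11, hc]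
  group

theorem conj_compl [Finite G] (N A : Subgroup G) [N.Normal] (hN : ∀ x ∈ N, ∀ y ∈ N, x * y = y * x)
    (hA : ∀ g : G, ∃ n ∈ N, ∃ a ∈ A, g = n * a) (hNA : N ⊓ A = ⊥) {q : ℕ} {x : G}
    (hx : x ^ q = 1) (hco : Nat.Coprime q (Nat.card N)) :
    ∃ s ∈ N, ∃ a ∈ A, a ^ q = 1 ∧ x = s * a * s⁻¹ := by
  obtain ⟨n, hn, a, ha, rfl⟩ := hA x
  have haq : a ^ q = 1 := by
    have h1 : a ^ q ∈ N := by
      have h2 : (QuotientGroup.mk (s := N) a) ^ q = 1 := by
        have h3 : QuotientGroup.mk (s := N) (n * a) = QuotientGroup.mk a := by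
          rw [QuotientGroup.mk_mul, (QuotientGroup.eq_one_iff n).2 hn, one_mul]
        rw [← h3, ← QuotientGroup.mk_pow, hx, QuotientGroup.mk_one]
      rwa [← QuotientGroup.mk_pow, QuotientGroup.eq_one_iff] at h2
    have h4 : a ^ q ∈ N ⊓ A := ⟨h1, A.pow_mem ha q⟩
    rwa [hNA, Subgroup.mem_bot] at h4
  obtain ⟨s, hs, e⟩ := zas N hN (fun y hy => (inferInstance : N.Normal).conj_mem y hy a) hn hx haq hco
  exact ⟨s, hs, a, ha, haq, e⟩

end H71.KA
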