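import Pool.Agent.H71.KA.Chn
import Pool.Agent.H71.KA.Zas
import Pool.Agent.H71.KA.Cor
import Pool.Agent.H51.AG.Fin

/-!
# [H71 KA FIN] MP_b39724_nt, theorem K1: from the core to the lower bound

`N` a normal abelian subgroup of `G` of squarefree exponent, `G / N` abelian, `#N` and the index coprime.
* `base_of`: `BASE C r` for the set `C` of elements of prime order. `k1_low`: THE LOWER BOUND from `STP` and `K1C`.
-/

set_option autoImplicit false

open scoped NumberField commutatorElement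
open IsDedekindDomain H38.ML
open scoped Classical

noncomputable section

namespace H71.KA

open H63.MA H38.BB H38.BG H77.PC3 H88.LH H35.SN H77.GN H77.AB

theorem mem_of_coprime_index {G : Type} [Group G] (N : Subgroup G) [N.Normal] [Finite G] {x : G}
    (h : Nat.Coprime (orderOf x) N.index) : x ∈ N := by
  have h2 : orderOf (QuotientGroup.mk (s := N) x) ∣ orderOf x := by
    refine orderOf_dvd_of_pow_eq_one ?_
    rw [← QuotientGroup.mk_pow, pow_orderOf_eq_one, QuotientGroup.mk_one]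
  have h3 : orderOf (QuotientGroup.mk (s := N) x) ∣ N.index := by
    rw [Subgroup.index_eq_card]
    exact orderOf_dvd_natCard _
  have h4 := Nat.dvd_gcd h2 h3
  rw [h, Nat.dvd_one, orderOf_eq_one_iff] at h4
  exact (QuotientGroup.eq_one_iff x).1 h4

theorem typ {G : Type} [Group G] (N : Subgroup G) [N.Normal] [Finite G]
    (hco : Nat.Coprime (Nat.card N) N.index) {x : G} (hpx : (orderOf x).Prime) :
    x ∈ N ∨ Nat.Coprime (orderOf x) (Nat.card N) := by
  by_cases h : orderOf x ∣ Nat.card N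
  · left
    exact mem_of_coprime_index N (Nat.Coprime.coprime_dvd_left h hco)
  · right
    exact (Nat.Prime.coprime_iff_not_dvd hpx).2 h

theorem base_of (hst : STP) (hk : K1C) {G : Type} [Group G] [Finite G] (C : Set G)
    (hp : ∀ x ∈ C, (orderOf x).Prime) (hcc : ∀ x ∈ C, ∀ g : G, g * x * g⁻¹ ∈ C)
    (hpow : ∀ x ∈ C, ∀ j : ℕ, Nat.Coprime j (orderOf x) → x ^ j ∈ C) (N : Subgroup G) [N.Normal]
    (hcom : ∀ x ∈ N, ∀ y ∈ N, x * y = y * x) {m : ℕ} (hm : Squarefree m) (hNm : ∀ x ∈ N, x ^ m = 1)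
    (hab : commutator G ≤ N) (hco : Nat.Coprime (Nat.card N) N.index) (hne : (C ∩ N).Nonempty)
    (r : ℕ) (g : Fin r → G) (uni : ∀ i j, IsConj (g i) (g j) → i = j) (hI : ∀ x, x ∈ C ↔ ∃ i, IsConj x (g i)) :
    BASE C r := by
  obtain ⟨A, hA⟩ := Subgroup.exists_right_complement'_of_coprime hco
  have hNA : N ⊓ A = ⊥ := hA.disjoint.eq_bot
  have hdec : ∀ g : G, ∃ n ∈ N, ∃ a ∈ A, g = n * a := by
    intro g
    have h1 : g ∈ N ⊔ A := by rw [hA.sup_eq_top]; exact Subgroup.mem_top g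
    obtain ⟨n, hn, a, ha, e⟩ := Subgroup.mem_sup_of_normal_left.1 h1
    exact ⟨n, hn, a, ha, e.symm⟩
  have hcA : Nat.card A = N.index := by
    have h1 := hA.card_mul_card
    have h2 := N.card_mul_index
    rw [← h2] at h1
    exact Nat.eq_of_mul_eq_mul_left Nat.card_pos h1
  have hco2 : Nat.Coprime (Nat.card N) (Nat.card A) := by rw [hcA]; exact hco
  have hcmN : ∀ x y : G, x * y * x⁻¹ * y⁻¹ ∈ N := fun x y => by
    have h1 : ⁅x, y⁆ ∈ commutator G := Subgroup.commutator_mem_commutator (Subgroup.mem_top x) (Subgroup.mem_top y)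
    exact hab h1
  have hAab : ∀ a ∈ A, ∀ b ∈ A, a * b = b * a := by
    intro a ha b hb
    have h1 : a * b * a⁻¹ * b⁻¹ ∈ N ⊓ A := ⟨hcmN a b,
      A.mul_mem (A.mul_mem (A.mul_mem ha hb) (A.inv_mem ha)) (A.inv_mem hb)⟩
    rw [hNA, Subgroup.mem_bot, mul_inv_eq_one, mul_inv_eq_iff_eq_mul] at h1
    exact h1
  obtain ⟨T, hT⟩ : ∃ T, T = Subgroup.closure (C ∩ N) := ⟨_, rfl⟩
  have hTN : T ≤ N := by rw [hT, Subgroup.closure_le]; exact Set.inter_subset_right
  have hCNT : ∀ x ∈ C, x ∈ N → x ∈ T := fun x hx hx2 => by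
    rw [hT]; exact Subgroup.subset_closure ⟨hx, hx2⟩
  have hTn : T.Normal := by
    refine ⟨fun t ht g => ?_⟩
    rw [hT] at ht ⊢
    induction ht using Subgroup.closure_induction with
    | mem x hx => exact Subgroup.subset_closure ⟨hcc x hx.1 g, (inferInstance : N.Normal).conj_mem x hx.2 g⟩
    | one => rw [mul_one, mul_inv_cancel]; exact Subgroup.one_mem _
    | mul x y hx hy ihx ihy =>
      have h1 : g * (x * y) * g⁻¹ = (g * x * g⁻¹) * (g * y * g⁻¹) := by group
      rw [h1]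
      exact Subgroup.mul_mem _ ihx ihy
    | inv x hx ih =>
      have h1 : g * x⁻¹ * g⁻¹ = (g * x * g⁻¹)⁻¹ := by group
      rw [h1]
      exact Subgroup.inv_mem _ ih
  -- the two types of elements of `C`
  have htyp : ∀ x ∈ C, x ∈ N ∨ Nat.Coprime (orderOf x) (Nat.card N) := fun x hx =>
    typ N hco (hp x hx)
  refine chain hst C hcc T N A hTN hcom hm hNm hdec hNA hco2 ?_
  obtain ⟨H, hH⟩ : ∃ H, H = T ⊔ A := ⟨_, rfl⟩
  rw [← hH]
  have hTH : T ≤ H := by rw [hH]; exact le_sup_left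
  have hAH : A ≤ H := by rw [hH]; exact le_sup_right
  -- representatives in `H`
  have hrep : ∀ i, ∃ h : H, IsConj (h : G) (g i) ∧ (h : G) ∈ C ∧ ((h : G) ∈ N ∨ (h : G) ∈ A) := by
    intro i
    have hgi : g i ∈ C := (hI (g i)).2 ⟨i, IsConj.refl _⟩
    rcases htyp _ hgi with h | h
    · exact ⟨⟨g i, hTH (hCNT _ hgi h)⟩, IsConj.refl _, hgi, Or.inl h⟩
    · obtain ⟨s, hs, a, ha, -, e⟩ := conj_compl N A hcom hdec hNA (pow_orderOf_eq_one (g i)) h
      have h1 : IsConj a (g i) := isConj_iff.2 ⟨s, e.symm⟩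
      refine ⟨⟨a, hAH ha⟩, h1, ?_, Or.inr ha⟩
      exact (hI a).2 ⟨i, h1⟩
  choose w hw1 hw2 hw3 using hrep
  have hdecH : ∀ y ∈ H, ∃ t ∈ T, ∃ a ∈ A, y = t * a := by
    intro y hy
    rw [hH] at hy
    obtain ⟨t, ht, a, ha, e⟩ := Subgroup.mem_sup_of_normal_left.1 hy
    exact ⟨t, ht, a, ha, e.symm⟩
  have hord : ∀ x y : G, IsConj x y → orderOf x = orderOf y := by
    intro x y hxy
    obtain ⟨c, rfl⟩ := isConj_iff.1 hxy
    have h1 : c * x * c⁻¹ = MulAut.conj c x := rfl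
    rw [h1, MulEquiv.orderOf_eq]
  have hcov : ∀ x ∈ H, x ∈ C → ∃ i, ∃ c ∈ H, c * x * c⁻¹ = w i := by
    intro x hx hxC
    obtain ⟨i, hi⟩ := (hI x).1 hxC
    refine ⟨i, ?_⟩
    have hxw : IsConj x (w i : G) := hi.trans (hw1 i).symm
    have hor : orderOf x = orderOf (w i : G) := hord _ _ hxw
    obtain ⟨c, hc⟩ := isConj_iff.1 hxw
    rcases htyp x hxC with h | h
    · obtain ⟨n, hn, a, ha, rfl⟩ := hdec c
      refine ⟨a, hAH ha, ?_⟩
      have h1 : a * x * a⁻¹ ∈ N := (inferInstance : N.Normal).conj_mem x h a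
      calc a * x * a⁻¹ = n * (a * x * a⁻¹) * n⁻¹ := by rw [hcom n hn _ h1, mul_inv_cancel_right]
        _ = n * a * x * (n * a)⁻¹ := by group
        _ = _ := hc
    · -- `x` is conjugate under `T` to an element of `A`
      obtain ⟨t, ht, a, ha, e⟩ := hdecH x hx
      have haN : a ^ orderOf x = 1 := by
        have h1 : a ^ orderOf x ∈ N := by
          have h2 : (QuotientGroup.mk (s := N) a) ^ orderOf x = 1 := by
            have h3 : QuotientGroup.mk (s := N) x = QuotientGroup.mk a := by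
              rw [e, QuotientGroup.mk_mul, (QuotientGroup.eq_one_iff t).2 (hTN ht), one_mul]
            rw [← h3, ← QuotientGroup.mk_pow, pow_orderOf_eq_one, QuotientGroup.mk_one]
          rwa [← QuotientGroup.mk_pow, QuotientGroup.eq_one_iff] at h2
        have h4 : a ^ orderOf x ∈ N ⊓ A := ⟨h1, A.pow_mem ha _⟩
        rwa [hNA, Subgroup.mem_bot] at h4
      have hcT : Nat.Coprime (orderOf x) (Nat.card T) :=
        Nat.Coprime.coprime_dvd_right (Subgroup.card_dvd_of_le hTN) h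
      obtain ⟨s, hs, e2⟩ := zas T (fun x hx y hy => hcom x (hTN hx) y (hTN hy)) (a := a) (t := t)
        (fun y hy => hTn.conj_mem y hy a) ht (q := orderOf x) (by rw [← e]; exact pow_orderOf_eq_one x)
        haN hcT
      rw [← e] at e2
      -- `w i` is in `A`
      have hwA : (w i : G) ∈ A := by
        rcases hw3 i with h5 | h5
        · exfalso
          have h6 : orderOf (w i : G) ∣ Nat.card N := by
            have h7 : orderOf (⟨(w i : G), h5⟩ : N) ∣ Nat.card N := orderOf_dvd_natCard _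
            rwa [Subgroup.orderOf_mk] at h7
          rw [← hor] at h6
          exact (hp x hxC).one_lt.ne' (Nat.Coprime.eq_one_of_dvd h h6)
        · exact h5
      have haw : a = w i := by
        have h5 : (w i : G) * a⁻¹ ∈ N ⊓ A := by
          refine ⟨?_, A.mul_mem hwA (A.inv_mem ha)⟩
          rw [← hc, e2]
          have h6 := hcmN (c * s) a
          have h7 : c * (s * a * s⁻¹) * c⁻¹ * a⁻¹ = c * s * a * (c * s)⁻¹ * a⁻¹ := by group
          rwa [h7]
        rw [hNA, Subgroup.mem_bot, mul_inv_eq_one] at h5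
        exact h5.symm
      refine ⟨s⁻¹, H.inv_mem (hTH hs), ?_⟩
      rw [← haw, e2]
      group
  -- the core
  obtain ⟨T', hT'⟩ : ∃ T', T' = T.subgroupOf H := ⟨_, rfl⟩
  obtain ⟨A', hA'⟩ : ∃ A', A' = A.subgroupOf H := ⟨_, rfl⟩
  have hTm : ∀ x : H, x ∈ T' ↔ (x : G) ∈ T := fun x => by rw [hT', Subgroup.mem_subgroupOf]
  have hAm : ∀ x : H, x ∈ A' ↔ (x : G) ∈ A := fun x => by rw [hA', Subgroup.mem_subgroupOf]
  have hT'n : T'.Normal := ⟨fun x hx y => by
    rw [hTm] at hx ⊢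
    exact hTn.conj_mem x hx y⟩
  have hcT' : Nat.card T' = Nat.card T := by
    rw [hT']
    exact Nat.card_congr (Subgroup.subgroupOfEquivOfLe hTH).toEquiv
  have hcA' : Nat.card A' = Nat.card A := by
    rw [hA']
    exact Nat.card_congr (Subgroup.subgroupOfEquivOfLe hAH).toEquiv
  refine hk H T' A' hT'n (fun s hs t ht => ?_) ?_ ?_ (fun a ha b hb => ?_) (CH C H) (fun x hx => ?_)
    (fun x hx y => ?_) (fun x hx j hj => ?_) ?_ ?_ r w (fun i j hij => ?_) (fun x => ?_)
  · rw [hTm] at hs ht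
    exact Subtype.ext (hcom _ (hTN hs) _ (hTN ht))
  · refine Subgroup.isComplement'_of_disjoint_and_mul_eq_univ ?_ ?_
    · rw [Subgroup.disjoint_def]
      intro x hx hx2
      rw [hTm] at hx
      rw [hAm] at hx2
      have h1 : (x : G) ∈ N ⊓ A := ⟨hTN hx, hx2⟩
      rw [hNA, Subgroup.mem_bot] at h1
      exact Subtype.ext h1
    · rw [Set.eq_univ_iff_forall]
      intro x
      obtain ⟨t, ht, a, ha, e⟩ := hdecH x x.2
      exact ⟨⟨t, hTH ht⟩, (hTm _).2 ht, ⟨a, hAH ha⟩, (hAm _).2 ha, Subtype.ext e.symm⟩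
  · rw [hcT', hcA']
    exact Nat.Coprime.coprime_dvd_left (Subgroup.card_dvd_of_le hTN) hco2
  · rw [hAm] at ha hb
    exact Subtype.ext (hAab _ ha _ hb)
  · have h1 := hp x hx
    rwa [Subgroup.orderOf_coe] at h1
  · exact hcc x hx y
  · have h1 := hpow x hx j (by rwa [Subgroup.orderOf_coe])
    exact h1
  · apply Subgroup.map_injective H.subtype_injective
    rw [MonoidHom.map_closure]
    have h1 : T'.map H.subtype = T := by
      rw [hT', Subgroup.subgroupOf_map_subtype, inf_eq_left.2 hTH]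
    rw [h1]
    conv_lhs => rw [hT]
    apply congrArg
    ext x
    constructor
    · rintro ⟨hx, hx2⟩
      exact ⟨⟨x, hTH (hCNT x hx hx2)⟩, ⟨hx, (hTm _).2 (hCNT x hx hx2)⟩, rfl⟩
    · rintro ⟨y, ⟨hy, hy2⟩, rfl⟩
      exact ⟨hy, hTN ((hTm y).1 hy2)⟩
  · obtain ⟨x, hx, hx2⟩ := hne
    exact ⟨⟨x, hTH (hCNT x hx hx2)⟩, hx, (hTm _).2 (hCNT x hx hx2)⟩
  · apply uni
    have h1 : IsConj (w i : G) (w j : G) := by
      obtain ⟨c, hc⟩ := isConj_iff.1 hij
      exact isConj_iff.2 ⟨c, congrArg Subtype.val hc⟩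
    exact ((hw1 i).symm.trans h1).trans (hw1 j)
  · constructor
    · intro hx
      obtain ⟨i, c, hc, e⟩ := hcov x x.2 hx
      exact ⟨i, isConj_iff.2 ⟨⟨c, hc⟩, Subtype.ext e⟩⟩
    · rintro ⟨i, hi⟩
      obtain ⟨c, hc⟩ := isConj_iff.1 hi.symm
      have h1 := hcc _ (hw2 i) c
      have h2 : (x : G) = c * w i * (c : G)⁻¹ := congrArg Subtype.val hc.symm
      show (x : G) ∈ C
      rw [h2]
      exact h1

/-- the case in which no element of least index is in `N` -/
theorem low_out (n : ℕ) (hn : 2 ≤ n) (G : Subgroup (Equiv.Perm (Fin n)))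
    (hG : MulAction.IsPretransitive G (Fin n)) (N : Subgroup G) [N.Normal]
    (hcom : ∀ x ∈ N, ∀ y ∈ N, x * y = y * x) (hab : commutator G ≤ N)
    (hco : Nat.Coprime (Nat.card N) N.index) (hL : ∀ h ∈ H88.LB.Lst G, h ∉ N) : H88.LB.Low G := by
  obtain ⟨T, hTd⟩ : ∃ T : Subgroup G, T = Subgroup.closure (H88.LB.Lst G) := ⟨_, rfl⟩
  have hTn : T.Normal := hTd ▸ H51.AG.closure_normal n hn G hG
  have hle : (⁅T, T⁆ : Subgroup G) ≤ N := (Subgroup.commutator_mono le_top le_top).trans hab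
  have hsolG : Group.IsSolvable G := by
    refine ⟨⟨2, ?_⟩⟩
    rw [derivedSeries_succ, derivedSeries_one, Subgroup.eq_bot_iff_forall]
    intro z hz
    have h1 : (⁅commutator G, commutator G⁆ : Subgroup G) ≤ ⊥ := by
      rw [Subgroup.commutator_le]
      intro x hx y hy
      rw [Subgroup.mem_bot, commutatorElement_eq_one_iff_mul_comm]
      exact hcom x (hab hx) y (hab hy)
    exact Subgroup.mem_bot.1 (h1 hz)
  have hsol : Group.IsSolvable T := inferInstance
  refine H88.LB.low_ab n hn G hG T ⁅T, T⁆ hTn inferInstance le_rfl ?_ ?_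
  · refine H71.GT.goodTower_comm T hsol fun q hq hqd Q hQp x hx y hy => ?_
    have hqN : q ∣ Nat.card N := hqd.trans (Subgroup.card_dvd_of_le hle)
    have h1 : ∀ z ∈ Q, z ∈ N := by
      intro z hz
      apply mem_of_coprime_index
      obtain ⟨k, hk⟩ := hQp ⟨z, hz⟩
      have h2 : z ^ q ^ k = 1 := congrArg Subtype.val hk
      have h3 : Nat.Coprime (q ^ k) N.index :=
        Nat.Coprime.pow_left k (Nat.Coprime.coprime_dvd_left hqN hco)
      exact Nat.Coprime.coprime_dvd_left (orderOf_dvd_of_pow_eq_one h2) h3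
    exact hcom x (h1 x hx) y (h1 y hy)
  · intro h hh
    refine ⟨hTd ▸ Subgroup.subset_closure hh, ?_⟩
    have h1 := (typ N hco (H38.ML.prime_of_least G h hh.1 hh.2)).resolve_left (hL h hh)
    exact Nat.Coprime.coprime_dvd_right (Subgroup.card_dvd_of_le hle) h1

theorem k1_low (hst : STP) (hk : K1C) (n : ℕ) (hn : 2 ≤ n) (G : Subgroup (Equiv.Perm (Fin n)))
    (hG : MulAction.IsPretransitive G (Fin n)) (N : Subgroup G) [N.Normal]
    (hcom : ∀ x ∈ N, ∀ y ∈ N, x * y = y * x) {m : ℕ} (hm : Squarefree m) (hNm : ∀ x ∈ N, x ^ m = 1)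
    (hab : commutator G ≤ N) (hco : Nat.Coprime (Nat.card N) N.index) : H88.LB.Low G := by
  obtain ⟨ha, ⟨g₀, hg₀, hg₀'⟩, hmin, hcj, hJ⟩ := pidx_pos hn G hG
  by_cases hne : ∃ h ∈ H88.LB.Lst G, h ∈ N
  swap
  · exact low_out n hn G hG N hcom hab hco fun h hh hhN => hne ⟨h, hh, hhN⟩
  obtain ⟨r, g, hgΛ, uni, hI⟩ := ncl G {h : G | h ≠ 1 ∧ ind (h : Equiv.Perm (Fin n)) = indG G}
    (fun h hh => hh.1) (by
      rintro h ⟨h1, h2⟩ k hk
      refine ⟨?_, ?_⟩
      · intro hk1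
        rw [hk1] at hk
        exact h1 (isConj_one_left.1 hk)
      · obtain ⟨x, rfl⟩ := isConj_iff.1 hk
        exact hcj h x h1 h2)
  have hbase : BASE {h : G | h ≠ 1 ∧ ind (h : Equiv.Perm (Fin n)) = indG G} r := by
    refine base_of hst hk _ (fun x hx => H38.ML.prime_of_least G x hx.1 hx.2) (fun x hx g => ?_)
      (fun x hx j hj => ?_) N hcom hm hNm hab hco (by
        obtain ⟨h, hh, hh2⟩ := hne
        exact ⟨h, hh, hh2⟩) r g uni hI
    · refine ⟨fun h => hx.1 ?_, hcj x g hx.1 hx.2⟩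
      have h1 : x = g⁻¹ * (g * x * g⁻¹) * g := by group
      rw [h1, h]
      group
    · have hpx := H38.ML.prime_of_least G x hx.1 hx.2
      have hxp : (x : Equiv.Perm (Fin n)) ^ orderOf x = 1 := by
        have h1 := congrArg Subtype.val (pow_orderOf_eq_one x)
        exact h1
      obtain ⟨h1, h2⟩ := H88.LB.ind_pow hpx hxp (j := j)
        ((Nat.Prime.coprime_iff_not_dvd hpx).1 (Nat.coprime_comm.1 hj))
      refine ⟨fun h => ?_, ?_⟩
      · refine h2 (fun h3 => hx.1 (Subtype.ext h3)) ?_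
        have h4 := congrArg Subtype.val h
        exact h4
      · exact h1.trans hx.2
  obtain ⟨K₁, hK₁, h⟩ := hbase
  obtain ⟨K₂, hK₂, h2⟩ := akn G
  have hK₁' : FiniteDimensional ℚ K₁ := hK₁.to_finiteDimensional
  have hK₂' : FiniteDimensional ℚ K₂ := hK₂.to_finiteDimensional
  have hfd' : FiniteDimensional ℚ ↥(K₁ ⊔ K₂) := IntermediateField.finiteDimensional_sup K₁ K₂
  refine ⟨K₁ ⊔ K₂, NumberField.of_module_finite ℚ _, fun K hK hle => ?_⟩
  obtain ⟨-, ⟨z, hz⟩, -⟩ := h2 K (le_trans le_sup_right hle) hK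
  obtain ⟨Q, S₀, S', c', Y₀, hc', h3, h4, h5, h6, h7⟩ := h K hK (le_trans le_sup_left hle) 0 ∅
  have hβ : Spec.betaAll K QBar G = r := lbet G K z hz g uni fun h => hI h
  unfold H88.LB.LowK
  rw [hβ]
  exact cfm hn G hG ha K Q S₀ S' _ (fun h hh => hh.2) r c' Y₀ hc' h7

end H71.KA
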