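import Pool.Agent.H35.SN.Bs

/-!
# [H71 KA LFT] MP_b39724_nt, theorem K1: one step with a given section

* `LFS l π s`: homomorphisms lift along `π`, with the given section `s` on the inertia groups. `lfs_step`: from `STP`. `lfs_iso`.
* `base_lfs`: if `s` maps `Cb` into `C` and `C` is invariant under conjugation then `BASE Cb N` gives `BASE C N`.
-/

set_option autoImplicit false

open scoped NumberField
open IsDedekindDomain H38.ML
open scoped Classical IsMulCommutative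

noncomputable section

namespace H71.KA

open H63.MA H88.LH H77.PC3 H35.SN

/-- homomorphisms lift along `π`, with the section `s` -/
def LFS (l : ℕ) {G Gb : Type} [Group G] [Group Gb] (π : G →* Gb) (s : Gb →* G) : Prop :=
  ∀ (K : IntermediateField ℚ QBar) [NumberField K] (_ : ∃ z : K, IsPrimitiveRoot z l)
    (φ : Gal(QBar/K) →* Gb) (_ : Function.Surjective φ) (_ : FT φ) (Q : DP K QBar)
    (S' S'' : Finset (Pl K)) (_ : Disjoint S' S'')
    (_ : ∀ v ∈ S' ∪ S'', ∀ σ ∈ dec (K := K) (Q.P v), φ σ = 1)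
    (_ : ∀ v ∈ S' ∪ S'', ¬ Above l v) (_ : l * (Nat.card Gb * (S''.card + 1)) < S'.card),
    ∃ (φ' : Gal(QBar/K) →* G), FT φ' ∧
      Function.Surjective φ' ∧ (∀ σ, π (φ' σ) = φ σ) ∧
      (∀ v ∈ S'', ∀ σ ∈ dec (K := K) (Q.P v), φ' σ = 1) ∧
      ∀ v, v ∉ S' → ¬ Above l v → ∃ m ∈ π.ker, ∀ τ ∈ (Q.P v).inertia Gal(QBar/K),
        φ' τ = m * s (φ τ) * m⁻¹

theorem lfs_step (hst : STP) {l : ℕ} {G Gb : Type} [Group G] [Finite G] [Group Gb]
    {π : G →* Gb} (S : STEP l π) (s : Gb →* G) (hsec : ∀ x, π (s x) = x) : LFS l π s := by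
  intro K _ hζ φ hs hφ Q S' S'' hd hsp hal hc
  have := S.com
  have hfb : Finite Gb := Finite.of_surjective π S.sur
  obtain ⟨act, hact⟩ : ∃ act : Gb →* MulAut π.ker,
      act = (MulAut.conjNormal : G →* MulAut π.ker).comp s := ⟨_, rfl⟩
  have hap : ∀ (h : Gb) (x : π.ker), ((act h x : π.ker) : G) = s h * x * (s h)⁻¹ := by
    intro h x
    rw [hact]
    show (((MulAut.conjNormal : G →* MulAut π.ker) (s h) x : π.ker) : G) = _
    rw [MulAut.conjNormal_apply]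
  have hdec : ∀ g : G, g * (s (π g))⁻¹ ∈ π.ker := fun g => by
    rw [MonoidHom.mem_ker, map_mul, map_inv, hsec, mul_inv_cancel]
  have hcj : ∀ (g : G) (x : π.ker), g * x * g⁻¹ = s (π g) * x * (s (π g))⁻¹ := by
    intro g x
    obtain ⟨r, hr⟩ : ∃ r : π.ker, (r : G) = g * (s (π g))⁻¹ := ⟨⟨_, hdec g⟩, rfl⟩
    have h1 := congrArg Subtype.val (mul_comm r (act (π g) x))
    rw [Subgroup.coe_mul, Subgroup.coe_mul, hap] at h1
    have h2 : g = r * s (π g) := by rw [hr, inv_mul_cancel_right]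
    conv_lhs => rw [h2]
    calc (r : G) * s (π g) * x * (r * s (π g))⁻¹
        = (r * (s (π g) * x * (s (π g))⁻¹)) * (r : G)⁻¹ := by group
      _ = _ := by rw [h1, mul_inv_cancel_right]
  have hr : act.range = (MulAut.conjNormal : G →* MulAut π.ker).range := by
    ext a
    constructor
    · rintro ⟨h, rfl⟩
      exact ⟨s h, by rw [hact]; rfl⟩
    · rintro ⟨g, rfl⟩
      refine ⟨π g, ?_⟩
      refine MulEquiv.ext fun x => Subtype.ext ?_
      rw [hap, MulAut.conjNormal_apply]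
      exact (hcj g x).symm
  have hnt : Nontrivial π.ker := (Subgroup.nontrivial_iff_ne_bot _).2 S.ne
  have hig : ∃ θ : π.ker →* π.ker, ∀ x, ∏ᶠ a : act.range,
      (a : MulAut π.ker) (θ ((a : MulAut π.ker)⁻¹ x)) = x := by
    rw [hr]
    exact S.hig
  have hirr : ∀ U : Subgroup π.ker, (∀ h, ∀ u ∈ U, act h u ∈ U) → U = ⊥ ∨ U = ⊤ := by
    intro U hU
    have h1 : (U.map π.ker.subtype).Normal := by
      refine ⟨?_⟩
      rintro _ ⟨u, hu, rfl⟩ g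
      refine ⟨act (π g) u, hU _ _ hu, ?_⟩
      show ((act (π g) u : π.ker) : G) = _
      rw [hap]
      exact (hcj g u).symm
    rcases S.irr _ h1 (Subgroup.map_subtype_le U) with h | h
    · left
      exact (Subgroup.map_eq_bot_iff_of_injective U (Subgroup.subtype_injective _)).1 h
    · right
      rw [eq_top_iff]
      intro x _
      have h2 : (x : G) ∈ U.map π.ker.subtype := by
        rw [h]
        exact x.2
      obtain ⟨u, hu, hux⟩ := h2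
      have h3 : u = x := Subtype.ext hux
      rwa [← h3]
  obtain ⟨κ, k1, ⟨E, hE, k2⟩, k3, k4, k5⟩ := hst K l S.prime hζ Gb π.ker
    (fun x => Subtype.ext (S.exp x x.2)) hnt act hirr hig φ hs hφ Q S' S'' hd hsp hal hc
  obtain ⟨φ', hφ'⟩ : ∃ φ' : Gal(QBar/K) →* G, ∀ σ, φ' σ = κ σ * s (φ σ) := by
    refine ⟨MonoidHom.mk' (fun σ => (κ σ : G) * s (φ σ)) fun σ τ => ?_, fun σ => rfl⟩
    rw [k1, Subgroup.coe_mul, hap, map_mul, map_mul]
    group
  refine ⟨φ', ?_, ?_, fun σ => ?_, fun v hv σ hσ => ?_, fun v hv hv2 => ?_⟩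
  · obtain ⟨E', hE', h2⟩ := hφ
    refine ⟨E ⊔ E', inferInstance, fun σ hσ => ?_⟩
    have h3 : κ σ = 1 := k2 σ (IntermediateField.fixingSubgroup_antitone le_sup_left hσ)
    have h4 : φ σ = 1 := h2 (IntermediateField.fixingSubgroup_antitone le_sup_right hσ)
    rw [MonoidHom.mem_ker, hφ', h3, h4, map_one, mul_one]
    rfl
  · intro g
    obtain ⟨σ, hσ⟩ := hs (π g)
    obtain ⟨τ, hτ, hτ2⟩ := k3 (⟨_, hdec g⟩ * (κ σ)⁻¹)
    refine ⟨τ * σ, ?_⟩
    rw [hφ', k1, hτ2, map_mul, hτ, map_one, one_mul, hσ]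
    have h1 : (⟨g * (s (π g))⁻¹, hdec g⟩ : π.ker) * (κ σ)⁻¹ * (1 : MulAut π.ker) (κ σ) =
        ⟨g * (s (π g))⁻¹, hdec g⟩ := inv_mul_cancel_right _ _
    rw [h1]
    show g * (s (π g))⁻¹ * s (π g) = g
    rw [inv_mul_cancel_right]
  · rw [hφ', map_mul, hsec]
    have h1 : π (κ σ : G) = 1 := (κ σ).2
    rw [h1, one_mul]
  · rw [hφ', k4 v hv σ hσ, hsp v (Finset.mem_union_right _ hv) σ hσ, map_one, mul_one]
    rfl
  · obtain ⟨x, hx⟩ := k5 v hv hv2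
    refine ⟨x, x.2, fun τ hτ => ?_⟩
    rw [hφ', hx τ hτ, Subgroup.coe_div, hap, div_eq_mul_inv]
    group

theorem lfs_iso {G Gb : Type} [Group G] [Group Gb] (e : G ≃* Gb) :
    LFS 1 e.toMonoidHom e.symm.toMonoidHom := by
  intro K _ _ φ hs hφ Q S' S'' hd hsp hal hc
  refine ⟨e.symm.toMonoidHom.comp φ,
    ft_comp _ _ hφ, e.symm.surjective.comp hs, fun σ => e.apply_symm_apply _, fun v hv σ hσ => ?_,
    fun v _ _ => ⟨1, one_mem _, fun τ _ => ?_⟩⟩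
  · rw [MonoidHom.comp_apply, hsp v (Finset.mem_union_right _ hv) σ hσ, map_one]
  · rw [one_mul, inv_one, mul_one]
    rfl

theorem base_lfs {l N : ℕ} (hl0 : 0 < l) {G Gb : Type} [Group G] [Finite G]
    [Group Gb] {π : G →* Gb} {s : Gb →* G} (S : LFS l π s) (hsur : Function.Surjective π)
    (C : Set G) (Cb : Set Gb) (hC : ∀ y ∈ Cb, s y ∈ C)
    (hcc : ∀ x ∈ C, ∀ g : G, g * x * g⁻¹ ∈ C)
    (h : BASE Cb N) : BASE C N := by
  have hfb : Finite Gb := Finite.of_surjective π hsur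
  have : NeZero l := ⟨hl0.ne'⟩
  obtain ⟨K₁, hK₁, h⟩ := h
  obtain ⟨K₂, hK₂, h2⟩ := H38.BG.akn (Multiplicative (ZMod l))
  have hK₁' : FiniteDimensional ℚ K₁ := hK₁.to_finiteDimensional
  have hK₂' : FiniteDimensional ℚ K₂ := hK₂.to_finiteDimensional
  have hfd' : FiniteDimensional ℚ ↥(K₁ ⊔ K₂) := IntermediateField.finiteDimensional_sup K₁ K₂
  refine ⟨K₁ ⊔ K₂, NumberField.of_module_finite ℚ _, fun K hK hle t S₁ => ?_⟩
  obtain ⟨-, ⟨z, hz⟩, -⟩ := h2 K (le_trans le_sup_right hle) hK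
  have hcard : Nat.card (Multiplicative (ZMod l)) = l :=
    (Nat.card_congr Multiplicative.toAdd).trans (Nat.card_zmod _)
  rw [hcard] at hz
  obtain ⟨Sl, hSl⟩ : ∃ Sl : Finset (Pl K), ∀ w, w ∈ Sl ↔ Above l w :=
    ⟨(above_fin hl0).toFinset, fun w => by rw [Set.Finite.mem_toFinset]; rfl⟩
  obtain ⟨Q, S₀, Sb, c, Y₀, hc, h3, h4, h5, h6, h7⟩ := h K hK (le_trans le_sup_left hle)
    (t + (l * (Nat.card Gb * (t + 1)) + 1)) (S₁ ∪ Sl)
  obtain ⟨S', hS', hS'c⟩ := Finset.exists_subset_card_eq (s := Sb) (n := t) (by omega)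
  have hdis := Finset.disjoint_left.1 h5
  have hnl : ∀ v ∈ Sb, ¬ Above l v := fun v hv h8 =>
    hdis hv (Finset.mem_union_right _ ((hSl v).2 h8))
  have hsub : (Sb \ S') ∪ S' ⊆ Sb := by
    intro v hv
    rcases Finset.mem_union.1 hv with hv | hv
    · exact (Finset.mem_sdiff.1 hv).1
    · exact hS' hv
  have hcd : l * (Nat.card Gb * (S'.card + 1)) < (Sb \ S').card := by
    rw [Finset.card_sdiff_of_subset hS', h6, hS'c]
    omega
  refine ⟨Q, S₀, S', c, Y₀, hc, Finset.union_subset_left h3, hS'.trans h4,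
    Finset.disjoint_left.2 fun v hv hv2 => hdis (hS' hv) (Finset.mem_union_left _ hv2), hS'c,
    fun Y hY => ?_⟩
  obtain ⟨Rs, hRs, h8⟩ := h7 Y hY
  have hex : ∀ φb : Gal(QBar/K) →* Gb, ∃ φ : Gal(QBar/K) →* G, φb ∈ Rs → FT φ ∧
      Function.Surjective φ ∧ (∀ σ, π (φ σ) = φb σ) ∧
      (∀ v ∈ S', ∀ σ ∈ dec (K := K) (Q.P v), φ σ = 1) ∧
      ∀ v, v ∉ Sb \ S' → ¬ Above l v → ∃ m ∈ π.ker, ∀ τ ∈ (Q.P v).inertia Gal(QBar/K),
        φ τ = m * s (φb τ) * m⁻¹ := by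
    intro φb
    by_cases hφb : φb ∈ Rs
    · obtain ⟨g1, g2, g3, g4⟩ := h8 φb hφb
      obtain ⟨φ, q2⟩ := S K ⟨z, hz⟩ φb g2 g1 Q (Sb \ S') S'
        Finset.sdiff_disjoint (fun v hv => g3 v (hsub hv)) (fun v hv => hnl v (hsub hv)) hcd
      exact ⟨φ, fun _ => q2⟩
    · exact ⟨1, fun h => absurd h hφb⟩
  choose lf hlf using hex
  have hinj : Set.InjOn lf (Rs : Set (Gal(QBar/K) →* Gb)) := by
    intro θ₁ h9 θ₂ h10 he
    obtain ⟨-, -, q1, -⟩ := hlf θ₁ h9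
    obtain ⟨-, -, q2, -⟩ := hlf θ₂ h10
    refine MonoidHom.ext fun σ => ?_
    rw [← q1 σ, ← q2 σ, he]
  refine ⟨Rs.image lf, ?_, ?_⟩
  · rw [Finset.card_image_of_injOn hinj]
    exact hRs
  intro φ hφ
  obtain ⟨φb, hφb, rfl⟩ := Finset.mem_image.1 hφ
  obtain ⟨q2, q3, q4, q5, q6⟩ := hlf φb hφb
  obtain ⟨g1, g2, g3, T, k, t1, t2, t3, t4⟩ := h8 φb hφb
  have hin : ∀ w, w ∉ S₀ → ∃ m ∈ π.ker, ∀ τ ∈ (Q.P w).inertia Gal(QBar/K),
      lf φb τ = m * s (φb τ) * m⁻¹ := fun w hw =>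
    q6 w (fun h9 => hw (h4 (Finset.mem_sdiff.1 h9).1)) fun h9 =>
      hw (h3 (Finset.mem_union_right _ ((hSl w).2 h9)))
  refine ⟨q2, q3, q5, T, k, t1, t2, fun v hv => ?_, fun v hv hv2 τ hτ => ?_⟩
  · obtain ⟨x, hx, hx2⟩ := t3 v hv
    obtain ⟨m, hm, h9⟩ := hin v (t1 v hv)
    refine ⟨m * s x * m⁻¹, ?_, fun τ hτ => ?_⟩
    · refine pk_map (f := (MulAut.conj m).toMonoidHom.comp s) ?_ hx
      intro y hy
      exact hcc _ (hC _ hy) m
    · obtain ⟨j, hj⟩ := Subgroup.mem_zpowers_iff.1 (hx2 τ hτ)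
      rw [h9 τ hτ, ← hj, map_zpow]
      exact ⟨j, conj_zpow⟩
  · obtain ⟨m, hm, h9⟩ := hin v hv
    rw [h9 τ hτ, t4 v hv hv2 τ hτ, map_one, mul_one, mul_inv_cancel]

end H71.KA
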