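import Pool.Agent.H71.KA.Spl
import Pool.Agent.H51.K1.Bas

/-!
# [H71 KA K1C] MP_b39724_nt, theorem K1: the core from `FAM` and `FIB`
-/

set_option autoImplicit false

noncomputable section

namespace H71.KA

theorem k1c (hFAM : H51.K1.FAM) (hFIB : H51.K1.FIB) : K1C := by
  intro G _ _ T A hT hTc hTA hco hAc C hCp hcc _ hgen hne N g uni hI
  obtain ⟨n, x, h1, h2, h3, h4, h5⟩ := spl T A hT hTc hTA hco hAc C hCp hgen hne N g uni hI
  rw [h5]
  exact H51.K1.k1core hFAM hFIB T A hT hTc hAc hTA hco C hcc hCp n x h1 h2 h3 h4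

end H71.KA
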