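import Pool.Agent.H71.KA.Bx0
import Pool.Agent.H51.K2.Bas

/-!
# [H71 KA CO0] MP_b39724_nt, theorem K2: the core without fibre

`k2core0`: `C` a set of elements of prime order of the finite group `G`, closed under conjugation, all its elements commute, `o 0, …, o k`
representatives of its classes: `BASE C (k + 1)` from `FAM2`.
-/

set_option autoImplicit false

open scoped NumberField Classical
open IsDedekindDomain H38.ML Pool.Agent.H36.RS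

noncomputable section

namespace H71.KA

open H63.MA H38.BB H38.BG H77.PC3 H51.SN H57.SL H36.QA H88.LH H51.K1 H51.K2

private theorem un {α β : Type} (B : Finset β) (P : α → β → Prop) (c : ℝ)
    (h : ∀ b ∈ B, ∃ R : Finset α, c ≤ (R.card : ℝ) ∧ ∀ θ ∈ R, P θ b)
    (hu : ∀ θ b b', P θ b → P θ b' → b = b') :
    ∃ R : Finset α, (B.card : ℝ) * c ≤ (R.card : ℝ) ∧ ∀ θ ∈ R, ∃ b ∈ B, P θ b := by
  have h' : ∀ b, ∃ R : Finset α, (b ∈ B → c ≤ (R.card : ℝ)) ∧ ∀ θ ∈ R, P θ b := by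
    intro b
    by_cases hb : b ∈ B
    · obtain ⟨R, h1, h2⟩ := h b hb
      exact ⟨R, fun _ => h1, h2⟩
    · exact ⟨∅, fun h => absurd h hb, by simp⟩
  choose R hR1 hR2 using h'
  refine ⟨B.biUnion R, ?_, ?_⟩
  · rw [Finset.card_biUnion]
    · push_cast
      rw [← nsmul_eq_mul]
      exact Finset.card_nsmul_le_sum B _ _ fun b hb => hR1 b hb
    · intro b _ b' _ hne
      refine Finset.disjoint_left.2 ?_
      intro θ h1 h2
      exact hne (hu θ b b' (hR2 b θ h1) (hR2 b' θ h2))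
  · intro θ hθ
    obtain ⟨b, hb, h1⟩ := Finset.mem_biUnion.1 hθ
    exact ⟨b, hb, hR2 b θ h1⟩

private theorem pwu {C N : ℝ} (hC : 2 ≤ C) {i j : ℕ} (h1 : C ^ i < N) (h2 : N ≤ C * C ^ i)
    (h3 : C ^ j < N) (h4 : N ≤ C * C ^ j) : i = j := by
  have h5 : C ^ i < C ^ (j + 1) := by
    rw [pow_succ, mul_comm]
    exact lt_of_lt_of_le h1 h4
  have h6 : C ^ j < C ^ (i + 1) := by
    rw [pow_succ, mul_comm]
    exact lt_of_lt_of_le h3 h2
  have hC1 : 1 < C := by linarith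
  have h7 := (pow_lt_pow_iff_right₀ hC1).1 h5
  have h8 := (pow_lt_pow_iff_right₀ hC1).1 h6
  omega

theorem cor0 (hFAM : FAM2) {K : IntermediateField ℚ QBar} [NumberField K]
    (hTC : NumberField.IsTotallyComplex K) {m : ℕ} {ζ : K} (hζ : IsPrimitiveRoot ζ m) {G : Type} [Group G] [Finite G]
    (hG : Nat.card G ∣ m) (hm : 0 < m) (C : Set G)
    (hC : ∀ y ∈ C, ∀ g : G, g * y * g⁻¹ ∈ C) (hCp : ∀ y ∈ C, (orderOf y).Prime) (k : ℕ)
    (o : Fin (k + 1) → (⊤ : Subgroup G)) (ho : ∀ i, (o i : G) ∈ C) (hoc : ∀ i j, IsConj (o i) (o j) → i = j)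
    (hcom : ∀ x ∈ C, ∀ y ∈ C, x * y = y * x)
    (Q : DP K QBar) (φ₀ : Gal(QBar/K) →* (⊤ : Subgroup G)) (hφ₀ : FT φ₀) (hs : Function.Surjective φ₀)
    (S₁ S' : Finset (Pl K))
    (hS₁ : ∀ v : Pl K, ((m : ℕ) : 𝓞 K) ∈ v.asIdeal → v ∈ S₁) (hS' : ∀ v ∈ S', ((m : ℕ) : 𝓞 K) ∉ v.asIdeal)
    (hd : ∀ v ∈ S', ∀ σ ∈ dec (K := K) (Q.P v), φ₀ σ = 1) :
    ∃ (S₀ : Finset (Pl K)) (c Y₀ : ℝ), S₁ ⊆ S₀ ∧ 0 < c ∧ ∀ Y : ℝ, Y₀ ≤ Y → Bh C (k + 1) Q S₀ S' c Y := by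
  have hL : ∀ i, (orderOf (o i)).Prime := by
    intro i
    have h1 := hCp _ (ho i)
    rwa [Subgroup.orderOf_coe] at h1
  have hcA : Nat.card (⊤ : Subgroup G) ∣ m := (Subgroup.card_subgroup_dvd_card _).trans hG
  obtain ⟨S₀, Cr, θ, η, c0, Z0, hS₁S, hCr, hθ, hη, hc0, hfam⟩ := hFAM K hTC m ζ hζ (⊤ : Subgroup G) hcA hm
    (Fin (k + 1)) o hL hoc (fun i j a b => by
      apply Subtype.ext
      exact hcom _ (hC _ (ho i) a) _ (hC _ (ho j) b)) (Fin 0) (fun j => j.elim0) Q φ₀ hφ₀ hs S₁ S' hS' hd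
  obtain ⟨c4, Y4, hc4, hY4, hbx⟩ := boxes0 k Cr hCr
  have hCr0 : 0 < Cr := by linarith
  have hE0 : 0 < Cr * Cr ^ (k + 1) := by positivity
  have hk1 : (0 : ℝ) < 2 * ((k : ℝ) + 1) := by positivity
  refine ⟨S₀, c4 * (c0 / (Cr * Cr ^ (k + 1))), max Y4 ((max 1 Z0) ^ (2 * ((k : ℝ) + 1))),
    hS₁S, by positivity, fun Y hY => ?_⟩
  have hYa : Y4 ≤ Y := (le_max_left _ _).trans hY
  have hYb : (max 1 Z0) ^ (2 * ((k : ℝ) + 1)) ≤ Y := (le_max_right _ _).trans hY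
  have hY1 : 1 ≤ Y := hY4.trans hYa
  have hY0 : 0 < Y := by linarith
  obtain ⟨Z, Bx, hZY, hBx1, hBx2⟩ := hbx Y hYa
  have hZm : max 1 Z0 ≤ Z := by
    have h1 : ((max 1 Z0) ^ (2 * ((k : ℝ) + 1))) ^ (1 / (2 * ((k : ℝ) + 1))) ≤ Y ^ (1 / (2 * ((k : ℝ) + 1))) :=
      Real.rpow_le_rpow (Real.rpow_nonneg (le_trans zero_le_one (le_max_left _ _)) _) hYb (by positivity)
    rw [← Real.rpow_mul (le_trans zero_le_one (le_max_left _ _)), mul_one_div_cancel hk1.ne',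
      Real.rpow_one] at h1
    exact h1.trans hZY
  have hZ0 : Z0 ≤ Z := (le_max_right _ _).trans hZm
  -- the union over the boxes
  obtain ⟨P, hP⟩ : ∃ P : (Gal(QBar/K) →* G) → (Fin (k + 1) → ℕ) → Prop,
      P = fun ϑ e => ∃ (φ : Gal(QBar/K) →* (⊤ : Subgroup G)) (D : Fin (k + 1) → Finset (Pl K)),
        TyB Q m ζ S₀ S' o D φ ∧ (∀ o, Cr ^ (e o) < nN (D o) ∧ nN (D o) ≤ Cr * Cr ^ (e o)) ∧
        ϑ = (Subgroup.subtype ⊤).comp φ := ⟨_, rfl⟩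
  have g1 : ∀ e ∈ Bx, ∃ R : Finset (Gal(QBar/K) →* G),
      c0 / (Cr * Cr ^ (k + 1)) * Y ≤ (R.card : ℝ) ∧ ∀ θ ∈ R, P θ e := by
    rw [hP]
    intro e he
    obtain ⟨h1, h2, h3, h4⟩ := hBx2 e he
    obtain ⟨ι, hι, φ, D, g, hinj, hcard, hTy, hN, -⟩ := hfam Z hZ0 (fun j => Cr ^ (e j)) h1 h2
    refine ⟨Finset.univ.image fun i => (Subgroup.subtype ⊤).comp (φ i), ?_, fun ϑ hϑ => ?_⟩
    · rw [Finset.card_image_of_injective, Finset.card_univ]
      · refine le_trans ?_ hcard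
        have h5 : ∏ j, Cr * Cr ^ (e j) = Cr ^ (k + 1) * ∏ j, Cr ^ (e j) := by
          rw [Finset.prod_mul_distrib, Finset.prod_const, Finset.card_univ, Fintype.card_fin]
        rw [h5, div_le_iff₀ hCr0] at h4
        calc c0 / (Cr * Cr ^ (k + 1)) * Y ≤ c0 / (Cr * Cr ^ (k + 1)) *
              (Cr ^ (k + 1) * (∏ j, Cr ^ (e j)) * Cr) := by
              refine mul_le_mul_of_nonneg_left h4 ?_
              positivity
          _ = c0 * ∏ j, Cr ^ (e j) := by field_simp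
      · intro i j hij
        apply hinj
        refine MonoidHom.ext fun σ => ?_
        apply Subtype.ext
        exact congrArg (fun f : Gal(QBar/K) →* G => f σ) hij
    · obtain ⟨i, -, rfl⟩ := Finset.mem_image.1 hϑ
      exact ⟨φ i, D i, hTy i, fun j => hN i j, rfl⟩
  have g2 : ∀ θ b b', P θ b → P θ b' → b = b' := by
    rw [hP]
    rintro ϑ e e' ⟨φ, D, hA, hAD, h1⟩ ⟨φ', D', hA', hAD', h2⟩
    have hφ : φ = φ' := by
      refine MonoidHom.ext fun σ => ?_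
      apply Subtype.ext
      exact congrArg (fun f : Gal(QBar/K) →* G => f σ) (h1.symm.trans h2)
    subst hφ
    have hS₀ : ∀ v : Pl K, ((m : ℕ) : 𝓞 K) ∈ v.asIdeal → v ∈ S₀ := fun v hv => hS₁S (hS₁ v hv)
    have hD : D = D' := tyB_unq Q hζ hcA hS₀ hL hoc hA hA'
    subst hD
    exact funext fun o => pwu hCr (hAD o).1 (hAD o).2 (hAD' o).1 (hAD' o).2
  obtain ⟨R, hR1, hR2⟩ := un Bx P _ g1 g2
  rw [hP] at hR2
  refine ⟨R, ?_, fun ϑ hϑ => ?_⟩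
  · refine le_trans ?_ hR1
    rw [Nat.add_sub_cancel]
    calc c4 * (c0 / (Cr * Cr ^ (k + 1))) * Y * Real.log Y ^ k
        = (c4 * Real.log Y ^ k) * (c0 / (Cr * Cr ^ (k + 1)) * Y) := by ring
      _ ≤ (Bx.card : ℝ) * (c0 / (Cr * Cr ^ (k + 1)) * Y) :=
        mul_le_mul_of_nonneg_right hBx1 (by positivity)
  · obtain ⟨e, he, φ, D, hA, hAD, rfl⟩ := hR2 ϑ hϑ
    obtain ⟨-, -, hYle, -⟩ := hBx2 e he
    have hft : FT ((Subgroup.subtype ⊤).comp φ) := by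
      obtain ⟨E, hE, hEk⟩ := hA.ft
      refine ⟨E, hE, fun σ hσ => ?_⟩
      have h1 := hEk hσ
      rw [MonoidHom.mem_ker] at h1 ⊢
      rw [MonoidHom.comp_apply, h1, map_one]
    refine ⟨hft, ?_, fun v hv σ hσ => ?_, ?_⟩
    · intro g
      obtain ⟨σ, hσ⟩ := hA.srj ⟨g, Subgroup.mem_top g⟩
      exact ⟨σ, congrArg Subtype.val hσ⟩
    · rw [MonoidHom.comp_apply, hA.dec v hv σ hσ, map_one]
    · have hTy : TyT Q m ζ S₀ (⊥ : Subgroup G) (fun j : Fin 0 => (j.elim0 : G)) ((Subgroup.subtype ⊤).comp φ)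
          (fun j : Fin 0 => (j.elim0 : Finset (Vx S₀))) ((Subgroup.subtype ⊤).comp φ) :=
        { ft := hft
          ovr := fun σ => by rw [mul_inv_cancel]; exact Subgroup.one_mem _
          ram := fun j => j.elim0
          unr := fun v _ => ⟨1, Subgroup.one_mem _, fun τ _ => by rw [one_mul, inv_one, mul_one]⟩ }
      refine tyB_tm Q inferInstance hC (fun j => j.elim0) ho hA hTy Y ?_
      rw [Finset.univ_eq_empty, Finset.prod_empty, mul_one]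
      refine le_trans ?_ hYle
      have h1 : nN (UI D) = ∏ i, nN (D i) := by
        unfold nN UI
        rw [Finset.prod_biUnion]
        intro i _ j _ hij
        exact hA.dis i j hij
      rw [h1]
      exact Finset.prod_le_prod (fun o _ => Finset.prod_nonneg fun _ _ => Nat.cast_nonneg _)
        fun o _ => (hAD o).2

/-- THE CORE WITHOUT FIBRE -/
theorem k2core0 (hFAM : FAM2) {G : Type} [Group G] [Finite G] (C : Set G)
    (hC : ∀ y ∈ C, ∀ g : G, g * y * g⁻¹ ∈ C) (hCp : ∀ y ∈ C, (orderOf y).Prime)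
    (hcom : ∀ x ∈ C, ∀ y ∈ C, x * y = y * x) (k : ℕ) (o : Fin (k + 1) → G)
    (ho : ∀ i, o i ∈ C) (hoc : ∀ i j, IsConj (o i) (o j) → i = j) : BASE C (k + 1) := by
  have hTA : Subgroup.IsComplement' (⊥ : Subgroup G) ⊤ := Subgroup.isComplement'_bot_top
  refine k1core_of (⊥ : Subgroup G) ⊤ inferInstance hTA C _ fun K _ hTC m ζ hζ hG hm Q φ₀ hφ₀ hs S₁ S' h1 h2 h3 h4 => ?_
  refine cor0 hFAM hTC hζ hG hm C hC hCp k (fun i => ⟨o i, Subgroup.mem_top _⟩) ho (fun i j hij => ?_) hcom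
    Q φ₀ hφ₀ hs S₁ S' h1 h2 h4
  apply hoc
  obtain ⟨c, hc⟩ := isConj_iff.1 hij
  exact isConj_iff.2 ⟨c, congrArg Subtype.val hc⟩

end H71.KA
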