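import Pool.Agent.H71.KA.Zas
import Pool.Agent.H71.KA.Co2
import Pool.Agent.H71.KA.Co0

/-!
# [H71 KA SP2] MP_b39724_nt, theorem K2: the classes in `T` and the classes which meet `A`

`enum`: enumeration of a part of the index set. `spl2`: from the data of `K2C` to the representatives. `k2c`: the core from `FAM2` and `FIB`.
-/

set_option autoImplicit false

open scoped Classical

noncomputable section

namespace H71.KA

theorem spl2 {G : Type} [Group G] [Finite G] (T A : Subgroup G) (hT : T.Normal)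
    (hTc : ∀ s ∈ T, ∀ t ∈ T, s * t = t * s) (hTA : Subgroup.IsComplement' T A)
    (hco : Nat.Coprime (Nat.card T) (Nat.card A))
    (C : Set G) (hCp : ∀ x ∈ C, (orderOf x).Prime) (hCc : ∀ x ∈ C, ∀ g : G, g * x * g⁻¹ ∈ C)
    (hgen : T = Subgroup.closure (C ∩ T))
    (hne : (C ∩ T).Nonempty) (N : ℕ) (g : Fin N → G) (uni : ∀ i j, IsConj (g i) (g j) → i = j)
    (hI : ∀ x, x ∈ C ↔ ∃ i, IsConj x (g i)) :
    ∃ (k : ℕ) (o : Fin k → A) (n : ℕ) (x : Fin (n + 1) → G), (∀ i, (o i : G) ∈ C) ∧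
      (∀ i j, IsConj (o i) (o j) → i = j) ∧ (∀ j, x j ∈ C) ∧ (∀ j, x j ∈ T) ∧
      (∀ i j, IsConj (x i) (x j) → i = j) ∧ T = Subgroup.closure {y : G | ∃ j, IsConj (x j) y} ∧
      N = k + (n + 1) := by
  have hNA : T ⊓ A = ⊥ := hTA.disjoint.eq_bot
  have hdec : ∀ g : G, ∃ n ∈ T, ∃ a ∈ A, g = n * a := by
    intro g
    have h1 : g ∈ T ⊔ A := by rw [hTA.sup_eq_top]; exact Subgroup.mem_top g
    obtain ⟨n, hn, a, ha, e⟩ := Subgroup.mem_sup_of_normal_left.1 h1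
    exact ⟨n, hn, a, ha, e.symm⟩
  have hcT : ∀ x y : G, IsConj x y → x ∈ T → y ∈ T := by
    intro x y hxy hx
    obtain ⟨c, rfl⟩ := isConj_iff.1 hxy
    exact hT.conj_mem x hx c
  have hgC : ∀ i, g i ∈ C := fun i => (hI (g i)).2 ⟨i, IsConj.refl _⟩
  -- the class of `g i` not in `T` meets `A`
  have hmA : ∀ i, g i ∉ T → ∃ a : A, IsConj (a : G) (g i) := by
    intro i hi
    have hpx := hCp _ (hgC i)
    have hcop : Nat.Coprime (orderOf (g i)) (Nat.card T) := by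
      rw [Nat.Prime.coprime_iff_not_dvd hpx]
      intro hd
      apply hi
      have h1 : Nat.Coprime (orderOf (g i)) (Nat.card A) := Nat.Coprime.coprime_dvd_left hd hco
      obtain ⟨t, ht, a, ha, e⟩ := hdec (g i)
      have h2 : (QuotientGroup.mk (s := T) a) ^ orderOf (g i) = 1 := by
        have h3 : QuotientGroup.mk (s := T) (g i) = QuotientGroup.mk a := by
          rw [e, QuotientGroup.mk_mul, (QuotientGroup.eq_one_iff t).2 ht, one_mul]
        rw [← h3, ← QuotientGroup.mk_pow, pow_orderOf_eq_one, QuotientGroup.mk_one]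
      have h3 : a ^ orderOf (g i) = 1 := by
        rw [← QuotientGroup.mk_pow, QuotientGroup.eq_one_iff] at h2
        have h4 : a ^ orderOf (g i) ∈ T ⊓ A := ⟨h2, A.pow_mem ha _⟩
        rwa [hNA, Subgroup.mem_bot] at h4
      have h4 : orderOf a ∣ Nat.gcd (orderOf (g i)) (Nat.card A) := by
        refine Nat.dvd_gcd (orderOf_dvd_of_pow_eq_one h3) ?_
        have h5 : orderOf (⟨a, ha⟩ : A) ∣ Nat.card A := orderOf_dvd_natCard _
        rwa [Subgroup.orderOf_mk] at h5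
      rw [h1, Nat.dvd_one, orderOf_eq_one_iff] at h4
      rw [e, h4, mul_one]
      exact ht
    obtain ⟨s, hs, a, ha, -, e⟩ := conj_compl T A hTc hdec hNA (pow_orderOf_eq_one (g i)) hcop
    exact ⟨⟨a, ha⟩, isConj_iff.2 ⟨s, e.symm⟩⟩
  have hcard2 : N = Nat.card {i : Fin N // g i ∉ T} + Nat.card {i : Fin N // g i ∈ T} := by
    have h1 := Nat.card_congr (Equiv.sumCompl fun i : Fin N => g i ∈ T)
    rw [Nat.card_sum, Nat.card_eq_fintype_card (α := Fin N), Fintype.card_fin] at h1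
    omega
  obtain ⟨y, hyC, hyT⟩ := hne
  obtain ⟨i₀, hi₀⟩ := (hI y).1 hyC
  have hne' : Nonempty {i : Fin N // g i ∈ T} := ⟨⟨i₀, hcT _ _ hi₀ hyT⟩⟩
  obtain ⟨n, hn⟩ : ∃ n, Nat.card {i : Fin N // g i ∈ T} = n + 1 :=
    Nat.exists_eq_succ_of_ne_zero Nat.card_pos.ne'
  obtain ⟨e⟩ : Nonempty (Fin (n + 1) ≃ {i : Fin N // g i ∈ T}) := by
    rw [← hn]
    exact ⟨(Finite.equivFin _).symm⟩
  obtain ⟨k, hk⟩ : ∃ k, Nat.card {i : Fin N // g i ∉ T} = k := ⟨_, rfl⟩
  obtain ⟨e'⟩ : Nonempty (Fin k ≃ {i : Fin N // g i ∉ T}) := by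
    rw [← hk]
    exact ⟨(Finite.equivFin _).symm⟩
  choose o ho using fun i : Fin k => hmA (e' i) (e' i).2
  refine ⟨k, o, n, fun j => g (e j), fun i => (hI _).2 ⟨_, ho i⟩, fun i j hij => ?_, fun j => hgC _,
    fun j => (e j).2, fun i j hij => ?_, ?_, ?_⟩
  · obtain ⟨c, hc⟩ := isConj_iff.1 hij
    have h1 : IsConj ((o i : A) : G) (o j) := isConj_iff.2 ⟨c, congrArg Subtype.val hc⟩
    exact e'.injective (Subtype.ext (uni _ _ (((ho i).symm.trans h1).trans (ho j))))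
  · exact e.injective (Subtype.ext (uni _ _ hij))
  · conv_lhs => rw [hgen]
    apply congrArg
    ext z
    constructor
    · rintro ⟨hz, hz2⟩
      obtain ⟨i, hi⟩ := (hI z).1 hz
      refine ⟨e.symm ⟨i, hcT _ _ hi hz2⟩, ?_⟩
      show IsConj (g (e (e.symm ⟨i, hcT _ _ hi hz2⟩))) z
      rw [Equiv.apply_symm_apply]
      exact hi.symm
    · rintro ⟨j, hj⟩
      exact ⟨(hI z).2 ⟨_, hj.symm⟩, hcT _ _ hj (e j).2⟩
  · rw [← hk, ← hn]
    exact hcard2

theorem k2c (hFAM : H51.K2.FAM2) (hFIB : H51.K1.FIB) : K2C := by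
  intro G _ _ T A hT hTc hTA hco C hCp hcc hcomC hgen N hN g uni hI
  by_cases hne : (C ∩ T).Nonempty
  · obtain ⟨k, o, n, x, h1, h2, h3, h4, h5, h6, h7⟩ :=
      spl2 T A hT hTc hTA hco C hCp hcc hgen hne N g uni hI
    rw [h7]
    refine H51.K2.k2core hFAM hFIB T A hT hTc hTA hco C hcc hCp k o h1 h2 (fun i j a b => ?_) n x h3 h4 h5 h6
    apply Subtype.ext
    exact hcomC _ (hcc _ (h1 i) a) (A.mul_mem (A.mul_mem a.2 (o i).2) (A.inv_mem a.2)) _
      (hcc _ (h1 j) b) (A.mul_mem (A.mul_mem b.2 (o j).2) (A.inv_mem b.2))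
  · rw [Set.not_nonempty_iff_eq_empty] at hne
    rw [hne, Subgroup.closure_empty] at hgen
    subst hgen
    have hA : A = ⊤ := by
      have h1 := hTA.sup_eq_top
      rwa [bot_sup_eq] at h1
    obtain ⟨k, rfl⟩ : ∃ k, N = k + 1 := ⟨N - 1, by omega⟩
    exact k2core0 hFAM C hcc hCp (fun x hx y hy => hcomC x hx (by rw [hA]; exact Subgroup.mem_top x) y hy
      (by rw [hA]; exact Subgroup.mem_top y)) k g (fun i => (hI _).2 ⟨i, IsConj.refl _⟩) uni

end H71.KA
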