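import Pool.Agent.H71.KA.Gu4
import Pool.Agent.H12.CF.Lf0
import Pool.Agent.H51.K2.B1

/-!
# [H71 KA LF1] MP_b39724_nt, lifting by units with local triviality at given places

* `kum_dec`: the Kummer twist is trivial at the elements of a decomposition group which are trivial on `M` if the `α x` are `q`-th powers modulo
  the prime. `low_step4`: `H12.CF.low_step3` with this clause.
* `lf1_step`: `LF1 π s` (H51/K2/B1.lean) if the kernel of `π` is commutative and its order is prime to the index of a subgroup which acts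
  trivially.
-/

set_option autoImplicit false

open scoped NumberField Pointwise
open IsDedekindDomain
open scoped Classical IsMulCommutative

noncomputable section

namespace H71.KA

open H38.ML H63.MA H88.LH H77.PC3 H35.SN H12.CF H51.K2

section step

variable {K Ω : Type} [Field K] [NumberField K] [Field Ω] [Algebra K Ω] [IsAlgClosure K Ω]

omit [NumberField K] [IsAlgClosure K Ω] in
theorem dvd_of_sub (𝔓 : Ideal (𝓞 Ω)) [𝔓.IsPrime] (q : ℕ) (hq : 0 < q)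
    (hq𝔓 : ((q : ℕ) : 𝓞 Ω) ∉ 𝔓) (ζ : K) (hζ : IsPrimitiveRoot ζ q) (τ : Gal(Ω/K))
    (β : 𝓞 Ω) (hβ : β ∉ 𝔓) (h1 : τ • β - β ∈ 𝔓) (k : ℕ)
    (h : τ (β : Ω) = algebraMap K Ω ζ ^ k * (β : Ω)) : q ∣ k := by
  have hζ' : IsPrimitiveRoot (algebraMap K Ω ζ) q := hζ.map_of_injective (algebraMap K Ω).injective
  have : NeZero q := ⟨hq.ne'⟩
  set z : 𝓞 Ω := hζ'.toInteger with hz
  have hzc : (z : Ω) = algebraMap K Ω ζ := rfl
  have hzp : IsPrimitiveRoot z q := hζ'.toInteger_isPrimitiveRoot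
  have h2 : τ • β - β = (z ^ k - 1) * β := by
    apply NumberField.RingOfIntegers.ext
    change τ (β : Ω) - (β : Ω) = ((z : Ω) ^ k - 1) * (β : Ω)
    rw [h, hzc]
    ring
  rw [h2] at h1
  have h3 : z ^ k - 1 ∈ 𝔓 := (Ideal.IsPrime.mem_or_mem ‹_› h1).resolve_right hβ
  by_contra hnd
  obtain ⟨n, rfl⟩ : ∃ n, q = n + 1 := ⟨q - 1, by omega⟩
  have hprod := hzp.prod_one_sub_pow_eq_order
  have hmod : k % (n + 1) ≠ 0 := fun h0 => hnd (Nat.dvd_of_mod_eq_zero h0)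
  have hlt : k % (n + 1) < n + 1 := Nat.mod_lt _ hq
  have hzk : z ^ k = z ^ (k % (n + 1)) := by
    rw [← pow_mod_orderOf, ← hzp.eq_orderOf]
  have hmem : k % (n + 1) - 1 ∈ Finset.range n := Finset.mem_range.2 (by omega)
  have hdvd : (1 - z ^ (k % (n + 1) - 1 + 1)) ∣ ∏ k ∈ Finset.range n, (1 - z ^ (k + 1)) :=
    Finset.dvd_prod_of_mem (fun k => 1 - z ^ (k + 1)) hmem
  rw [Nat.sub_add_cancel (by omega), hprod, ← hzk] at hdvd
  apply hq𝔓
  obtain ⟨c, hc⟩ := hdvd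
  have : ((n + 1 : ℕ) : 𝓞 Ω) = (z ^ k - 1) * (-c) := by
    push_cast
    rw [hc]; ring
  rw [this]
  exact 𝔓.mul_mem_right _ h3

omit [NumberField K] [IsAlgClosure K Ω] in
theorem kum_dec (M : IntermediateField K Ω) [FiniteDimensional K M] [Normal K M]
    {H A X : Type} [Group H] [CommGroup A] [Fintype X] [MulAction Gal(M/K) X]
    (ρb : Gal(M/K) →* H) (j : A →* H) (q : ℕ) (hq : 0 < q) (ζ : K) (hζ : IsPrimitiveRoot ζ q)
    (hA : ∀ t : A, t ^ q = 1) (a : X → A) (αO : X → 𝓞 M)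
    (O : KumOut M ρb j q ζ a (fun x => ((αO x : 𝓞 M) : M)))
    (𝔓 : Ideal (𝓞 Ω)) [𝔓.IsPrime] (hq𝔓 : ((q : ℕ) : 𝓞 Ω) ∉ 𝔓)
    (hB : ∀ x, αO x ∉ 𝔓.under (𝓞 M)) (hy : ∀ x, ∃ y : 𝓞 M, αO x - y ^ q ∈ 𝔓.under (𝓞 M))
    (τ : Gal(Ω/K)) (hτ : τ ∈ dec (K := K) 𝔓) (hres : res M τ = 1) : O.ρ τ = 1 := by
  rw [O.hρ, hres, map_one, mul_one]
  have h0 : ∏ x, a ((1 : Gal(M/K)) • x) ^ O.κ τ x = 1 := by
    refine Finset.prod_eq_one fun x _ => ?_
    have hpow : O.β x ^ q = (((αO x : 𝓞 M) : M) : Ω) := O.hβ x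
    have hint : IsIntegral ℤ (O.β x) := by
      refine IsIntegral.of_pow hq ?_
      rw [hpow]
      exact (αO x).2.map (algebraMap M Ω : M →+* Ω).toIntAlgHom
    obtain ⟨β, hβd⟩ : ∃ β : 𝓞 Ω, β = ⟨O.β x, hint⟩ := ⟨_, rfl⟩
    have hβc : (β : Ω) = O.β x := by rw [hβd]; rfl
    have hβq : β ^ q = algebraMap (𝓞 M) (𝓞 Ω) (αO x) := by
      apply NumberField.RingOfIntegers.ext
      change (β : Ω) ^ q = _
      rw [hβc]
      exact hpow
    have hβ : β ∉ 𝔓 := by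
      intro h
      apply hB x
      have h1 : β ^ q ∈ 𝔓 := Ideal.pow_mem_of_mem _ h q hq
      rw [hβq] at h1
      exact h1
    have hk : τ (β : Ω) = algebraMap K Ω ζ ^ O.κ τ x * (β : Ω) := by
      have h1 := O.hκ τ x
      rw [hres, one_smul] at h1
      rw [hβc]
      exact h1
    -- `β` is `y` times a root of unity modulo `𝔓`
    obtain ⟨y, hy⟩ := hy x
    have hζ' : IsPrimitiveRoot (algebraMap K Ω ζ) q := hζ.map_of_injective (algebraMap K Ω).injective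
    have : NeZero q := ⟨hq.ne'⟩
    obtain ⟨z, hz⟩ : ∃ z : 𝓞 Ω, z = hζ'.toInteger := ⟨_, rfl⟩
    have hzc : (z : Ω) = algebraMap K Ω ζ := by rw [hz]; rfl
    have hzp : IsPrimitiveRoot z q := by rw [hz]; exact hζ'.toInteger_isPrimitiveRoot
    obtain ⟨y', hy'⟩ : ∃ y' : 𝓞 Ω, y' = algebraMap (𝓞 M) (𝓞 Ω) y := ⟨_, rfl⟩
    have h1 : β ^ q - y' ^ q ∈ 𝔓 := by
      rw [hβq, hy', ← map_pow, ← map_sub]
      exact hy
    rw [hzp.pow_sub_pow_eq_prod_sub_mul β y' hq] at h1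
    obtain ⟨ξ, hξ, h2⟩ := (Ideal.IsPrime.prod_mem_iff).1 h1
    rw [Polynomial.mem_nthRootsFinset hq] at hξ
    obtain ⟨i, -, hi⟩ := hzp.eq_pow_of_pow_eq_one hξ
    have hzτ : τ • z = z := by
      apply NumberField.RingOfIntegers.ext
      change τ (z : Ω) = (z : Ω)
      rw [hzc]
      exact τ.commutes ζ
    have hyτ : τ • y' = y' := by
      apply NumberField.RingOfIntegers.ext
      rw [hy']
      change τ (((y : 𝓞 M) : M) : Ω) = (((y : 𝓞 M) : M) : Ω)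
      have h3 : (((res M τ) ((y : 𝓞 M) : M) : M) : Ω) = τ (((y : 𝓞 M) : M) : Ω) :=
        AlgEquiv.restrictNormal_commutes τ M _
      rw [← h3, hres]
      rfl
    have h3 : τ • (β - ξ * y') ∈ 𝔓 := (hτ _).2 h2
    have h4 : τ • (β - ξ * y') = τ • β - ξ * y' := by
      rw [smul_sub, smul_mul', hyτ, ← hi, smul_pow', hzτ]
    rw [h4] at h3
    have h5 : τ • β - β ∈ 𝔓 := by
      have h6 := 𝔓.sub_mem h3 h2
      have h7 : τ • β - ξ * y' - (β - ξ * y') = τ • β - β := by ring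
      rwa [h7] at h6
    obtain ⟨l, hl⟩ := dvd_of_sub 𝔓 q hq hq𝔓 ζ hζ τ β hβ h5 (O.κ τ x) hk
    rw [hl, pow_mul, hA, one_pow]
  rw [h0, map_one]

theorem low_step4 {H' H : Type} [Group H'] [Finite H'] [Group H] (π : H' →* H)
    (hπ : Function.Surjective π) (hab : ∀ a b : H', π a = 1 → π b = 1 → a * b = b * a)
    (s : H →* H') (hsec : ∀ h, π (s h) = h) (Z : Subgroup H) [Z.Normal]
    (hZ : ∀ z ∈ Z, ∀ a : H', π a = 1 → s z * a = a * s z)
    (hcop : Nat.Coprime Z.index (Nat.card π.ker)) (hK : NumberField.IsTotallyComplex K)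
    {J : Type} [Finite J] (𝔔 : J → Ideal (𝓞 Ω)) (h𝔔 : ∀ i, (𝔔 i).IsPrime)
    (h𝔔0 : ∀ i, (𝔔 i).under (𝓞 K) ≠ ⊥) (h𝔔q : ∀ i, ((Nat.card π.ker : ℕ) : 𝓞 Ω) ∉ 𝔔 i)
    {B : ℕ} (hB : Nat.card π.ker ^ (Nat.card J * Nat.card H) < 2 ^ B)
    (hs : (B + 1) * Nat.card H' + 1 ≤ Fintype.card (NumberField.InfinitePlace K)) (ζ : K)
    (hζ : IsPrimitiveRoot ζ (Nat.card π.ker)) (ρ : Gal(Ω/K) →* H) (hρ : Function.Surjective ρ)
    (hft : FT ρ) :
    ∃ ρ' : Gal(Ω/K) →* H', Function.Surjective ρ' ∧ FT ρ' ∧ (∀ σ, π (ρ' σ) = ρ σ) ∧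
      (∀ 𝔓 : Ideal (𝓞 Ω), 𝔓.IsPrime → ((Nat.card π.ker : ℕ) : 𝓞 Ω) ∉ 𝔓 →
        ∀ τ ∈ 𝔓.inertia Gal(Ω/K), ρ τ ∈ Z → ρ' τ = s (ρ τ)) ∧
      ∀ i, ∀ σ ∈ dec (K := K) (𝔔 i), ρ σ = 1 → ρ' σ = 1 := by
  classical
  obtain ⟨M, hMf, hMg, e, he, her⟩ := factor ρ hft
  have := hMf
  have := hMg
  have : NumberField M := NumberField.of_module_finite K M
  have : Finite H := Finite.of_surjective π hπ
  have hesurj : Function.Surjective e := by
    intro h
    obtain ⟨σ, rfl⟩ := hρ h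
    exact ⟨res M σ, her σ⟩
  let _ : CommGroup π.ker :=
    { (inferInstance : Group π.ker) with
      mul_comm := fun x y => Subtype.ext (hab x y x.2 y.2) }
  have : Fintype π.ker := Fintype.ofFinite _
  let ρb : Gal(M/K) →* H' := s.comp e
  let j : π.ker →* H' := π.ker.subtype
  obtain ⟨q, hqdef⟩ : ∃ q, q = Nat.card π.ker := ⟨_, rfl⟩
  rw [← hqdef] at hcop hζ h𝔔q hB ⊢
  have hq : 0 < q := by rw [hqdef]; exact Nat.card_pos
  have hA : ∀ t : π.ker, t ^ q = 1 := fun t => by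
    rw [hqdef]
    exact pow_card_eq_one'
  have hcardG : Nat.card Gal(M/K) = Nat.card H := Nat.card_congr (Equiv.ofBijective e ⟨he, hesurj⟩)
  have hcardH' : Nat.card H' = q * Nat.card H := by
    have h1 := Subgroup.card_mul_index π.ker
    rw [Subgroup.index_ker, MonoidHom.range_eq_top.2 hπ, Subgroup.card_top] at h1
    rw [hqdef]
    exact h1.symm
  -- the subgroup `Z'`
  let Z' : Subgroup Gal(M/K) := Z.comap e
  have hZ'n : Z'.Normal := inferInstanceAs (Z.comap e).Normal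
  have hZ'i : Z'.index = Z.index := Subgroup.index_comap_of_surjective Z hesurj
  have : Fintype (Gal(M/K) ⧸ Z') := Fintype.ofFinite _
  have hP0 : ∀ i, (𝔔 i).under (𝓞 M) ≠ ⊥ := by
    intro i h
    apply h𝔔0 i
    have h1 : ((𝔔 i).under (𝓞 M)).under (𝓞 K) = (𝔔 i).under (𝓞 K) := Ideal.under_under _
    rw [← h1, h]
    exact Ideal.under_bot _ _
  obtain ⟨u, huZ, hu, huy⟩ := good_units4 K M hK Z' π.ker (fun i => (𝔔 i).under (𝓞 M))
    (fun i => by
      have := h𝔔 i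
      infer_instance) hP0 hq (B := B) (by
    rw [hcardG]
    exact hB) (by
    rw [← Nat.card_eq_fintype_card, ← hqdef, hcardG, hZ'i]
    refine le_trans ?_ hs
    have h1 : Z.index ≤ Nat.card H := Nat.le_of_dvd Nat.card_pos (Subgroup.index_dvd_card Z)
    have h2 : q * B * Z.index ≤ q * B * Nat.card H := Nat.mul_le_mul_left (q * B) h1
    have h3 : Nat.card H ≤ q * Nat.card H := Nat.le_mul_of_pos_left _ hq
    have h4 : (B + 1) * (q * Nat.card H) = q * B * Nat.card H + q * Nat.card H := by ring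
    rw [hcardH']
    omega) (by
    rw [hZ'i]
    exact hcop)
  -- the index set and the two maps
  let U : π.ker → Subgroup Gal(M/K) := fun _ => Z'
  let conj : Gal(M/K) → π.ker → π.ker := fun g t =>
    ⟨ρb g * t * (ρb g)⁻¹, (inferInstance : π.ker.Normal).conj_mem _ t.2 _⟩
  have hconj : ∀ g h t, conj (g * h) t = conj g (conj h t) := by
    intro g h t
    apply Subtype.ext
    change ρb (g * h) * t * (ρb (g * h))⁻¹ = ρb g * (ρb h * t * (ρb h)⁻¹) * (ρb g)⁻¹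
    rw [map_mul]
    group
  have hconjZ : ∀ t : π.ker, ∀ z ∈ U t, conj z t = t := by
    intro t z hz
    apply Subtype.ext
    change s (e z) * (t : H') * (s (e z))⁻¹ = t
    rw [hZ (e z) hz t t.2]
    group
  let a : SigX U → π.ker := sigLift U conj hconj id hconjZ
  have hactZ : ∀ t : π.ker, ∀ z ∈ U t, z • ((u t : (𝓞 M)ˣ) : 𝓞 M) = ((u t : (𝓞 M)ˣ) : 𝓞 M) := by
    intro t z hz
    apply NumberField.RingOfIntegers.ext
    exact huZ t z hz
  let αO : SigX U → 𝓞 M :=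
    sigLift U (fun g x => g • x) (fun g h x => mul_smul g h x)
      (fun t => ((u t : (𝓞 M)ˣ) : 𝓞 M)) hactZ
  have hunit : ∀ x, IsUnit (αO x) := by
    rintro ⟨t, x⟩
    induction x using QuotientGroup.induction_on with
    | H g => exact (u t).isUnit.map (MulSemiringAction.toRingHom Gal(M/K) (𝓞 M) g)
  have hαO : ∀ x, αO x ≠ 0 := fun x => (hunit x).ne_zero
  obtain ⟨O⟩ := exists_kumOut M ρb j q hq ζ hζ hA a (fun x => ((αO x : 𝓞 M) : M))
    (fun x => by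
      simpa using hαO x)
    (by
      intro g x
      have h1 : αO (g • x) = g • αO x := sigLift_smul U _ _ _ _ g x
      rw [h1]
      rfl)
    (by
      intro g x
      have h1 : a (g • x) = conj g (a x) := sigLift_smul U _ _ _ _ g x
      rw [h1]
      rfl)
  have hπρ : ∀ σ, π (O.ρ σ) = ρ σ := by
    intro σ
    rw [O.hρ, map_mul]
    have h1 : ∀ t : π.ker, π (j t) = 1 := fun t => t.2
    rw [h1, one_mul]
    change π (s (e (res M σ))) = ρ σ
    rw [hsec, her]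
  refine ⟨O.ρ, ?_, O.ft, hπρ, ?_, ?_⟩
  · have hval := kum_surj M ρb j q hq ζ hζ hA a (fun x => ((αO x : 𝓞 M) : M))
      (fun x => by
        simpa using hαO x) O (by
        rintro p hp hpq χ ⟨t₀, ht₀⟩ hχp m hm y hy
        refine hu p (Nat.mem_primeFactors.2 ⟨hp, hpq, hq.ne'⟩) (fun t g => m ⟨t, g⟩)
          ⟨t₀, ((1 : Gal(M/K)) : Gal(M/K) ⧸ Z'), fun hdvd => ht₀ ?_⟩ y ?_
        · have h1 := hm ⟨t₀, ((1 : Gal(M/K)) : Gal(M/K) ⧸ Z')⟩
          have h2 : a ⟨t₀, ((1 : Gal(M/K)) : Gal(M/K) ⧸ Z')⟩ = t₀ := by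
            apply Subtype.ext
            change ρb 1 * t₀ * (ρb 1)⁻¹ = t₀
            rw [map_one, one_mul, inv_one, mul_one]
          rw [h2] at h1
          obtain ⟨k, hk⟩ := hdvd
          rw [hk, pow_mul, ← pow_mul ζ, Nat.div_mul_cancel hpq, hζ.pow_eq_one, one_pow] at h1
          exact Units.ext h1
        · rw [hy]
          have h3 : ∀ (t : π.ker) (x : Gal(M/K) ⧸ Z'),
              ((αO ⟨t, x⟩ : 𝓞 M) : M) = x.out (((u t : (𝓞 M)ˣ) : 𝓞 M) : M) := by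
            intro t x
            have h4 : (⟨t, x⟩ : SigX U) = ⟨t, ((x.out : Gal(M/K)) : Gal(M/K) ⧸ Z')⟩ := by
              rw [QuotientGroup.out_eq']
            rw [h4]
            rfl
          have h5 : ∀ f : SigX U → M, ∏ x, f x = ∏ t : π.ker, ∏ x : Gal(M/K) ⧸ Z', f ⟨t, x⟩ := by
            intro f
            rw [← Fintype.prod_sigma']
          rw [h5]
          exact Finset.prod_congr rfl (fun t _ => Finset.prod_congr rfl (fun x _ => by rw [h3])))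
    intro h'
    obtain ⟨σ₀, hσ₀⟩ := hρ (π h')
    obtain ⟨σ, -, hσ⟩ := hval ⟨h' * (O.ρ σ₀)⁻¹, by
      rw [MonoidHom.mem_ker, map_mul, map_inv, hπρ, hσ₀, mul_inv_cancel]⟩
    refine ⟨σ * σ₀, ?_⟩
    rw [map_mul, hσ]
    change h' * (O.ρ σ₀)⁻¹ * O.ρ σ₀ = h'
    rw [inv_mul_cancel_right]
  · intro 𝔓 h𝔓 hq𝔓 τ hτ hτ1
    have := h𝔓
    have hz : res M τ ∈ Z' := by
      change e (res M τ) ∈ Z
      rw [her]
      exact hτ1
    have hres : ∀ x : SigX U, res M τ • x = x := by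
      rintro ⟨t, x⟩
      induction x using QuotientGroup.induction_on with
      | H g =>
        have h1 : ((res M τ * g : Gal(M/K)) : Gal(M/K) ⧸ Z') = (g : Gal(M/K) ⧸ Z') := by
          rw [QuotientGroup.eq]
          have h2 : (res M τ * g)⁻¹ * g = g⁻¹ * (res M τ)⁻¹ * (g⁻¹)⁻¹ := by group
          rw [h2]
          exact hZ'n.conj_mem _ (Z'.inv_mem hz) _
        change (⟨t, ((res M τ * g : Gal(M/K)) : Gal(M/K) ⧸ Z')⟩ : SigX U) = ⟨t, (g : Gal(M/K) ⧸ Z')⟩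
        rw [h1]
    have h1 := kum_in3 M ρb j q hq ζ hζ hA a αO hαO O 𝔓 hq𝔓 (fun x hx => by
      exact (inferInstance : (𝔓.under (𝓞 M)).IsPrime).ne_top
        (Ideal.eq_top_of_isUnit_mem _ hx (hunit x))) τ hτ hres
    rw [h1]
    change s (e (res M τ)) = s (ρ τ)
    rw [her]
  · intro i σ hσ hσ1
    have := h𝔔 i
    refine kum_dec M ρb j q hq ζ hζ hA a αO O (𝔔 i) (h𝔔q i) (fun x hx => by
      exact (inferInstance : ((𝔔 i).under (𝓞 M)).IsPrime).ne_top
        (Ideal.eq_top_of_isUnit_mem _ hx (hunit x))) ?_ σ hσ (he (by rw [her, hσ1, map_one]))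
    rintro ⟨t, x⟩
    induction x using QuotientGroup.induction_on with
    | H g => exact huy t g i

end step

theorem lf1_step {G Gb : Type} [Group G] [Finite G] [Group Gb] (π : G →* Gb)
    (hπ : Function.Surjective π) (hab : ∀ a b : G, π a = 1 → π b = 1 → a * b = b * a)
    (s : Gb →* G) (hsec : ∀ h, π (s h) = h) (Z : Subgroup Gb)
    (hZ : ∀ z ∈ Z, ∀ a : G, π a = 1 → s z * a = a * s z)
    (hcop : Nat.Coprime Z.index (Nat.card π.ker)) : LF1 π s := by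
  intro k
  have hfb : Finite Gb := Finite.of_surjective π hπ
  have hcom : IsMulCommutative π.ker := ⟨⟨fun x y => Subtype.ext (hab x y x.2 y.2)⟩⟩
  have hn0 : 0 < Nat.card π.ker := Nat.card_pos
  obtain ⟨act, hact⟩ : ∃ act : Gb →* MulAut π.ker,
      act = (MulAut.conjNormal : G →* MulAut π.ker).comp s := ⟨_, rfl⟩
  have hap : ∀ (h : Gb) (x : π.ker), ((act h x : π.ker) : G) = s h * x * (s h)⁻¹ := by
    intro h x
    rw [hact]
    show (((MulAut.conjNormal : G →* MulAut π.ker) (s h) x : π.ker) : G) = _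
    rw [MulAut.conjNormal_apply]
  have hZm : Z ≤ act.ker := by
    intro z hz
    rw [MonoidHom.mem_ker]
    refine MulEquiv.ext fun x => Subtype.ext ?_
    rw [hap, hZ z hz x x.2, mul_inv_cancel_right]
    rfl
  have hcopm : Nat.Coprime act.ker.index (Nat.card π.ker) :=
    Nat.Coprime.coprime_dvd_left (Subgroup.index_dvd_of_le hZm) hcop
  have hZ' : ∀ z ∈ act.ker, ∀ a : G, π a = 1 → s z * a = a * s z := by
    intro z hz a ha
    rw [MonoidHom.mem_ker] at hz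
    have h1 := hap z ⟨a, ha⟩
    rw [hz] at h1
    have h2 : a = s z * a * (s z)⁻¹ := h1
    rw [eq_mul_inv_iff_mul_eq] at h2
    exact h2.symm
  obtain ⟨B, hBd⟩ : ∃ B, B = Nat.card π.ker * (k * Nat.card Gb) + 1 := ⟨_, rfl⟩
  obtain ⟨K₀, hK₀, hb⟩ := base_field (Nat.card π.ker) ((B + 1) * Nat.card G + 1) hn0
  refine ⟨K₀, NumberField.of_module_finite ℚ _, fun K hK hle φ hs hφ Q S' hk hnS hdS => ?_⟩
  obtain ⟨⟨ζ, hζ⟩, htc, hinf⟩ := hb K hK hle
  have hqQ : ∀ v : Pl K, ¬ Above (Nat.card π.ker) v → ((Nat.card π.ker : ℕ) : 𝓞 QBar) ∉ Q.P v := by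
    intro v hv h5
    apply hv
    have h6 := Q.under v
    show ((Nat.card π.ker : ℕ) : 𝓞 K) ∈ v.asIdeal
    rw [← h6, Ideal.under_def, Ideal.mem_comap, map_natCast]
    exact h5
  have hcS : Nat.card {v // v ∈ S'} = k := by
    rw [← hk, Nat.card_eq_fintype_card, Fintype.card_coe]
  obtain ⟨φ', h1, h2, h3, h4, h0⟩ := low_step4 π hπ hab s hsec act.ker hZ' hcopm htc
    (J := {v // v ∈ S'}) (fun v => Q.P v) (fun v => Q.prime v)
    (fun v => by
      rw [Q.under]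
      exact v.1.ne_bot) (fun v => hqQ v (hnS v v.2)) (B := B) (by
      rw [hcS, hBd]
      calc Nat.card π.ker ^ (k * Nat.card Gb) ≤ (2 ^ Nat.card π.ker) ^ (k * Nat.card Gb) :=
            Nat.pow_le_pow_left Nat.lt_two_pow_self.le _
        _ = 2 ^ (Nat.card π.ker * (k * Nat.card Gb)) := by rw [← pow_mul]
        _ < 2 ^ (Nat.card π.ker * (k * Nat.card Gb) + 1) := Nat.pow_lt_pow_right (by norm_num) (Nat.lt_succ_self _))
    hinf ζ hζ φ hs hφ
  refine ⟨φ', h2, h1, h3, fun v hv σ hσ => h0 ⟨v, hv⟩ σ hσ (hdS v hv σ hσ), fun v hv => ?_⟩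
  have hQ1 : (Q.P v).IsPrime := Q.prime v
  have hQ2 : ((Nat.card π.ker : ℕ) : 𝓞 QBar) ∉ Q.P v := by
    intro h5
    apply hv
    have h6 := Q.under v
    show ((Nat.card π.ker : ℕ) : 𝓞 K) ∈ v.asIdeal
    rw [← h6, Ideal.under_def, Ideal.mem_comap, map_natCast]
    exact h5
  have hin := h4 (Q.P v) hQ1 hQ2
  -- the cocycle
  have hmem : ∀ τ : Gal(QBar/K), φ' τ * (s (φ τ))⁻¹ ∈ π.ker := by
    intro τ
    rw [MonoidHom.mem_ker, map_mul, map_inv, hsec, h3, mul_inv_cancel]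
  obtain ⟨u, hu⟩ : ∃ u : ℕ, (Nat.card act.range * u : ℕ) ≡ 1 [MOD Nat.card π.ker] := by
    have h5 : Nat.Coprime (Nat.card act.range) (Nat.card π.ker) := by
      rw [← Subgroup.index_ker]
      exact hcopm
    rcases Nat.lt_or_ge 1 (Nat.card π.ker) with h6 | h6
    · obtain ⟨u, -, hu⟩ := Nat.exists_mul_mod_eq_one_of_coprime h5 h6
      refine ⟨u, ?_⟩
      show _ % _ = _ % _
      rw [hu, Nat.mod_eq_of_lt h6]
    · have h7 : Nat.card π.ker = 1 := by omega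
      rw [h7]
      exact ⟨0, Nat.modEq_one⟩
  obtain ⟨x, hx⟩ := cob (V := π.ker) act.range (powMonoidHom u) (by
    intro x
    have h5 : ∀ a : act.range, (a : MulAut π.ker) (powMonoidHom u ((a : MulAut π.ker)⁻¹ x)) = x ^ u := by
      intro a
      rw [powMonoidHom_apply, map_pow, MulAut.apply_inv_self]
    have := Fintype.ofFinite act.range
    rw [finprod_eq_prod_of_fintype, Finset.prod_congr rfl fun a _ => h5 a, Finset.prod_const, Finset.card_univ,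
      ← Nat.card_eq_fintype_card, ← pow_mul, mul_comm u]
    have h6 := pow_eq_pow_mod (Nat.card act.range * u) (pow_card_eq_one' (x := x))
    rw [h6, hu, ← pow_eq_pow_mod 1 (pow_card_eq_one' (x := x)), pow_one])
    (act.comp (φ.comp ((Q.P v).inertia Gal(QBar/K)).subtype)) (fun i => ⟨_, rfl⟩)
    (fun τ => ⟨φ' τ * (s (φ τ))⁻¹, hmem τ⟩) (by
    intro i j
    apply Subtype.ext
    show φ' ((i : Gal(QBar/K)) * j) * (s (φ ((i : Gal(QBar/K)) * j)))⁻¹ =
      φ' i * (s (φ i))⁻¹ * ((act (φ i) ⟨φ' j * (s (φ j))⁻¹, hmem j⟩ : π.ker) : G)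
    rw [hap, map_mul, map_mul, map_mul]
    group) (by
    intro i hi
    apply Subtype.ext
    show φ' i * (s (φ i))⁻¹ = 1
    rw [hin i i.2 (MonoidHom.mem_ker.2 hi), mul_inv_cancel])
  refine ⟨x, x.2, fun τ hτ => ?_⟩
  have h5 := congrArg Subtype.val (hx ⟨τ, hτ⟩)
  have h6 : φ' τ * (s (φ τ))⁻¹ = (x : G) / ((act (φ τ) x : π.ker) : G) := h5
  rw [hap, div_eq_mul_inv, mul_inv_eq_iff_eq_mul] at h6
  rw [h6]
  group

end H71.KA
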