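import Pool.Agent.H88.LH.Defs

/-!
# [H71 KA CO3] MP_b39724_nt, theorem K2+: the core statement `K2P` (definition)

`G = T ⋊ A`, `T` abelian, the order of the group of automorphisms of `T` induced by `G` is prime to `#T`; `C` a set of elements of prime
order, closed under conjugation; the elements of `C` outside `T` have order prime to `#T`; the elements of `C ∩ A` commute; `T` generated
by `C ∩ T` (which may be empty); `N ≥ 1` classes: then `BASE C N`.
-/

set_option autoImplicit false

noncomputable section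

namespace H71.KA

open H88.LH

/-- the core of theorem K2+ -/
def K2P : Prop :=
  ∀ (G : Type) [Group G] [Finite G] (T A : Subgroup G) (hT : T.Normal)
    (_ : ∀ s ∈ T, ∀ t ∈ T, s * t = t * s) (_ : Subgroup.IsComplement' T A)
    (_ : Nat.Coprime (Nat.card T) (Nat.card (@MulAut.conjNormal G _ T hT).range))
    (C : Set G) (_ : ∀ x ∈ C, (orderOf x).Prime) (_ : ∀ x ∈ C, ∀ g : G, g * x * g⁻¹ ∈ C)
    (_ : ∀ x ∈ C, x ∈ T ∨ Nat.Coprime (orderOf x) (Nat.card T))
    (_ : ∀ x ∈ C, x ∈ A → ∀ y ∈ C, y ∈ A → x * y = y * x)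
    (_ : T = Subgroup.closure (C ∩ T)) (N : ℕ) (_ : 1 ≤ N) (g : Fin N → G)
    (_ : ∀ i j, IsConj (g i) (g j) → i = j) (_ : ∀ x, x ∈ C ↔ ∃ i, IsConj x (g i)), BASE C N

end H71.KA
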