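import Pool.Agent.H71.KA.Ch3
import Pool.Agent.H71.KA.Zas
import Pool.Agent.H71.KA.Co3
import Pool.Agent.H71.KA.Fn2

/-!
# [H71 KA FN3] MP_b39724_nt, theorem K2+: from the core to the lower bound

`N` a normal abelian subgroup of `G` of squarefree exponent with a complement `A`, the order of the group of automorphisms of `N` induced by
`G` is prime to `#N`, `T' ≤ N` for the subgroup `T` generated by `C`, the elements of `C` outside `N` have order prime to `#N`.
* `base_of3`: `BASE C r` for the set `C` of elements of prime order. `k2p_low`: THE LOWER BOUND from `STP` and `K2P`.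
* `k2p_low_hall`: the case of a Hall subgroup `N`.
-/

set_option autoImplicit false

open scoped NumberField commutatorElement
open IsDedekindDomain H38.ML
open scoped Classical

noncomputable section

namespace H71.KA

open H63.MA H38.BB H38.BG H77.PC3 H88.LH H35.SN H77.GN H77.AB

theorem base_of3 (hst : STP) (hk : K2P) {G : Type} [Group G] [Finite G] (C : Set G)
    (hp : ∀ x ∈ C, (orderOf x).Prime) (hcc : ∀ x ∈ C, ∀ g : G, g * x * g⁻¹ ∈ C)
    (N A : Subgroup G) [N.Normal] (hA : Subgroup.IsComplement' N A)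
    (hcom : ∀ x ∈ N, ∀ y ∈ N, x * y = y * x) {m : ℕ} (hm : Squarefree m) (hNm : ∀ x ∈ N, x ^ m = 1)
    (hab : ∀ x ∈ C, ∀ y ∈ C, ⁅x, y⁆ ∈ N)
    (hact : Nat.Coprime (Nat.card N) (Nat.card (MulAut.conjNormal : G →* MulAut N).range))
    (htyp : ∀ x ∈ C, x ∈ N ∨ Nat.Coprime (orderOf x) (Nat.card N))
    (r : ℕ) (hr : 1 ≤ r) (g : Fin r → G) (uni : ∀ i j, IsConj (g i) (g j) → i = j) (hI : ∀ x, x ∈ C ↔ ∃ i, IsConj x (g i)) :
    BASE C r := by
  have hNA : N ⊓ A = ⊥ := hA.disjoint.eq_bot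
  have hdec : ∀ g : G, ∃ n ∈ N, ∃ a ∈ A, g = n * a := by
    intro g
    have h1 : g ∈ N ⊔ A := by rw [hA.sup_eq_top]; exact Subgroup.mem_top g
    obtain ⟨n, hn, a, ha, e⟩ := Subgroup.mem_sup_of_normal_left.1 h1
    exact ⟨n, hn, a, ha, e.symm⟩
  obtain ⟨T, hT⟩ : ∃ T, T = Subgroup.closure (C ∩ N) := ⟨_, rfl⟩
  have hTN : T ≤ N := by rw [hT, Subgroup.closure_le]; exact Set.inter_subset_right
  have hCNT : ∀ x ∈ C, x ∈ N → x ∈ T := fun x hx hx2 => by
    rw [hT]; exact Subgroup.subset_closure ⟨hx, hx2⟩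
  have hTn : T.Normal := by
    refine ⟨fun t ht g => ?_⟩
    rw [hT] at ht ⊢
    induction ht using Subgroup.closure_induction with
    | mem x hx => exact Subgroup.subset_closure ⟨hcc x hx.1 g, (inferInstance : N.Normal).conj_mem x hx.2 g⟩
    | one => rw [mul_one, mul_inv_cancel]; exact Subgroup.one_mem _
    | mul x y hx hy ihx ihy =>
      have h1 : g * (x * y) * g⁻¹ = (g * x * g⁻¹) * (g * y * g⁻¹) := by group
      rw [h1]
      exact Subgroup.mul_mem _ ihx ihy
    | inv x hx ih =>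
      have h1 : g * x⁻¹ * g⁻¹ = (g * x * g⁻¹)⁻¹ := by group
      rw [h1]
      exact Subgroup.inv_mem _ ih
  refine chain3 hst C hcc T N A hTN hcom hm hNm hdec hNA hact ?_
  obtain ⟨H, hH⟩ : ∃ H, H = T ⊔ A := ⟨_, rfl⟩
  rw [← hH]
  have hTH : T ≤ H := by rw [hH]; exact le_sup_left
  have hAH : A ≤ H := by rw [hH]; exact le_sup_right
  -- representatives in `H`
  have hrep : ∀ i, ∃ h : H, IsConj (h : G) (g i) ∧ (h : G) ∈ C ∧ ((h : G) ∈ N ∨ (h : G) ∈ A) := by
    intro i
    have hgi : g i ∈ C := (hI (g i)).2 ⟨i, IsConj.refl _⟩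
    rcases htyp _ hgi with h | h
    · exact ⟨⟨g i, hTH (hCNT _ hgi h)⟩, IsConj.refl _, hgi, Or.inl h⟩
    · obtain ⟨s, hs, a, ha, -, e⟩ := conj_compl N A hcom hdec hNA (pow_orderOf_eq_one (g i)) h
      have h1 : IsConj a (g i) := isConj_iff.2 ⟨s, e.symm⟩
      refine ⟨⟨a, hAH ha⟩, h1, ?_, Or.inr ha⟩
      exact (hI a).2 ⟨i, h1⟩
  choose w hw1 hw2 hw3 using hrep
  have hdecH : ∀ y ∈ H, ∃ t ∈ T, ∃ a ∈ A, y = t * a := by
    intro y hy
    rw [hH] at hy
    obtain ⟨t, ht, a, ha, e⟩ := Subgroup.mem_sup_of_normal_left.1 hy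
    exact ⟨t, ht, a, ha, e.symm⟩
  have hord : ∀ x y : G, IsConj x y → orderOf x = orderOf y := by
    intro x y hxy
    obtain ⟨c, rfl⟩ := isConj_iff.1 hxy
    have h1 : c * x * c⁻¹ = MulAut.conj c x := rfl
    rw [h1, MulEquiv.orderOf_eq]
  have hcov : ∀ x ∈ H, x ∈ C → ∃ i, ∃ c ∈ H, c * x * c⁻¹ = w i := by
    intro x hx hxC
    obtain ⟨i, hi⟩ := (hI x).1 hxC
    refine ⟨i, ?_⟩
    have hxw : IsConj x (w i : G) := hi.trans (hw1 i).symm
    have hor : orderOf x = orderOf (w i : G) := hord _ _ hxw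
    obtain ⟨c, hc⟩ := isConj_iff.1 hxw
    rcases htyp x hxC with h | h
    · obtain ⟨n, hn, a, ha, rfl⟩ := hdec c
      refine ⟨a, hAH ha, ?_⟩
      have h1 : a * x * a⁻¹ ∈ N := (inferInstance : N.Normal).conj_mem x h a
      calc a * x * a⁻¹ = n * (a * x * a⁻¹) * n⁻¹ := by rw [hcom n hn _ h1, mul_inv_cancel_right]
        _ = n * a * x * (n * a)⁻¹ := by group
        _ = _ := hc
    · -- `x` is conjugate under `T` to an element of `A`
      obtain ⟨t, ht, a, ha, e⟩ := hdecH x hx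
      have haN : a ^ orderOf x = 1 := by
        have h1 : a ^ orderOf x ∈ N := by
          have h2 : (QuotientGroup.mk (s := N) a) ^ orderOf x = 1 := by
            have h3 : QuotientGroup.mk (s := N) x = QuotientGroup.mk a := by
              rw [e, QuotientGroup.mk_mul, (QuotientGroup.eq_one_iff t).2 (hTN ht), one_mul]
            rw [← h3, ← QuotientGroup.mk_pow, pow_orderOf_eq_one, QuotientGroup.mk_one]
          rwa [← QuotientGroup.mk_pow, QuotientGroup.eq_one_iff] at h2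
        have h4 : a ^ orderOf x ∈ N ⊓ A := ⟨h1, A.pow_mem ha _⟩
        rwa [hNA, Subgroup.mem_bot] at h4
      have hcT : Nat.Coprime (orderOf x) (Nat.card T) :=
        Nat.Coprime.coprime_dvd_right (Subgroup.card_dvd_of_le hTN) h
      obtain ⟨s, hs, e2⟩ := zas T (fun x hx y hy => hcom x (hTN hx) y (hTN hy)) (a := a) (t := t)
        (fun y hy => hTn.conj_mem y hy a) ht (q := orderOf x) (by rw [← e]; exact pow_orderOf_eq_one x)
        haN hcT
      rw [← e] at e2
      -- `w i` is in `A`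
      have hwA : (w i : G) ∈ A := by
        rcases hw3 i with h5 | h5
        · exfalso
          have h6 : orderOf (w i : G) ∣ Nat.card N := by
            have h7 : orderOf (⟨(w i : G), h5⟩ : N) ∣ Nat.card N := orderOf_dvd_natCard _
            rwa [Subgroup.orderOf_mk] at h7
          rw [← hor] at h6
          exact (hp x hxC).one_lt.ne' (Nat.Coprime.eq_one_of_dvd h h6)
        · exact h5
      obtain ⟨n, hn, d, hd, hnd⟩ := hdec (c * s)
      have haw : d * a * d⁻¹ = w i := by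
        have h5 : (w i : G) * (d * a * d⁻¹)⁻¹ ∈ N ⊓ A := by
          refine ⟨?_, A.mul_mem hwA (A.inv_mem (A.mul_mem (A.mul_mem hd ha) (A.inv_mem hd)))⟩
          have h7 : (w i : G) = n * (d * a * d⁻¹) * n⁻¹ := by
            rw [← hc, e2]
            calc c * (s * a * s⁻¹) * c⁻¹ = c * s * a * (c * s)⁻¹ := by group
              _ = _ := by rw [hnd]; group
          rw [h7]
          have h8 := (inferInstance : N.Normal).conj_mem _ (N.inv_mem hn) (d * a * d⁻¹)
          have h9 : n * (d * a * d⁻¹) * n⁻¹ * (d * a * d⁻¹)⁻¹ =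
            n * (d * a * d⁻¹ * n⁻¹ * (d * a * d⁻¹)⁻¹) := by group
          rw [h9]
          exact N.mul_mem hn h8
        rw [hNA, Subgroup.mem_bot, mul_inv_eq_one] at h5
        exact h5.symm
      refine ⟨d * s⁻¹, H.mul_mem (hAH hd) (H.inv_mem (hTH hs)), ?_⟩
      rw [← haw, e2]
      group
  -- the core
  obtain ⟨T', hT'⟩ : ∃ T', T' = T.subgroupOf H := ⟨_, rfl⟩
  obtain ⟨A', hA'⟩ : ∃ A', A' = A.subgroupOf H := ⟨_, rfl⟩
  have hTm : ∀ x : H, x ∈ T' ↔ (x : G) ∈ T := fun x => by rw [hT', Subgroup.mem_subgroupOf]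
  have hAm : ∀ x : H, x ∈ A' ↔ (x : G) ∈ A := fun x => by rw [hA', Subgroup.mem_subgroupOf]
  have hT'n : T'.Normal := ⟨fun x hx y => by
    rw [hTm] at hx ⊢
    exact hTn.conj_mem x hx y⟩
  have hcT' : Nat.card T' = Nat.card T := by
    rw [hT']
    exact Nat.card_congr (Subgroup.subgroupOfEquivOfLe hTH).toEquiv
  refine hk H T' A' hT'n (fun s hs t ht => ?_) ?_ ?_ (CH C H) (fun x hx => ?_)
    (fun x hx y => ?_) (fun x hx => ?_) (fun x hx hxA y hy hyA => ?_) ?_ r hr w (fun i j hij => ?_) (fun x => ?_)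
  · rw [hTm] at hs ht
    exact Subtype.ext (hcom _ (hTN hs) _ (hTN ht))
  · refine Subgroup.isComplement'_of_disjoint_and_mul_eq_univ ?_ ?_
    · rw [Subgroup.disjoint_def]
      intro x hx hx2
      rw [hTm] at hx
      rw [hAm] at hx2
      have h1 : (x : G) ∈ N ⊓ A := ⟨hTN hx, hx2⟩
      rw [hNA, Subgroup.mem_bot] at h1
      exact Subtype.ext h1
    · rw [Set.eq_univ_iff_forall]
      intro x
      obtain ⟨t, ht, a, ha, e⟩ := hdecH x x.2
      exact ⟨⟨t, hTH ht⟩, (hTm _).2 ht, ⟨a, hAH ha⟩, (hAm _).2 ha, Subtype.ext e.symm⟩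
  · rw [hcT']
    exact Nat.Coprime.coprime_dvd_right (act_dvd H.subtype H.subtype_injective T' N fun x hx => hTN ((hTm x).1 hx))
      (Nat.Coprime.coprime_dvd_left (Subgroup.card_dvd_of_le hTN) hact)
  · have h1 := hp x hx
    rwa [Subgroup.orderOf_coe] at h1
  · exact hcc x hx y
  · rcases htyp x hx with h | h
    · exact Or.inl ((hTm x).2 (hCNT x hx h))
    · right
      rw [hcT', ← Subgroup.orderOf_coe]
      exact Nat.Coprime.coprime_dvd_right (Subgroup.card_dvd_of_le hTN) h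
  · apply Subtype.ext
    rw [hAm] at hxA hyA
    have h1 : ⁅(x : G), (y : G)⁆ ∈ N ⊓ A := by
      refine ⟨hab _ hx _ hy, ?_⟩
      rw [commutatorElement_def]
      exact A.mul_mem (A.mul_mem (A.mul_mem hxA hyA) (A.inv_mem hxA)) (A.inv_mem hyA)
    rw [hNA, Subgroup.mem_bot, commutatorElement_eq_one_iff_mul_comm] at h1
    exact h1
  · apply Subgroup.map_injective H.subtype_injective
    rw [MonoidHom.map_closure]
    have h1 : T'.map H.subtype = T := by
      rw [hT', Subgroup.subgroupOf_map_subtype, inf_eq_left.2 hTH]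
    rw [h1]
    conv_lhs => rw [hT]
    apply congrArg
    ext x
    constructor
    · rintro ⟨hx, hx2⟩
      exact ⟨⟨x, hTH (hCNT x hx hx2)⟩, ⟨hx, (hTm _).2 (hCNT x hx hx2)⟩, rfl⟩
    · rintro ⟨y, ⟨hy, hy2⟩, rfl⟩
      exact ⟨hy, hTN ((hTm y).1 hy2)⟩
  · apply uni
    have h1 : IsConj (w i : G) (w j : G) := by
      obtain ⟨c, hc⟩ := isConj_iff.1 hij
      exact isConj_iff.2 ⟨c, congrArg Subtype.val hc⟩
    exact ((hw1 i).symm.trans h1).trans (hw1 j)
  · constructor
    · intro hx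
      obtain ⟨i, c, hc, e⟩ := hcov x x.2 hx
      exact ⟨i, isConj_iff.2 ⟨⟨c, hc⟩, Subtype.ext e⟩⟩
    · rintro ⟨i, hi⟩
      obtain ⟨c, hc⟩ := isConj_iff.1 hi.symm
      have h1 := hcc _ (hw2 i) c
      have h2 : (x : G) = c * w i * (c : G)⁻¹ := congrArg Subtype.val hc.symm
      show (x : G) ∈ C
      rw [h2]
      exact h1

theorem k2p_low (hst : STP) (hk : K2P) (n : ℕ) (hn : 2 ≤ n) (G : Subgroup (Equiv.Perm (Fin n)))
    (hG : MulAction.IsPretransitive G (Fin n)) (N A : Subgroup G) [N.Normal]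
    (hA : Subgroup.IsComplement' N A)
    (hcom : ∀ x ∈ N, ∀ y ∈ N, x * y = y * x) {m : ℕ} (hm : Squarefree m) (hNm : ∀ x ∈ N, x ^ m = 1)
    (hact : Nat.Coprime (Nat.card N) (Nat.card (MulAut.conjNormal : G →* MulAut N).range))
    (hab : ⁅Subgroup.closure (H88.LB.Lst G), Subgroup.closure (H88.LB.Lst G)⁆ ≤ N)
    (htyp : ∀ x ∈ H88.LB.Lst G, x ∈ N ∨ Nat.Coprime (orderOf x) (Nat.card N)) : H88.LB.Low G := by
  refine low_of_base n hn G hG fun r hr g uni hI => ?_
  refine base_of3 hst hk _ (fun x hx => H38.ML.prime_of_least G x hx.1 hx.2) (fun x hx g => ?_)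
    N A hA hcom hm hNm (fun x hx y hy => ?_) hact htyp r hr g uni hI
  · obtain ⟨ha, -, hmin, hcj, hJ⟩ := pidx_pos hn G hG
    refine ⟨fun h => hx.1 ?_, hcj x g hx.1 hx.2⟩
    have h1 : x = g⁻¹ * (g * x * g⁻¹) * g := by group
    rw [h1, h]
    group
  · exact hab (Subgroup.commutator_mem_commutator (Subgroup.subset_closure hx) (Subgroup.subset_closure hy))

/-- the case of a Hall subgroup -/
theorem k2p_low_hall (hst : STP) (hk : K2P) (n : ℕ) (hn : 2 ≤ n) (G : Subgroup (Equiv.Perm (Fin n)))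
    (hG : MulAction.IsPretransitive G (Fin n)) (N : Subgroup G) [N.Normal]
    (hcom : ∀ x ∈ N, ∀ y ∈ N, x * y = y * x) {m : ℕ} (hm : Squarefree m) (hNm : ∀ x ∈ N, x ^ m = 1)
    (hab : ⁅Subgroup.closure (H88.LB.Lst G), Subgroup.closure (H88.LB.Lst G)⁆ ≤ N)
    (hco : Nat.Coprime (Nat.card N) N.index) : H88.LB.Low G := by
  obtain ⟨A, hA⟩ := Subgroup.exists_right_complement'_of_coprime hco
  refine k2p_low hst hk n hn G hG N A hA hcom hm hNm ?_ hab fun x hx =>
    typ N hco (H38.ML.prime_of_least G x hx.1 hx.2)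
  have h1 : N ≤ (MulAut.conjNormal : G →* MulAut N).ker := by
    intro x hx
    rw [MonoidHom.mem_ker]
    refine MulEquiv.ext fun y => ?_
    apply Subtype.ext
    rw [MulAut.conjNormal_apply, hcom x hx y y.2, mul_inv_cancel_right]
    rfl
  rw [← Subgroup.index_ker]
  exact Nat.Coprime.coprime_dvd_right (Subgroup.index_dvd_of_le h1) hco

end H71.KA
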