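import Mathlib

/-!
# [H71 KA BX0] MP_b39724_nt, theorem K2: the number of boxes without fibre (real analysis)

`boxes0`: `k + 1` parameters `C ^ (e j)` in `[Z, Z ^ 2]`, with `Y / C ≤ ∏ C * C ^ (e j) ≤ Y` and `Z ≥ Y ^ (1 / (2 (k + 1)))`; there are at least `c (log Y) ^ k` of them.
-/

set_option autoImplicit false

noncomputable section

namespace H71.KA

theorem boxes0 (k : ℕ) (C : ℝ) (hC : 2 ≤ C) :
    ∃ c Y₀ : ℝ, 0 < c ∧ 1 ≤ Y₀ ∧ ∀ Y : ℝ, Y₀ ≤ Y → ∃ (Z : ℝ) (B : Finset (Fin (k + 1) → ℕ)),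
      Y ^ (1 / (2 * ((k : ℝ) + 1))) ≤ Z ∧ c * Real.log Y ^ k ≤ (B.card : ℝ) ∧
        ∀ e ∈ B, (∀ j, Z ≤ C ^ (e j)) ∧ (∀ j, C ^ (e j) ≤ Z ^ 2) ∧ ∏ j, C * C ^ (e j) ≤ Y ∧
          Y / C ≤ ∏ j, C * C ^ (e j) := by
  classical
  obtain ⟨n, hn⟩ : ∃ n : ℕ, n = k + 1 := ⟨_, rfl⟩
  have hn1 : 1 ≤ n := by omega
  obtain ⟨l, hl⟩ : ∃ l : ℝ, l = Real.log C := ⟨_, rfl⟩
  have hCpos : 0 < C := by linarith
  have hC1 : 1 < C := by linarith
  have hl0 : 0 < l := by rw [hl]; exact Real.log_pos hC1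
  have hnR : (1 : ℝ) ≤ n := by exact_mod_cast hn1
  have hn0 : (0 : ℝ) < n := by linarith
  have hkn : (k : ℝ) + 1 = n := by rw [hn]; push_cast; ring
  refine ⟨(1 / (8 * (n : ℝ) ^ 2 * l)) ^ k, Real.exp (l * (12 * (n : ℝ) ^ 2 + 12 * n)), by positivity,
    Real.one_le_exp (by positivity), fun Y hY => ?_⟩
  have hYpos : 0 < Y := lt_of_lt_of_le (Real.exp_pos _) hY
  have hlY : l * (12 * (n : ℝ) ^ 2 + 12 * n) ≤ Real.log Y := (Real.le_log_iff_exp_le hYpos).2 hY
  have hlY0 : 0 ≤ Real.log Y := le_trans (by positivity) hlY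
  obtain ⟨M, hM⟩ : ∃ M : ℕ, M = ⌊Real.log Y / l⌋₊ := ⟨_, rfl⟩
  have hM1 : (M : ℝ) * l ≤ Real.log Y := by
    have h1 : (M : ℝ) ≤ Real.log Y / l := by rw [hM]; exact Nat.floor_le (by positivity)
    rwa [le_div_iff₀ hl0] at h1
  have hM2 : Real.log Y < ((M : ℝ) + 1) * l := by
    have h1 : Real.log Y / l < (M : ℝ) + 1 := by rw [hM]; exact Nat.lt_floor_add_one _
    rwa [div_lt_iff₀ hl0] at h1
  have hMb : 12 * (n : ℝ) ^ 2 + 12 * n < (M : ℝ) + 1 := by
    have h1 : l * (12 * (n : ℝ) ^ 2 + 12 * n) < l * ((M : ℝ) + 1) := by linarith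
    exact lt_of_mul_lt_mul_left h1 hl0.le
  have hMb' : 12 * n ^ 2 + 12 * n ≤ M := by
    have h1 : ((12 * n ^ 2 + 12 * n : ℕ) : ℝ) < ((M + 1 : ℕ) : ℝ) := by push_cast; exact hMb
    have h2 : 12 * n ^ 2 + 12 * n < M + 1 := by exact_mod_cast h1
    omega
  -- the integers
  obtain ⟨A, hA⟩ : ∃ A : ℕ, A + 1 = M / n := by
    have h1 : 1 ≤ M / n := (Nat.one_le_div_iff (by omega)).2 (by nlinarith)
    exact ⟨M / n - 1, by omega⟩
  have hdm := Nat.div_add_mod M n
  obtain ⟨ρ, hρ⟩ : ∃ ρ : ℕ, ρ = M % n := ⟨_, rfl⟩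
  have hρn : ρ < n := by rw [hρ]; exact Nat.mod_lt _ (by omega)
  have hMA : M = n * A + n + ρ := by
    rw [← hA, ← hρ] at hdm
    rw [← hdm]
    ring
  obtain ⟨s, hs⟩ : ∃ s : ℕ, s = A / (4 * n) := ⟨_, rfl⟩
  have hs4 : s * (4 * n) ≤ A := by rw [hs]; exact Nat.div_mul_le_self _ _
  have hs5 : A < (s + 1) * (4 * n) := by
    rw [hs]
    have h2 := Nat.div_add_mod A (4 * n)
    have h3 : A % (4 * n) < 4 * n := Nat.mod_lt _ (by omega)
    nlinarith
  have hAn : 10 * n ≤ A := by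
    have h1 : 12 * n ^ 2 + 12 * n ≤ n * A + n + ρ := by rw [← hMA]; exact hMb'
    have h2 : n * (12 * n + 10) ≤ n * A := by nlinarith
    have h3 := Nat.le_of_mul_le_mul_left h2 (by omega)
    omega
  have hks : k * s + n ≤ A := by nlinarith
  obtain ⟨t, ht⟩ : ∃ t : ℕ, t + k * s = A := ⟨A - k * s, by omega⟩
  have ht2 : A + s + n ≤ 2 * t := by nlinarith
  -- the boxes
  obtain ⟨f, hf⟩ : ∃ f : (Fin k → Fin (s + 1)) → (Fin (k + 1) → ℕ), ∀ d,
      f d = Fin.cons (A + ρ - ∑ j, ((d j : Fin (s + 1)) : ℕ)) fun j => A + ((d j : Fin (s + 1)) : ℕ) :=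
    ⟨_, fun _ => rfl⟩
  have hfinj : Function.Injective f := by
    intro d d' h
    funext j
    have h1 := congrFun h j.succ
    rw [hf, hf, Fin.cons_succ, Fin.cons_succ] at h1
    exact Fin.ext (by omega)
  have hsum : ∀ d : Fin k → Fin (s + 1), ∑ j, ((d j : Fin (s + 1)) : ℕ) ≤ k * s := by
    intro d
    calc ∑ j, ((d j : Fin (s + 1)) : ℕ) ≤ ∑ j : Fin k, s := Finset.sum_le_sum fun j _ => by
          have := (d j).2
          omega
      _ = k * s := by rw [Finset.sum_const, Finset.card_univ, Fintype.card_fin, smul_eq_mul]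
  have hlow : ∀ d j, t ≤ f d j := by
    intro d j
    rw [hf]
    refine Fin.cases ?_ (fun j => ?_) j
    · rw [Fin.cons_zero]
      have := hsum d
      omega
    · rw [Fin.cons_succ]
      omega
  have hup : ∀ d j, f d j ≤ 2 * t := by
    intro d j
    rw [hf]
    refine Fin.cases ?_ (fun j => ?_) j
    · rw [Fin.cons_zero]
      omega
    · rw [Fin.cons_succ]
      have := (d j).2
      omega
  have hprod : ∀ d, ∏ j, C * C ^ (f d j) = C ^ M := by
    intro d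
    have h1 : ∏ j, C * C ^ (f d j) = C ^ (∑ j, (1 + f d j)) := by
      rw [← Finset.prod_pow_eq_pow_sum]
      refine Finset.prod_congr rfl fun j _ => ?_
      rw [pow_add, pow_one]
    rw [h1]
    congr 1
    rw [Fin.sum_univ_succ, hf, Fin.cons_zero]
    simp only [Fin.cons_succ]
    rw [Finset.sum_add_distrib, Finset.sum_add_distrib]
    simp only [Finset.sum_const, Finset.card_univ, Fintype.card_fin, smul_eq_mul]
    have := hsum d
    have h2 : M = (k + 1) * A + (k + 1) + ρ := by rw [← hn]; exact hMA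
    have h3 : (k + 1) * A = k * A + A := by ring
    omega
  have hCM : C ^ M = Real.exp (M * l) := by
    rw [hl, ← Real.log_pow, Real.exp_log (pow_pos hCpos M)]
  refine ⟨C ^ t, Finset.univ.image f, ?_, ?_, fun e he => ?_⟩
  · -- the size of `Z`
    rw [Real.rpow_def_of_pos hYpos, hkn]
    have h1 : C ^ t = Real.exp (t * l) := by
      rw [hl, ← Real.log_pow, Real.exp_log (pow_pos hCpos t)]
    rw [h1, Real.exp_le_exp]
    have h2 : (A : ℝ) + s + n ≤ 2 * t := by exact_mod_cast ht2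
    have h3 : (M : ℝ) = n * A + n + ρ := by exact_mod_cast hMA
    have h4 : (ρ : ℝ) ≤ n := by exact_mod_cast hρn.le
    have hs0 : (0 : ℝ) ≤ s := Nat.cast_nonneg s
    have h5 : Real.log Y ≤ (n * A + 2 * n + 1) * l := by
      refine hM2.le.trans ?_
      refine mul_le_mul_of_nonneg_right ?_ hl0.le
      rw [h3]
      linarith
    have h6 : Real.log Y * (1 / (2 * (n : ℝ))) = Real.log Y / (2 * n) := by ring
    rw [h6, div_le_iff₀ (by positivity)]
    refine h5.trans ?_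
    have h7 : (n : ℝ) * A + 2 * n + 1 ≤ t * (2 * n) := by
      have h8 : (n : ℝ) * (A + s + n) ≤ n * (2 * t) := mul_le_mul_of_nonneg_left h2 hn0.le
      have h9 : (0 : ℝ) ≤ n * s := by positivity
      have h10 : 0 ≤ (n : ℝ) * (n - 1) := mul_nonneg hn0.le (by linarith)
      -- need n * n >= 2 n + 1: use the slack of `t`
      have h11 : (A : ℝ) + s + n + 4 ≤ 2 * t := by
        have h12 : A + s + n + 4 ≤ 2 * t := by nlinarith
        exact_mod_cast h12
      have h13 : (n : ℝ) * (A + s + n + 4) ≤ n * (2 * t) := mul_le_mul_of_nonneg_left h11 hn0.le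
      nlinarith
    have h14 := mul_le_mul_of_nonneg_right h7 hl0.le
    linarith
  · rw [Finset.card_image_of_injective _ hfinj, Finset.card_univ, Fintype.card_fun, Fintype.card_fin,
      Fintype.card_fin]
    push_cast
    rw [← mul_pow]
    refine pow_le_pow_left₀ (by positivity) ?_ k
    have h1 : (A : ℝ) ≤ ((s : ℝ) + 1) * (4 * n) := by exact_mod_cast hs5.le
    have h3 : (M : ℝ) = n * A + n + ρ := by exact_mod_cast hMA
    have h4 : (ρ : ℝ) ≤ n := by exact_mod_cast hρn.le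
    have h5 : Real.log Y ≤ (n * A + 2 * n + 1) * l := by
      refine hM2.le.trans ?_
      refine mul_le_mul_of_nonneg_right ?_ hl0.le
      rw [h3]
      linarith
    have h6 : (10 : ℝ) * n ≤ A := by exact_mod_cast hAn
    have h7 : (n : ℝ) * A + 2 * n + 1 ≤ 2 * (n * A) := by nlinarith
    have h8 : Real.log Y ≤ 2 * (n * A) * l := h5.trans (mul_le_mul_of_nonneg_right h7 hl0.le)
    rw [div_mul_eq_mul_div, one_mul, div_le_iff₀ (by positivity)]
    refine h8.trans ?_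
    have h9 : (n : ℝ) * A ≤ n * (((s : ℝ) + 1) * (4 * n)) := mul_le_mul_of_nonneg_left h1 hn0.le
    have h10 : 2 * ((n : ℝ) * A) * l ≤ 2 * (n * (((s : ℝ) + 1) * (4 * n))) * l :=
      mul_le_mul_of_nonneg_right (mul_le_mul_of_nonneg_left h9 (by norm_num)) hl0.le
    refine h10.trans (le_of_eq ?_)
    ring
  · obtain ⟨d, -, rfl⟩ := Finset.mem_image.1 he
    refine ⟨fun j => pow_le_pow_right₀ hC1.le (hlow d j), fun j => ?_, ?_, ?_⟩
    · rw [← pow_mul, mul_comm]
      exact pow_le_pow_right₀ hC1.le (hup d j)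
    · rw [hprod, hCM]
      calc Real.exp (M * l) ≤ Real.exp (Real.log Y) := Real.exp_le_exp.2 hM1
        _ = Y := Real.exp_log hYpos
    · rw [hprod, div_le_iff₀ hCpos, ← pow_succ]
      have h1 : C ^ (M + 1) = Real.exp (((M : ℝ) + 1) * l) := by
        have h2 : ((M : ℝ) + 1) * l = ((M + 1 : ℕ) : ℝ) * Real.log C := by rw [hl]; push_cast; ring
        rw [h2, ← Real.log_pow, Real.exp_log (pow_pos hCpos _)]
      rw [h1]
      calc Y = Real.exp (Real.log Y) := (Real.exp_log hYpos).symm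
        _ ≤ _ := Real.exp_le_exp.2 hM2.le

end H71.KA
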