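import Pool.Agent.H71.KA.Stp
import Mathlib.Algebra.Squarefree.Basic
import Mathlib.LinearAlgebra.Basis.VectorSpace
import Mathlib.Algebra.Module.ZMod

/-!
# [H71 KA CHN] MP_b39724_nt, theorem K1: the part of `N` which is not generated by `C`

`G` a finite group, `N` an abelian normal subgroup of squarefree exponent, `A` a subgroup with `N ⊓ A = ⊥`, `G = N A`, `#N` and `#A` coprime, `T ≤ N` normal in `G`.
* `exists_min`: `T ≤ N' < N` normal in `G`: a minimal normal subgroup `V ≤ N` of `G` with `V ⊓ N' = ⊥`.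
* `chain`: `BASE` for `T A` gives `BASE` for `G`.
-/

set_option autoImplicit false

open scoped NumberField
open IsDedekindDomain H38.ML
open scoped Classical IsMulCommutative

noncomputable section

namespace H71.KA

open H63.MA H88.LH H77.PC3 H35.SN

variable {G : Type} [Group G]

theorem exists_prime_elt [Finite G] (N' : Subgroup G) {m : ℕ} (hm : Squarefree m) :
    ∀ (n : ℕ) (y : G), y ^ m = 1 → y ∉ N' → orderOf y = n →
      ∃ z ∈ Subgroup.zpowers y, z ∉ N' ∧ (orderOf z).Prime := by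
  intro n
  induction n using Nat.strong_induction_on with
  | _ n ih =>
    intro y hym hy hn
    have hn0 : 0 < n := by rw [← hn]; exact orderOf_pos y
    have hsq : Squarefree n := by
      rw [← hn]
      exact Squarefree.squarefree_of_dvd (orderOf_dvd_of_pow_eq_one hym) hm
    by_cases hp : n.Prime
    · exact ⟨y, Subgroup.mem_zpowers y, hy, by rwa [hn]⟩
    have hn1 : n ≠ 1 := by
      intro h
      rw [h, orderOf_eq_one_iff] at hn
      exact hy (hn ▸ N'.one_mem)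
    obtain ⟨k, hk⟩ := Nat.minFac_dvd n
    obtain ⟨l, hl⟩ : ∃ l, l = n.minFac := ⟨_, rfl⟩
    rw [← hl] at hk
    have hlp : l.Prime := by rw [hl]; exact Nat.minFac_prime hn1
    have hk1 : k ≠ 1 := by
      intro h
      rw [h, mul_one] at hk
      exact hp (hk ▸ hlp)
    have hk0 : 0 < k := Nat.pos_of_ne_zero fun h => by rw [h, mul_zero] at hk; omega
    have hco : Nat.Coprime l k := Nat.coprime_of_squarefree_mul (by rwa [← hk])
    have hl1 : 1 < l := hlp.one_lt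
    have h1 : orderOf (y ^ l) = k := by
      rw [orderOf_pow_of_dvd hlp.ne_zero (by rw [hn, hk]; exact dvd_mul_right _ _), hn, hk,
        Nat.mul_div_cancel_left _ hlp.pos]
    have h2 : orderOf (y ^ k) = l := by
      rw [orderOf_pow_of_dvd hk0.ne' (by rw [hn, hk]; exact dvd_mul_left _ _), hn, hk,
        Nat.mul_div_cancel _ hk0]
    have hkn : k < n := by rw [hk]; exact lt_mul_of_one_lt_left hk0 hl1
    have hln : l < n := by
      rw [hk]
      exact lt_mul_of_one_lt_right hlp.pos (by omega)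
    by_cases hA : y ^ l ∈ N'
    · by_cases hB : y ^ k ∈ N'
      · exfalso
        apply hy
        obtain ⟨a, b, hab⟩ := Nat.isCoprime_iff_coprime.2 hco
        have h3 : y = (y ^ l) ^ a * (y ^ k) ^ b := by
          rw [← zpow_natCast, ← zpow_natCast, ← zpow_mul, ← zpow_mul, ← zpow_add, mul_comm (l : ℤ),
            mul_comm (k : ℤ), hab, zpow_one]
        rw [h3]
        exact N'.mul_mem (N'.zpow_mem hA _) (N'.zpow_mem hB _)
      · obtain ⟨z, hz, h4⟩ := ih l hln (y ^ k) (by rw [← pow_mul, mul_comm, pow_mul, hym, one_pow]) hB h2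
        refine ⟨z, ?_, h4⟩
        exact (Subgroup.zpowers_le.2 (Subgroup.pow_mem _ (Subgroup.mem_zpowers y) k)) hz
    · obtain ⟨z, hz, h4⟩ := ih k hkn (y ^ l) (by rw [← pow_mul, mul_comm, pow_mul, hym, one_pow]) hA h1
      refine ⟨z, ?_, h4⟩
      exact (Subgroup.zpowers_le.2 (Subgroup.pow_mem _ (Subgroup.mem_zpowers y) l)) hz

theorem exists_retract_add {l : ℕ} [Fact l.Prime] {V : Type} [AddCommGroup V] [Module (ZMod l) V]
    (S : AddSubgroup V) : ∃ p : V →+ V, (∀ x, p x ∈ S) ∧ ∀ x ∈ S, p x = x := by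
  obtain ⟨W', hW'⟩ := (AddSubgroup.toZModSubmodule l S).exists_isCompl
  refine ⟨((Submodule.subtype (AddSubgroup.toZModSubmodule l S)).comp
    ((AddSubgroup.toZModSubmodule l S).projectionOnto W' hW')).toAddMonoidHom, fun x => ?_,
    fun x hx => ?_⟩
  · exact ((AddSubgroup.toZModSubmodule l S).projectionOnto W' hW' x).2
  · exact congrArg Subtype.val (Submodule.projectionOnto_apply_left hW'
      (⟨x, hx⟩ : ↥(AddSubgroup.toZModSubmodule l S)))

/-- a subgroup of an elementary abelian group is a retract -/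
theorem exists_retract {l : ℕ} (hl : l.Prime) {V : Type} [CommGroup V] (hV : ∀ x : V, x ^ l = 1)
    (W : Subgroup V) : ∃ p : V →* V, (∀ x, p x ∈ W) ∧ ∀ x ∈ W, p x = x := by
  have : Fact l.Prime := ⟨hl⟩
  letI : Module (ZMod l) (Additive V) := AddCommGroup.zmodModule (n := l) fun x => by
    have h1 := hV x.toMul
    exact congrArg Additive.ofMul h1
  obtain ⟨p, h1, h2⟩ := exists_retract_add (l := l) (V := Additive V) (Subgroup.toAddSubgroup W)
  exact ⟨AddMonoidHom.toMultiplicative p, fun x => h1 (Additive.ofMul x),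
    fun x hx => h2 (Additive.ofMul x) hx⟩

theorem exists_min [Finite G] (N N' A : Subgroup G) [N.Normal] [N'.Normal] (hle : N' ≤ N)
    (hne : N' ≠ N) (hcom : ∀ x ∈ N, ∀ y ∈ N, x * y = y * x) {m : ℕ} (hm : Squarefree m)
    (hNm : ∀ x ∈ N, x ^ m = 1) (hA : ∀ g : G, ∃ n ∈ N, ∃ a ∈ A, g = n * a)
    (hco : Nat.Coprime (Nat.card N) (Nat.card A)) :
    ∃ (l : ℕ) (V : Subgroup G), l.Prime ∧ V.Normal ∧ V ≤ N ∧ V ≠ ⊥ ∧ (∀ x ∈ V, x ^ l = 1) ∧
      V ⊓ N' = ⊥ ∧ ¬ l ∣ Nat.card A ∧ ∀ W : Subgroup G, W.Normal → W ≤ V → W = ⊥ ∨ W = V := by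
  -- an element of prime order
  obtain ⟨y, hy, hyN⟩ : ∃ y ∈ N, y ∉ N' := by
    by_contra h
    push Not at h
    exact hne (le_antisymm hle h)
  obtain ⟨z, hz, hzN, hp⟩ := exists_prime_elt N' hm _ y (hNm y hy) hyN rfl
  have hzN' : z ∈ N := (Subgroup.zpowers_le.2 hy) hz
  obtain ⟨l, hl⟩ : ∃ l, l = orderOf z := ⟨_, rfl⟩
  rw [← hl] at hp
  have hlN : l ∣ Nat.card N := by
    have h1 : orderOf (⟨z, hzN'⟩ : N) ∣ Nat.card N := orderOf_dvd_natCard _
    rwa [Subgroup.orderOf_mk, ← hl] at h1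
  have hlA : ¬ l ∣ Nat.card A := by
    intro h
    have h1 : l ∣ Nat.gcd (Nat.card N) (Nat.card A) := Nat.dvd_gcd hlN h
    rw [hco] at h1
    exact hp.one_lt.ne' (Nat.dvd_one.1 h1)
  -- the part killed by `l`
  obtain ⟨Nl, hNl⟩ : ∃ Nl : Subgroup G, ∀ x, x ∈ Nl ↔ x ∈ N ∧ x ^ l = 1 := by
    refine ⟨⟨⟨⟨{x | x ∈ N ∧ x ^ l = 1}, ?_⟩, ?_⟩, ?_⟩, fun x => Iff.rfl⟩
    · rintro a b ⟨ha, ha'⟩ ⟨hb, hb'⟩
      exact ⟨N.mul_mem ha hb, by
        rw [(show Commute a b from hcom a ha b hb).mul_pow, ha', hb', one_mul]⟩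
    · exact ⟨N.one_mem, one_pow l⟩
    · rintro a ⟨ha, ha'⟩
      exact ⟨N.inv_mem ha, by rw [inv_pow, ha', inv_one]⟩
  have hNln : Nl.Normal := ⟨fun x hx g => (hNl _).2 ⟨(inferInstance : N.Normal).conj_mem x ((hNl x).1 hx).1 g,
    by rw [conj_pow, ((hNl x).1 hx).2, mul_one, mul_inv_cancel]⟩⟩
  have hNlc : IsMulCommutative Nl := ⟨⟨fun a b => Subtype.ext
    (hcom a ((hNl a).1 a.2).1 b ((hNl b).1 b.2).1)⟩⟩
  obtain ⟨p, hp1, hp2⟩ := exists_retract hp (V := Nl)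
    (fun x => Subtype.ext (((hNl x).1 x.2).2)) (N'.subgroupOf Nl)
  obtain ⟨c, hc⟩ : ∃ c : G →* MulAut Nl, ∀ (a : G) (y : Nl), ((c a y : Nl) : G) = a * y * a⁻¹ :=
    ⟨MulAut.conjNormal, fun a y => MulAut.conjNormal_apply a y⟩
  have : Fintype A := Fintype.ofFinite _
  obtain ⟨P, hP⟩ : ∃ P : Nl →* Nl, ∀ x, P x = ∏ a : A, c a (p (c (a : G)⁻¹ x)) :=
    ⟨∏ a : A, ((c a).toMonoidHom.comp (p.comp (c (a : G)⁻¹).toMonoidHom)), fun x => by
      rw [MonoidHom.finsetProd_apply]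
      rfl⟩
  have hW : ∀ x, P x ∈ N'.subgroupOf Nl := by
    intro x
    rw [hP]
    refine Subgroup.prod_mem _ fun a _ => ?_
    rw [Subgroup.mem_subgroupOf, hc]
    exact (inferInstance : N'.Normal).conj_mem _ (Subgroup.mem_subgroupOf.1 (hp1 _)) _
  have hPW : ∀ x ∈ N'.subgroupOf Nl, P x = x ^ Nat.card A := by
    intro x hx
    rw [hP]
    have h1 : ∀ a : A, c a (p (c (a : G)⁻¹ x)) = x := by
      intro a
      have h2 : c (a : G)⁻¹ x ∈ N'.subgroupOf Nl := by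
        rw [Subgroup.mem_subgroupOf, hc]
        exact (inferInstance : N'.Normal).conj_mem _ (Subgroup.mem_subgroupOf.1 hx) _
      rw [hp2 _ h2, map_inv, MulAut.apply_inv_self]
    rw [Finset.prod_congr rfl fun a _ => h1 a, Finset.prod_const, Finset.card_univ,
      Nat.card_eq_fintype_card]
  have hPc : ∀ (g : G) (x : Nl), P (c g x) = c g (P x) := by
    have h1 : ∀ (b : A) (x : Nl), P (c b x) = c b (P x) := by
      intro b x
      rw [hP, hP, map_prod]
      rw [← Equiv.prod_comp (Equiv.mulLeft b)]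
      refine Finset.prod_congr rfl fun a _ => ?_
      show c ((b * a : A) : G) (p (c ((b * a : A) : G)⁻¹ (c b x))) = c b (c a (p (c (a : G)⁻¹ x)))
      rw [← MulAut.mul_apply, ← map_mul, ← MulAut.mul_apply, ← map_mul, Subgroup.coe_mul,
        mul_inv_rev, inv_mul_cancel_right]
    intro g x
    obtain ⟨n, hn, a, ha, rfl⟩ := hA g
    have h2 : ∀ w : Nl, c (n * a) w = c a w := by
      intro w
      apply Subtype.ext
      rw [hc, hc]
      have h3 : a * w * a⁻¹ ∈ N := (inferInstance : N.Normal).conj_mem _ ((hNl w).1 w.2).1 a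
      calc n * a * w * (n * a)⁻¹ = n * (a * w * a⁻¹) * n⁻¹ := by group
        _ = a * w * a⁻¹ := by rw [hcom n hn _ h3, mul_inv_cancel_right]
    rw [h2, h2]
    exact h1 ⟨a, ha⟩ x
  -- the kernel
  obtain ⟨Kr, hKr⟩ : ∃ Kr : Subgroup G, Kr = P.ker.map Nl.subtype := ⟨_, rfl⟩
  have hKm : ∀ x : Nl, (x : G) ∈ Kr ↔ P x = 1 := by
    intro x
    rw [hKr]
    constructor
    · rintro ⟨u, hu, hu2⟩
      have h1 : u = x := Subtype.ext hu2
      rwa [← h1]
    · intro h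
      exact ⟨x, h, rfl⟩
  have hKN : Kr ≤ Nl := by rw [hKr]; exact Subgroup.map_subtype_le _
  have hKn : Kr.Normal := by
    refine ⟨fun x hx g => ?_⟩
    have h1 := (hKm ⟨x, hKN hx⟩).1 hx
    have h2 : ((c g ⟨x, hKN hx⟩ : Nl) : G) ∈ Kr := by
      rw [hKm, hPc, h1, map_one]
    rwa [hc] at h2
  have hlx : ∀ x : Nl, x ^ l = 1 := fun x => Subtype.ext ((hNl x).1 x.2).2
  have hpow : ∀ x : Nl, x ^ Nat.card A = 1 → x = 1 := by
    intro x hx
    have h1 : orderOf x ∣ Nat.gcd l (Nat.card A) :=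
      Nat.dvd_gcd (orderOf_dvd_of_pow_eq_one (hlx x)) (orderOf_dvd_of_pow_eq_one hx)
    rw [(Nat.Prime.coprime_iff_not_dvd hp).2 hlA, Nat.dvd_one, orderOf_eq_one_iff] at h1
    exact h1
  have hKN' : Kr ⊓ N' = ⊥ := by
    rw [Subgroup.eq_bot_iff_forall]
    rintro x ⟨hx, hx2⟩
    have h1 := (hKm ⟨x, hKN hx⟩).1 hx
    rw [hPW ⟨x, hKN hx⟩ (Subgroup.mem_subgroupOf.2 hx2)] at h1
    exact congrArg Subtype.val (hpow _ h1)
  have hKne : Kr ≠ ⊥ := by
    intro h
    obtain ⟨w, hw⟩ : ∃ w : Nl, (w : G) = z := ⟨⟨z, (hNl z).2 ⟨hzN', by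
      rw [hl]; exact pow_orderOf_eq_one z⟩⟩, rfl⟩
    have h1 : P (w ^ Nat.card A * (P w)⁻¹) = 1 := by
      rw [map_mul, map_pow, map_inv, hPW _ (hW w), mul_inv_cancel]
    have h2 := (hKm _).2 h1
    rw [h, Subgroup.mem_bot] at h2
    have h3 : w ^ Nat.card A * (P w)⁻¹ = 1 := Subtype.ext h2
    rw [mul_inv_eq_one] at h3
    have h4 : w ^ Nat.card A ∈ N'.subgroupOf Nl := by
      rw [h3]
      exact hW w
    apply hzN
    obtain ⟨a, b, hab⟩ := Nat.isCoprime_iff_coprime.2 ((Nat.Prime.coprime_iff_not_dvd hp).2 hlA)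
    have h5 : w = (w ^ Nat.card A) ^ b := by
      conv_lhs => rw [← zpow_one w, ← hab, zpow_add, mul_comm a, zpow_mul, zpow_natCast, hlx,
        one_zpow, one_mul, mul_comm b, zpow_mul, zpow_natCast]
    have h6 : w ∈ N'.subgroupOf Nl := by
      rw [h5]
      exact Subgroup.zpow_mem _ h4 b
    rw [← hw]
    exact Subgroup.mem_subgroupOf.1 h6
  -- a minimal one
  obtain ⟨V, hV⟩ := Set.Finite.exists_minimal
    (s := {V : Subgroup G | V.Normal ∧ V ≠ ⊥ ∧ V ≤ Kr}) (Set.toFinite _) ⟨Kr, hKn, hKne, le_rfl⟩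
  obtain ⟨⟨hV1, hV2, hV3⟩, hV4⟩ := hV
  refine ⟨l, V, hp, hV1, fun x hx => ((hNl x).1 (hKN (hV3 hx))).1, hV2,
    fun x hx => ((hNl x).1 (hKN (hV3 hx))).2, ?_, hlA, fun W hWn hWV => ?_⟩
  · rw [← le_bot_iff, ← hKN']
    exact inf_le_inf_right _ hV3
  · by_cases hWb : W = ⊥
    · exact Or.inl hWb
    · exact Or.inr (le_antisymm hWV (hV4 ⟨hWn, hWb, hWV.trans hV3⟩ hWV))

/-- `BASE` for `T A` gives `BASE` for `G` -/
theorem chain [Finite G] (hst : STP) {r : ℕ} (C : Set G)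
    (hcc : ∀ x ∈ C, ∀ g : G, g * x * g⁻¹ ∈ C) (T N A : Subgroup G) [T.Normal] [N.Normal]
    (hTN : T ≤ N) (hcom : ∀ x ∈ N, ∀ y ∈ N, x * y = y * x) {m : ℕ} (hm : Squarefree m)
    (hNm : ∀ x ∈ N, x ^ m = 1) (hA : ∀ g : G, ∃ n ∈ N, ∃ a ∈ A, g = n * a) (hNA : N ⊓ A = ⊥)
    (hco : Nat.Coprime (Nat.card N) (Nat.card A)) (h : BASE (CH C (T ⊔ A)) r) : BASE C r := by
  obtain ⟨N', hN'⟩ := Set.Finite.exists_maximal
    (s := {N' : Subgroup G | N'.Normal ∧ N' ≤ N ∧ BASE (CH C (N' ⊔ A)) r}) (Set.toFinite _)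
    ⟨T, inferInstance, hTN, h⟩
  obtain ⟨⟨h1, h2, h3⟩, h4⟩ := hN'
  have h5 : N' = N := by
    by_contra hne
    obtain ⟨l, V, hl, hVn, hVN, hVne, hVl, hVN', hlA, hirr⟩ :=
      exists_min N N' A h2 hne hcom hm hNm hA hco
    have hcon : ∀ n ∈ N, ∀ x ∈ V, n * x * n⁻¹ = x := fun n hn x hx => by
      rw [hcom n hn x (hVN hx), mul_inv_cancel_right]
    have h6 : BASE (CH C (N' ⊔ A ⊔ V)) r := by
      refine step_sup hst hl C hcc (N' ⊔ A) V A hVne (fun x hx y hy => hcom x (hVN hx) y (hVN hy))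
        hVl ?_ ?_ le_sup_right ?_ hlA h3
      · rw [Subgroup.eq_bot_iff_forall]
        rintro x ⟨hx, hx2⟩
        obtain ⟨n, hn, a, ha, e⟩ := Subgroup.mem_sup_of_normal_left.1 hx2
        have h7 : a ∈ N ⊓ A := by
          refine ⟨?_, ha⟩
          have h8 : a = n⁻¹ * x := by rw [← e, inv_mul_cancel_left]
          rw [h8]
          exact N.mul_mem (N.inv_mem (h2 hn)) (hVN hx)
        rw [hNA, Subgroup.mem_bot] at h7
        rw [h7, mul_one] at e
        have h8 : x ∈ V ⊓ N' := ⟨hx, by rw [← e]; exact hn⟩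
        rwa [hVN', Subgroup.mem_bot] at h8
      · intro W hW hWc
        refine hirr W ⟨fun w hw g => ?_⟩ hW
        obtain ⟨n, hn, a, ha, rfl⟩ := hA g
        have h7 := hWc a (Subgroup.mem_sup_right ha) w hw
        have h8 : n * a * w * (n * a)⁻¹ = n * (a * w * a⁻¹) * n⁻¹ := by group
        rw [h8, hcon n hn _ (hW h7)]
        exact h7
      · intro g
        obtain ⟨n, hn, a, ha, rfl⟩ := hA g
        refine ⟨a, ha, fun x hx => ?_⟩
        have h8 : n * a * x * (n * a)⁻¹ = n * (a * x * a⁻¹) * n⁻¹ := by group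
        rw [h8, hcon n hn _ (hVn.conj_mem x hx a)]
    have h7 : N' ⊔ V ≤ N' := by
      refine h4 ⟨inferInstance, sup_le h2 hVN, ?_⟩ le_sup_left
      rwa [sup_right_comm] at h6
    have h8 : V ≤ V ⊓ N' := le_inf le_rfl (le_sup_right.trans h7)
    rw [hVN'] at h8
    exact hVne (le_bot_iff.1 h8)
  subst h5
  have h6 : N' ⊔ A = ⊤ := by
    rw [eq_top_iff]
    intro g _
    obtain ⟨n, hn, a, ha, rfl⟩ := hA g
    exact Subgroup.mul_mem _ (Subgroup.mem_sup_left hn) (Subgroup.mem_sup_right ha)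
  rw [h6] at h3
  refine base_lfs one_pos (lfs_iso (Subgroup.topEquiv (G := G)).symm)
    (Subgroup.topEquiv (G := G)).symm.surjective C (CH C ⊤) (fun y hy => hy) hcc h3

end H71.KA
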