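import Pool.Agent.H71.KA.St3
import Pool.Agent.H71.KA.Chn

/-!
# [H71 KA CH3] MP_b39724_nt, theorem K2+: the part of `N` which is not generated by `C`, the hypothesis is on the acting group

`exists_min3`, `chain3`: as `exists_min`, `chain`, with the hypothesis: the order of the group of automorphisms of `N` induced by `G` is prime to the order of `N`.
-/

set_option autoImplicit false

open scoped NumberField
open IsDedekindDomain H38.ML
open scoped Classical IsMulCommutative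

noncomputable section

namespace H71.KA

open H63.MA H88.LH H77.PC3 H35.SN

variable {G : Type} [Group G]

theorem exists_min3 [Finite G] (N N' : Subgroup G) [N.Normal] [N'.Normal] (hle : N' ≤ N)
    (hne : N' ≠ N) (hcom : ∀ x ∈ N, ∀ y ∈ N, x * y = y * x) {m : ℕ} (hm : Squarefree m)
    (hNm : ∀ x ∈ N, x ^ m = 1)
    (hact : Nat.Coprime (Nat.card N) (Nat.card (MulAut.conjNormal : G →* MulAut N).range)) :
    ∃ (l : ℕ) (V : Subgroup G), l.Prime ∧ V.Normal ∧ V ≤ N ∧ V ≠ ⊥ ∧ (∀ x ∈ V, x ^ l = 1) ∧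
      V ⊓ N' = ⊥ ∧ Nat.Coprime l (Nat.card (MulAut.conjNormal : G →* MulAut N).range) ∧ ∀ W : Subgroup G, W.Normal → W ≤ V → W = ⊥ ∨ W = V := by
  -- an element of prime order
  obtain ⟨y, hy, hyN⟩ : ∃ y ∈ N, y ∉ N' := by
    by_contra h
    push Not at h
    exact hne (le_antisymm hle h)
  obtain ⟨z, hz, hzN, hp⟩ := exists_prime_elt N' hm _ y (hNm y hy) hyN rfl
  have hzN' : z ∈ N := (Subgroup.zpowers_le.2 hy) hz
  obtain ⟨l, hl⟩ : ∃ l, l = orderOf z := ⟨_, rfl⟩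
  rw [← hl] at hp
  have hlN : l ∣ Nat.card N := by
    have h1 : orderOf (⟨z, hzN'⟩ : N) ∣ Nat.card N := orderOf_dvd_natCard _
    rwa [Subgroup.orderOf_mk, ← hl] at h1
  have hlA : Nat.Coprime l (Nat.card (MulAut.conjNormal : G →* MulAut N).range) :=
    Nat.Coprime.coprime_dvd_left hlN hact
  -- the part killed by `l`
  obtain ⟨Nl, hNl⟩ : ∃ Nl : Subgroup G, ∀ x, x ∈ Nl ↔ x ∈ N ∧ x ^ l = 1 := by
    refine ⟨⟨⟨⟨{x | x ∈ N ∧ x ^ l = 1}, ?_⟩, ?_⟩, ?_⟩, fun x => Iff.rfl⟩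
    · rintro a b ⟨ha, ha'⟩ ⟨hb, hb'⟩
      exact ⟨N.mul_mem ha hb, by
        rw [(show Commute a b from hcom a ha b hb).mul_pow, ha', hb', one_mul]⟩
    · exact ⟨N.one_mem, one_pow l⟩
    · rintro a ⟨ha, ha'⟩
      exact ⟨N.inv_mem ha, by rw [inv_pow, ha', inv_one]⟩
  have hNln : Nl.Normal := ⟨fun x hx g => (hNl _).2 ⟨(inferInstance : N.Normal).conj_mem x ((hNl x).1 hx).1 g,
    by rw [conj_pow, ((hNl x).1 hx).2, mul_one, mul_inv_cancel]⟩⟩
  have hNlc : IsMulCommutative Nl := ⟨⟨fun a b => Subtype.ext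
    (hcom a ((hNl a).1 a.2).1 b ((hNl b).1 b.2).1)⟩⟩
  obtain ⟨p, hp1, hp2⟩ := exists_retract hp (V := Nl)
    (fun x => Subtype.ext (((hNl x).1 x.2).2)) (N'.subgroupOf Nl)
  obtain ⟨c, hcd⟩ : ∃ c : G →* MulAut Nl, c = MulAut.conjNormal := ⟨_, rfl⟩
  have hc : ∀ (a : G) (y : Nl), ((c a y : Nl) : G) = a * y * a⁻¹ := fun a y => by
    rw [hcd]
    exact MulAut.conjNormal_apply a y
  obtain ⟨R, hR⟩ : ∃ R, R = Nat.card c.range := ⟨_, rfl⟩
  have hlR : Nat.Coprime l R := by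
    refine Nat.Coprime.coprime_dvd_right ?_ hlA
    rw [hR, hcd]
    exact act_dvd (MonoidHom.id G) Function.injective_id Nl N fun x hx => ((hNl x).1 hx).1
  have : Fintype c.range := Fintype.ofFinite _
  obtain ⟨P, hP⟩ : ∃ P : Nl →* Nl, ∀ x, P x = ∏ a : c.range, (a : MulAut Nl) (p ((a : MulAut Nl)⁻¹ x)) :=
    ⟨∏ a : c.range, ((a : MulAut Nl).toMonoidHom.comp (p.comp ((a : MulAut Nl)⁻¹).toMonoidHom)), fun x => by
      rw [MonoidHom.finsetProd_apply]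
      rfl⟩
  have hcW : ∀ a : c.range, ∀ x ∈ N'.subgroupOf Nl, (a : MulAut Nl) x ∈ N'.subgroupOf Nl := by
    rintro ⟨_, ⟨g, rfl⟩⟩ x hx
    rw [Subgroup.mem_subgroupOf] at hx ⊢
    rw [hc]
    exact (inferInstance : N'.Normal).conj_mem _ hx _
  have hW : ∀ x, P x ∈ N'.subgroupOf Nl := by
    intro x
    rw [hP]
    exact Subgroup.prod_mem _ fun a _ => hcW a _ (hp1 _)
  have hPW : ∀ x ∈ N'.subgroupOf Nl, P x = x ^ R := by
    intro x hx
    rw [hP]
    have h1 : ∀ a : c.range, (a : MulAut Nl) (p ((a : MulAut Nl)⁻¹ x)) = x := by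
      intro a
      have h2 : (a : MulAut Nl)⁻¹ x ∈ N'.subgroupOf Nl := hcW a⁻¹ x hx
      rw [hp2 _ h2, MulAut.apply_inv_self]
    rw [Finset.prod_congr rfl fun a _ => h1 a, Finset.prod_const, Finset.card_univ,
      ← Nat.card_eq_fintype_card, ← hR]
  have hPc : ∀ (g : G) (x : Nl), P (c g x) = c g (P x) := by
    intro g x
    rw [hP, hP, map_prod]
    rw [← Equiv.prod_comp (Equiv.mulLeft (⟨c g, ⟨g, rfl⟩⟩ : c.range))]
    refine Finset.prod_congr rfl fun a _ => ?_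
    show (c g * (a : MulAut Nl)) (p ((c g * (a : MulAut Nl))⁻¹ (c g x))) = c g ((a : MulAut Nl) (p ((a : MulAut Nl)⁻¹ x)))
    rw [MulAut.mul_apply, mul_inv_rev, MulAut.mul_apply, MulAut.inv_apply_self]
  -- the kernel
  obtain ⟨Kr, hKr⟩ : ∃ Kr : Subgroup G, Kr = P.ker.map Nl.subtype := ⟨_, rfl⟩
  have hKm : ∀ x : Nl, (x : G) ∈ Kr ↔ P x = 1 := by
    intro x
    rw [hKr]
    constructor
    · rintro ⟨u, hu, hu2⟩
      have h1 : u = x := Subtype.ext hu2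
      rwa [← h1]
    · intro h
      exact ⟨x, h, rfl⟩
  have hKN : Kr ≤ Nl := by rw [hKr]; exact Subgroup.map_subtype_le _
  have hKn : Kr.Normal := by
    refine ⟨fun x hx g => ?_⟩
    have h1 := (hKm ⟨x, hKN hx⟩).1 hx
    have h2 : ((c g ⟨x, hKN hx⟩ : Nl) : G) ∈ Kr := by
      rw [hKm, hPc, h1, map_one]
    rwa [hc] at h2
  have hlx : ∀ x : Nl, x ^ l = 1 := fun x => Subtype.ext ((hNl x).1 x.2).2
  have hpow : ∀ x : Nl, x ^ R = 1 → x = 1 := by
    intro x hx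
    have h1 : orderOf x ∣ Nat.gcd l R :=
      Nat.dvd_gcd (orderOf_dvd_of_pow_eq_one (hlx x)) (orderOf_dvd_of_pow_eq_one hx)
    rw [hlR, Nat.dvd_one, orderOf_eq_one_iff] at h1
    exact h1
  have hKN' : Kr ⊓ N' = ⊥ := by
    rw [Subgroup.eq_bot_iff_forall]
    rintro x ⟨hx, hx2⟩
    have h1 := (hKm ⟨x, hKN hx⟩).1 hx
    rw [hPW ⟨x, hKN hx⟩ (Subgroup.mem_subgroupOf.2 hx2)] at h1
    exact congrArg Subtype.val (hpow _ h1)
  have hKne : Kr ≠ ⊥ := by
    intro h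
    obtain ⟨w, hw⟩ : ∃ w : Nl, (w : G) = z := ⟨⟨z, (hNl z).2 ⟨hzN', by
      rw [hl]; exact pow_orderOf_eq_one z⟩⟩, rfl⟩
    have h1 : P (w ^ R * (P w)⁻¹) = 1 := by
      rw [map_mul, map_pow, map_inv, hPW _ (hW w), mul_inv_cancel]
    have h2 := (hKm _).2 h1
    rw [h, Subgroup.mem_bot] at h2
    have h3 : w ^ R * (P w)⁻¹ = 1 := Subtype.ext h2
    rw [mul_inv_eq_one] at h3
    have h4 : w ^ R ∈ N'.subgroupOf Nl := by
      rw [h3]
      exact hW w
    apply hzN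
    obtain ⟨a, b, hab⟩ := Nat.isCoprime_iff_coprime.2 hlR
    have h5 : w = (w ^ R) ^ b := by
      conv_lhs => rw [← zpow_one w, ← hab, zpow_add, mul_comm a, zpow_mul, zpow_natCast, hlx,
        one_zpow, one_mul, mul_comm b, zpow_mul, zpow_natCast]
    have h6 : w ∈ N'.subgroupOf Nl := by
      rw [h5]
      exact Subgroup.zpow_mem _ h4 b
    rw [← hw]
    exact Subgroup.mem_subgroupOf.1 h6
  -- a minimal one
  obtain ⟨V, hV⟩ := Set.Finite.exists_minimal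
    (s := {V : Subgroup G | V.Normal ∧ V ≠ ⊥ ∧ V ≤ Kr}) (Set.toFinite _) ⟨Kr, hKn, hKne, le_rfl⟩
  obtain ⟨⟨hV1, hV2, hV3⟩, hV4⟩ := hV
  refine ⟨l, V, hp, hV1, fun x hx => ((hNl x).1 (hKN (hV3 hx))).1, hV2,
    fun x hx => ((hNl x).1 (hKN (hV3 hx))).2, ?_, hlA, fun W hWn hWV => ?_⟩
  · rw [← le_bot_iff, ← hKN']
    exact inf_le_inf_right _ hV3
  · by_cases hWb : W = ⊥
    · exact Or.inl hWb
    · exact Or.inr (le_antisymm hWV (hV4 ⟨hWn, hWb, hWV.trans hV3⟩ hWV))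

/-- `BASE` for `T A` gives `BASE` for `G` -/
theorem chain3 [Finite G] (hst : STP) {r : ℕ} (C : Set G)
    (hcc : ∀ x ∈ C, ∀ g : G, g * x * g⁻¹ ∈ C) (T N A : Subgroup G) [T.Normal] [N.Normal]
    (hTN : T ≤ N) (hcom : ∀ x ∈ N, ∀ y ∈ N, x * y = y * x) {m : ℕ} (hm : Squarefree m)
    (hNm : ∀ x ∈ N, x ^ m = 1) (hA : ∀ g : G, ∃ n ∈ N, ∃ a ∈ A, g = n * a) (hNA : N ⊓ A = ⊥)
    (hact : Nat.Coprime (Nat.card N) (Nat.card (MulAut.conjNormal : G →* MulAut N).range))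
    (h : BASE (CH C (T ⊔ A)) r) : BASE C r := by
  obtain ⟨N', hN'⟩ := Set.Finite.exists_maximal
    (s := {N' : Subgroup G | N'.Normal ∧ N' ≤ N ∧ BASE (CH C (N' ⊔ A)) r}) (Set.toFinite _)
    ⟨T, inferInstance, hTN, h⟩
  obtain ⟨⟨h1, h2, h3⟩, h4⟩ := hN'
  have h5 : N' = N := by
    by_contra hne
    obtain ⟨l, V, hl, hVn, hVN, hVne, hVl, hVN', hlA, hirr⟩ :=
      exists_min3 N N' h2 hne hcom hm hNm hact
    have hcon : ∀ n ∈ N, ∀ x ∈ V, n * x * n⁻¹ = x := fun n hn x hx => by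
      rw [hcom n hn x (hVN hx), mul_inv_cancel_right]
    have h6 : BASE (CH C (N' ⊔ A ⊔ V)) r := by
      refine step_sup3 hst hl C hcc (N' ⊔ A) V hVne (fun x hx y hy => hcom x (hVN hx) y (hVN hy))
        hVl ?_ ?_ ?_ h3
      · rw [Subgroup.eq_bot_iff_forall]
        rintro x ⟨hx, hx2⟩
        obtain ⟨n, hn, a, ha, e⟩ := Subgroup.mem_sup_of_normal_left.1 hx2
        have h7 : a ∈ N ⊓ A := by
          refine ⟨?_, ha⟩
          have h8 : a = n⁻¹ * x := by rw [← e, inv_mul_cancel_left]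
          rw [h8]
          exact N.mul_mem (N.inv_mem (h2 hn)) (hVN hx)
        rw [hNA, Subgroup.mem_bot] at h7
        rw [h7, mul_one] at e
        have h8 : x ∈ V ⊓ N' := ⟨hx, by rw [← e]; exact hn⟩
        rwa [hVN', Subgroup.mem_bot] at h8
      · intro W hW hWc
        refine hirr W ⟨fun w hw g => ?_⟩ hW
        obtain ⟨n, hn, a, ha, rfl⟩ := hA g
        have h7 := hWc a (Subgroup.mem_sup_right ha) w hw
        have h8 : n * a * w * (n * a)⁻¹ = n * (a * w * a⁻¹) * n⁻¹ := by group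
        rw [h8, hcon n hn _ (hW h7)]
        exact h7
      · rw [← Nat.Prime.coprime_iff_not_dvd hl]
        exact Nat.Coprime.coprime_dvd_right
          (act_dvd (MonoidHom.id G) Function.injective_id V N fun x hx => hVN hx) hlA
    have h7 : N' ⊔ V ≤ N' := by
      refine h4 ⟨inferInstance, sup_le h2 hVN, ?_⟩ le_sup_left
      rwa [sup_right_comm] at h6
    have h8 : V ≤ V ⊓ N' := le_inf le_rfl (le_sup_right.trans h7)
    rw [hVN'] at h8
    exact hVne (le_bot_iff.1 h8)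
  subst h5
  have h6 : N' ⊔ A = ⊤ := by
    rw [eq_top_iff]
    intro g _
    obtain ⟨n, hn, a, ha, rfl⟩ := hA g
    exact Subgroup.mul_mem _ (Subgroup.mem_sup_left hn) (Subgroup.mem_sup_right ha)
  rw [h6] at h3
  refine base_lfs one_pos (lfs_iso (Subgroup.topEquiv (G := G)).symm)
    (Subgroup.topEquiv (G := G)).symm.surjective C (CH C ⊤) (fun y hy => hy) hcc h3

end H71.KA
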