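import Pool.Agent.H71.KA.Fn3
import Pool.Agent.H12.CF.Chn
import Pool.Agent.H12.CF.Fin

/-!
# [H71 KA FN4] MP_b39724_nt, theorem K2U: a tower of units below a group as in theorem K2+

`TwL C U`: a tower of `U` (H12/CF/Def.lean). `twl_one`: `C` does not meet `U` outside `1`; `twl_conj`: two elements of `C` which agree modulo `U`
are conjugate. `base_of4`: `BASE0 C r` if `G ⧸ U`, `Im C U` are as in `base_of3`. `k2u_low`: THE LOWER BOUND. `k2u_low_hall`: the case of a Hall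
subgroup `N` of `G ⧸ U`.
-/

set_option autoImplicit false

open scoped NumberField commutatorElement
open IsDedekindDomain H38.ML
open scoped Classical

noncomputable section

namespace H71.KA

open H63.MA H38.BB H38.BG H77.PC3 H88.LH H35.SN H77.GN H77.AB H12.CF

theorem twl_one {G : Type} [Group G] {L : Set G} {U : Subgroup G} (hT : TwL L U) {x : G} (hx : x ∈ L)
    (hxU : x ∈ U) : x = 1 := by
  obtain ⟨k, F, h0, hk, hF⟩ := hT
  have key : ∀ i ≤ k, x ∈ F i := by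
    intro i
    induction i with
    | zero => intro _; rw [h0]; exact hxU
    | succ i ih =>
      intro hi
      obtain ⟨-, hn, hn', -, C, -, hC', -, hL⟩ := hF i (by omega)
      obtain ⟨a, ha⟩ := hL x hx
      have h1 : a * x * a⁻¹ ∈ C ⊓ F i := ⟨ha, hn.conj_mem x (ih (by omega)) a⟩
      rw [hC'] at h1
      have h2 := hn'.conj_mem _ h1 a⁻¹
      have h3 : a⁻¹ * (a * x * a⁻¹) * a⁻¹⁻¹ = x := by group
      rwa [h3] at h2
  have h1 := key k le_rfl
  rwa [hk, Subgroup.mem_bot] at h1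

theorem twl_conj {G : Type} [Group G] {L : Set G} {U : Subgroup G} (hT : TwL L U) {x y : G} (hx : x ∈ L)
    (hy : y ∈ L) (hxy : x⁻¹ * y ∈ U) : IsConj x y := by
  obtain ⟨k, F, h0, hk, hF⟩ := hT
  have key : ∀ i ≤ k, ∃ g : G, x⁻¹ * (g * y * g⁻¹) ∈ F i := by
    intro i
    induction i with
    | zero =>
      intro _
      refine ⟨1, ?_⟩
      rw [h0, one_mul, inv_one, mul_one]
      exact hxy
    | succ i ih =>
      intro hi
      obtain ⟨g, hg⟩ := ih (by omega)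
      obtain ⟨-, hn, hn', -, C, hC, hC', -, hL⟩ := hF i (by omega)
      obtain ⟨a, ha⟩ := hL x hx
      obtain ⟨b, hb⟩ := hL y hy
      have h1 : a * g * b⁻¹ ∈ C ⊔ F i := by rw [hC]; exact Subgroup.mem_top _
      obtain ⟨c, hc, f, hf, e⟩ := Subgroup.mem_sup_of_normal_right.1 h1
      -- the element of the complement
      have h2 : (a * x * a⁻¹)⁻¹ * (c * (b * y * b⁻¹) * c⁻¹) ∈ C ⊓ F i := by
        refine ⟨C.mul_mem (C.inv_mem ha) (C.mul_mem (C.mul_mem hc hb) (C.inv_mem hc)), ?_⟩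
        have h3 : a * (x⁻¹ * (g * y * g⁻¹)) * a⁻¹ ∈ F i := hn.conj_mem _ hg a
        have h4 : (b * y * b⁻¹) * f⁻¹ * (b * y * b⁻¹)⁻¹ ∈ F i := hn.conj_mem _ ((F i).inv_mem hf) _
        have h5 : f * ((b * y * b⁻¹) * f⁻¹ * (b * y * b⁻¹)⁻¹) ∈ F i := (F i).mul_mem hf h4
        have h6 : c * (f * ((b * y * b⁻¹) * f⁻¹ * (b * y * b⁻¹)⁻¹)) * c⁻¹ ∈ F i := hn.conj_mem _ h5 c
        have h7 := hn.conj_mem _ ((F i).inv_mem h6) (c * (b * y * b⁻¹) * c⁻¹)⁻¹
        have h8 : a * (x⁻¹ * (g * y * g⁻¹)) * a⁻¹ =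
            (a * x * a⁻¹)⁻¹ * (c * f * (b * y * b⁻¹) * (c * f)⁻¹) := by
          rw [e]
          group
        rw [h8] at h3
        have h9 := (F i).mul_mem h3 h7
        have h10 : (a * x * a⁻¹)⁻¹ * (c * f * (b * y * b⁻¹) * (c * f)⁻¹) *
            ((c * (b * y * b⁻¹) * c⁻¹)⁻¹ * (c * (f * ((b * y * b⁻¹) * f⁻¹ * (b * y * b⁻¹)⁻¹)) * c⁻¹)⁻¹ *
              (c * (b * y * b⁻¹) * c⁻¹)⁻¹⁻¹) =
            (a * x * a⁻¹)⁻¹ * (c * (b * y * b⁻¹) * c⁻¹) := by group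
        rwa [h10] at h9
      rw [hC'] at h2
      refine ⟨a⁻¹ * c * b, ?_⟩
      have h3 := hn'.conj_mem _ h2 a⁻¹
      have h4 : a⁻¹ * ((a * x * a⁻¹)⁻¹ * (c * (b * y * b⁻¹) * c⁻¹)) * a⁻¹⁻¹ =
          x⁻¹ * (a⁻¹ * c * b * y * (a⁻¹ * c * b)⁻¹) := by group
      rwa [h4] at h3
  obtain ⟨g, hg⟩ := key k le_rfl
  rw [hk, Subgroup.mem_bot, inv_mul_eq_one] at hg
  exact isConj_iff.2 ⟨g⁻¹, by rw [hg]; group⟩

theorem base_of4 (hst : STP) (hk : K2P) {G : Type} [Group G] [Finite G] (C : Set G)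
    (hp : ∀ x ∈ C, (orderOf x).Prime) (hcc : ∀ x ∈ C, ∀ g : G, g * x * g⁻¹ ∈ C)
    (U : Subgroup G) [U.Normal] (hT : TwL C U)
    (N A : Subgroup (G ⧸ U)) [N.Normal] (hA : Subgroup.IsComplement' N A)
    (hcom : ∀ x ∈ N, ∀ y ∈ N, x * y = y * x) {m : ℕ} (hm : Squarefree m) (hNm : ∀ x ∈ N, x ^ m = 1)
    (hab : ∀ x ∈ C, ∀ y ∈ C, (QuotientGroup.mk ⁅x, y⁆ : G ⧸ U) ∈ N)
    (hact : Nat.Coprime (Nat.card N) (Nat.card (MulAut.conjNormal : G ⧸ U →* MulAut N).range))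
    (htyp : ∀ x ∈ C, (QuotientGroup.mk x : G ⧸ U) ∈ N ∨ Nat.Coprime (orderOf x) (Nat.card N))
    (r : ℕ) (hr : 1 ≤ r) (g : Fin r → G) (uni : ∀ i j, IsConj (g i) (g j) → i = j) (hI : ∀ x, x ∈ C ↔ ∃ i, IsConj x (g i)) :
    BASE0 C r := by
  have hord : ∀ x ∈ C, orderOf (QuotientGroup.mk x : G ⧸ U) = orderOf x := by
    intro x hx
    have h1 : orderOf (QuotientGroup.mk x : G ⧸ U) ∣ orderOf x := orderOf_map_dvd (QuotientGroup.mk' U) x
    rcases (Nat.dvd_prime (hp x hx)).1 h1 with h2 | h2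
    · exfalso
      rw [orderOf_eq_one_iff, QuotientGroup.eq_one_iff] at h2
      have h3 := twl_one hT hx h2
      have h4 := hp x hx
      rw [h3, orderOf_one] at h4
      exact Nat.not_prime_one h4
    · exact h2
  refine chain0 hcc U hT (base_base0 (base_of3 hst hk (Im C U) ?_ ?_ N A hA hcom hm hNm ?_ hact ?_ r hr
    (fun i => (QuotientGroup.mk (g i) : G ⧸ U)) ?_ ?_))
  · rintro _ ⟨x, hx, rfl⟩
    rw [hord x hx]
    exact hp x hx
  · rintro _ ⟨x, hx, rfl⟩ q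
    obtain ⟨y, rfl⟩ := QuotientGroup.mk_surjective q
    exact ⟨y * x * y⁻¹, hcc x hx y, rfl⟩
  · rintro _ ⟨x, hx, rfl⟩ _ ⟨y, hy, rfl⟩
    exact hab x hx y hy
  · rintro _ ⟨x, hx, rfl⟩
    rw [hord x hx]
    exact htyp x hx
  · intro i j hij
    apply uni
    have h1 : g i ∈ C := (hI _).2 ⟨i, IsConj.refl _⟩
    have h2 : g j ∈ C := (hI _).2 ⟨j, IsConj.refl _⟩
    obtain ⟨q, hq⟩ := isConj_iff.1 hij
    obtain ⟨y, rfl⟩ := QuotientGroup.mk_surjective q
    rw [← QuotientGroup.mk_inv, ← QuotientGroup.mk_mul, ← QuotientGroup.mk_mul, QuotientGroup.eq] at hq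
    have h3 := twl_conj hT (hcc _ h1 y) h2 hq
    exact (isConj_iff.2 ⟨y, rfl⟩ : IsConj (g i) (y * g i * y⁻¹)).trans h3
  · intro q
    constructor
    · rintro ⟨x, hx, rfl⟩
      obtain ⟨i, hi⟩ := (hI x).1 hx
      refine ⟨i, ?_⟩
      obtain ⟨c, hc⟩ := isConj_iff.1 hi
      exact isConj_iff.2 ⟨(QuotientGroup.mk c : G ⧸ U), congrArg (QuotientGroup.mk (s := U)) hc⟩
    · rintro ⟨i, hi⟩
      obtain ⟨q', hq'⟩ := isConj_iff.1 hi.symm
      obtain ⟨c, rfl⟩ := QuotientGroup.mk_surjective q'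
      exact ⟨c * g i * c⁻¹, hcc _ ((hI _).2 ⟨i, IsConj.refl _⟩) c, hq'⟩

/-- THEOREM K2U -/
theorem k2u_low (hst : STP) (hk : K2P) (n : ℕ) (hn : 2 ≤ n) (G : Subgroup (Equiv.Perm (Fin n)))
    (hG : MulAction.IsPretransitive G (Fin n)) (U : Subgroup G) [U.Normal] (hT : TwL (H88.LB.Lst G) U)
    (N A : Subgroup (G ⧸ U)) [N.Normal] (hA : Subgroup.IsComplement' N A)
    (hcom : ∀ x ∈ N, ∀ y ∈ N, x * y = y * x) {m : ℕ} (hm : Squarefree m) (hNm : ∀ x ∈ N, x ^ m = 1)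
    (hab : ⁅Subgroup.closure (H88.LB.Lst G), Subgroup.closure (H88.LB.Lst G)⁆.map (QuotientGroup.mk' U) ≤ N)
    (hact : Nat.Coprime (Nat.card N) (Nat.card (MulAut.conjNormal : G ⧸ U →* MulAut N).range))
    (htyp : ∀ x ∈ H88.LB.Lst G, (QuotientGroup.mk x : G ⧸ U) ∈ N ∨ Nat.Coprime (orderOf x) (Nat.card N)) :
    H88.LB.Low G := by
  refine low_of_base0 n hn G hG fun r hr g uni hI => ?_
  refine base_of4 hst hk _ (fun x hx => H38.ML.prime_of_least G x hx.1 hx.2) (fun x hx g => ?_) U hT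
    N A hA hcom hm hNm (fun x hx y hy => ?_) hact htyp r hr g uni hI
  · obtain ⟨ha, -, hmin, hcj, hJ⟩ := pidx_pos hn G hG
    refine ⟨fun h => hx.1 ?_, hcj x g hx.1 hx.2⟩
    have h1 : x = g⁻¹ * (g * x * g⁻¹) * g := by group
    rw [h1, h]
    group
  · exact hab (Subgroup.mem_map_of_mem _
      (Subgroup.commutator_mem_commutator (Subgroup.subset_closure hx) (Subgroup.subset_closure hy)))

/-- the case of a Hall subgroup of `G ⧸ U` -/
theorem k2u_low_hall (hst : STP) (hk : K2P) (n : ℕ) (hn : 2 ≤ n) (G : Subgroup (Equiv.Perm (Fin n)))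
    (hG : MulAction.IsPretransitive G (Fin n)) (U : Subgroup G) [U.Normal] (hT : TwL (H88.LB.Lst G) U)
    (N : Subgroup (G ⧸ U)) [N.Normal]
    (hcom : ∀ x ∈ N, ∀ y ∈ N, x * y = y * x) {m : ℕ} (hm : Squarefree m) (hNm : ∀ x ∈ N, x ^ m = 1)
    (hab : ⁅Subgroup.closure (H88.LB.Lst G), Subgroup.closure (H88.LB.Lst G)⁆.map (QuotientGroup.mk' U) ≤ N)
    (hco : Nat.Coprime (Nat.card N) N.index) : H88.LB.Low G := by
  obtain ⟨A, hA⟩ := Subgroup.exists_right_complement'_of_coprime hco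
  have hord : ∀ x ∈ H88.LB.Lst G, orderOf (QuotientGroup.mk x : G ⧸ U) = orderOf x := by
    intro x hx
    have hp := H38.ML.prime_of_least G x hx.1 hx.2
    have h1 : orderOf (QuotientGroup.mk x : G ⧸ U) ∣ orderOf x := orderOf_map_dvd (QuotientGroup.mk' U) x
    rcases (Nat.dvd_prime hp).1 h1 with h2 | h2
    · exfalso
      rw [orderOf_eq_one_iff, QuotientGroup.eq_one_iff] at h2
      have h3 := twl_one hT hx h2
      rw [h3, orderOf_one] at hp
      exact Nat.not_prime_one hp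
    · exact h2
  refine k2u_low hst hk n hn G hG U hT N A hA hcom hm hNm hab ?_ fun x hx => ?_
  · have h1 : N ≤ (MulAut.conjNormal : G ⧸ U →* MulAut N).ker := by
      intro x hx
      rw [MonoidHom.mem_ker]
      refine MulEquiv.ext fun y => ?_
      apply Subtype.ext
      rw [MulAut.conjNormal_apply, hcom x hx y y.2, mul_inv_cancel_right]
      rfl
    rw [← Subgroup.index_ker]
    exact Nat.Coprime.coprime_dvd_right (Subgroup.index_dvd_of_le h1) hco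
  · have h1 := typ (x := (QuotientGroup.mk x : G ⧸ U)) N hco (by
      rw [hord x hx]
      exact H38.ML.prime_of_least G x hx.1 hx.2)
    rwa [hord x hx] at h1

end H71.KA
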