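import Pool.Agent.H12.CF.St3
import Pool.Agent.H63.MC.CDef
import Mathlib.GroupTheory.SpecificGroups.Cyclic
import Mathlib.RingTheory.IntegralDomain
import Mathlib.RingTheory.Polynomial.Cyclotomic.Basic

/-!
# [H71 KA GU4] MP_b39724_nt, units which are `q`-th powers modulo given primes, and the local triviality of the Kummer twist

* `pig`: pigeonhole: exponents `0, 1, q - 1` with a product `1` in given abelian groups of exponent `q` and order `≤ q`.
* `exists_d`: a product of units which is a `q`-th power modulo given primes.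
* `good_units4`: `H38.ML.good_units2` with this condition.
* `kum_dec`: the Kummer twist is trivial at the elements of a decomposition group which are trivial on `M` if the `α x` are `q`-th powers modulo
  the prime.
-/

set_option autoImplicit false

open scoped NumberField Pointwise

namespace H71.KA

open H38.ML H63.MA

theorem pig {I : Type} [Finite I] (T : I → Type) [∀ i, CommGroup (T i)] [∀ i, Finite (T i)] {q : ℕ}
    (hq : 0 < q) (hT : ∀ i, Nat.card (T i) ≤ q) (hTq : ∀ i, ∀ x : T i, x ^ q = 1) {B : ℕ}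
    (hB : q ^ Nat.card I < 2 ^ B) (f : ∀ i, Fin B → T i) :
    ∃ d : Fin B → ℕ, (∃ j, Nat.Coprime (d j) q) ∧ ∀ i, ∏ j, f i j ^ d j = 1 := by
  classical
  have := Fintype.ofFinite I
  have hfT : ∀ i, Fintype (T i) := fun i => Fintype.ofFinite (T i)
  obtain ⟨c, c', hne, hcc⟩ := Fintype.exists_ne_map_eq_of_card_lt
    (fun (c : Fin B → Bool) (i : I) => ∏ j, (if c j then f i j else 1 : T i)) (by
    rw [Fintype.card_pi, Fintype.card_fun, Fintype.card_bool, Fintype.card_fin]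
    refine lt_of_le_of_lt ?_ hB
    rw [Nat.card_eq_fintype_card, ← Finset.card_univ]
    refine Finset.prod_le_pow_card _ _ _ fun i _ => ?_
    rw [← Nat.card_eq_fintype_card]
    exact hT i)
  refine ⟨fun j => if c j = c' j then 0 else if c j then 1 else q - 1, ?_, fun i => ?_⟩
  · obtain ⟨j, hj⟩ := Function.ne_iff.1 hne
    refine ⟨j, ?_⟩
    show Nat.Coprime (if c j = c' j then 0 else if c j then 1 else q - 1) q
    rw [if_neg hj]
    split_ifs
    · exact Nat.coprime_one_left q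
    · obtain ⟨m, rfl⟩ : ∃ m, q = m + 1 := ⟨q - 1, by omega⟩
      rw [Nat.add_sub_cancel, Nat.coprime_self_add_right]
      exact Nat.coprime_one_right m
  · have h1 : ∀ j, f i j ^ (if c j = c' j then 0 else if c j then 1 else q - 1) =
        (if c j then f i j else 1 : T i) / (if c' j then f i j else 1 : T i) := by
      intro j
      have h2 : f i j ^ (q - 1) = (f i j)⁻¹ := by
        rw [eq_inv_iff_mul_eq_one, ← pow_succ, Nat.sub_add_cancel hq, hTq]
      rcases hcj : c j <;> rcases hcj' : c' j <;> simp [h2]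
    rw [Finset.prod_congr rfl fun j _ => h1 j, Finset.prod_div_distrib, div_eq_one]
    exact congrFun hcc i

theorem exists_d {M : Type} [Field M] [NumberField M] {I : Type} [Finite I] (P : I → Ideal (𝓞 M))
    (hP : ∀ i, (P i).IsPrime) (hP0 : ∀ i, P i ≠ ⊥) {q : ℕ} (hq : 0 < q) {B : ℕ}
    (hB : q ^ Nat.card I < 2 ^ B) (w : I → Fin B → (𝓞 M)ˣ) :
    ∃ d : Fin B → ℕ, (∃ j, Nat.Coprime (d j) q) ∧
      ∀ i, ∃ y : 𝓞 M, ((∏ j, w i j ^ d j : (𝓞 M)ˣ) : 𝓞 M) - y ^ q ∈ P i := by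
  have hfin : ∀ i, Finite (𝓞 M ⧸ P i) := fun i => Ideal.finiteQuotientOfFreeOfNeBot (P i) (hP0 i)
  have hdom : ∀ i, IsDomain (𝓞 M ⧸ P i) := fun i => inferInstance
  have hfu : ∀ i, Finite (𝓞 M ⧸ P i)ˣ := fun i => inferInstance
  have hcy : ∀ i, IsCyclic (𝓞 M ⧸ P i)ˣ := fun i => inferInstance
  obtain ⟨d, hd, hd2⟩ := pig (fun i => (𝓞 M ⧸ P i)ˣ ⧸ (powMonoidHom q : (𝓞 M ⧸ P i)ˣ →* (𝓞 M ⧸ P i)ˣ).range)
    hq (fun i => by
      show (powMonoidHom q : (𝓞 M ⧸ P i)ˣ →* (𝓞 M ⧸ P i)ˣ).range.index ≤ q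
      rw [IsCyclic.index_powMonoidHom_range]
      exact Nat.gcd_le_right _ hq) (fun i x => by
      obtain ⟨y, rfl⟩ := QuotientGroup.mk_surjective x
      rw [← QuotientGroup.mk_pow, QuotientGroup.eq_one_iff]
      exact ⟨y, rfl⟩) hB
    (fun i j => QuotientGroup.mk (Units.map (Ideal.Quotient.mk (P i)).toMonoidHom (w i j)))
  refine ⟨d, hd, fun i => ?_⟩
  have h1 := hd2 i
  have h2 : (QuotientGroup.mk (Units.map (Ideal.Quotient.mk (P i)).toMonoidHom (∏ j, w i j ^ d j)) :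
      (𝓞 M ⧸ P i)ˣ ⧸ (powMonoidHom q : (𝓞 M ⧸ P i)ˣ →* (𝓞 M ⧸ P i)ˣ).range) = 1 := by
    rw [← h1, map_prod]
    have h3 : ∀ (s : Finset (Fin B)) (g : Fin B → (𝓞 M ⧸ P i)ˣ), (QuotientGroup.mk (∏ j ∈ s, g j) :
        (𝓞 M ⧸ P i)ˣ ⧸ (powMonoidHom q : (𝓞 M ⧸ P i)ˣ →* (𝓞 M ⧸ P i)ˣ).range) =
        ∏ j ∈ s, QuotientGroup.mk (g j) := fun s g => map_prod (QuotientGroup.mk' _) g s
    rw [h3]
    refine Finset.prod_congr rfl fun j _ => ?_
    rw [map_pow, QuotientGroup.mk_pow]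
  rw [QuotientGroup.eq_one_iff] at h2
  obtain ⟨y, hy⟩ := h2
  obtain ⟨z, hz⟩ := Ideal.Quotient.mk_surjective (y : 𝓞 M ⧸ P i)
  refine ⟨z, ?_⟩
  rw [← Ideal.Quotient.eq, map_pow, hz]
  have h4 := congrArg (fun u : (𝓞 M ⧸ P i)ˣ => (u : 𝓞 M ⧸ P i)) hy
  simp only [powMonoidHom_apply, Units.val_pow_eq_pow_val] at h4
  rw [h4]
  rfl

/-- `good_units2` with units which are `q`-th powers modulo given primes -/
theorem good_units4 (K M : Type) [Field K] [NumberField K] [Field M] [NumberField M] [Algebra K M]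
    [IsGalois K M] (hK : NumberField.IsTotallyComplex K) (Z : Subgroup Gal(M/K)) [Z.Normal]
    (ι : Type) [Fintype ι] [Fintype (Gal(M/K) ⧸ Z)] {J : Type} [Finite J] (P : J → Ideal (𝓞 M))
    (hP : ∀ i, (P i).IsPrime) (hP0 : ∀ i, P i ≠ ⊥) {q : ℕ} (hq : 0 < q) {B : ℕ}
    (hB : q ^ (Nat.card J * Nat.card Gal(M/K)) < 2 ^ B)
    (hs : Fintype.card ι * B * Z.index + Nat.card Gal(M/K) + 1 ≤
      Fintype.card (NumberField.InfinitePlace K)) (hqZ : Nat.Coprime Z.index q) :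
    ∃ u : ι → (𝓞 M)ˣ, (∀ i, ∀ z ∈ Z, z ((u i : 𝓞 M) : M) = ((u i : 𝓞 M) : M)) ∧
      (∀ p ∈ q.primeFactors, ∀ θ : ι → (Gal(M/K) ⧸ Z) → ℕ, (∃ i x, ¬ p ∣ θ i x) →
        ∀ y : M, (∏ i, ∏ x : Gal(M/K) ⧸ Z, (x.out ((u i : 𝓞 M) : M)) ^ θ i x) ≠ y ^ p) ∧
      ∀ i, ∀ g : Gal(M/K), ∀ j, ∃ y : 𝓞 M, g • (u i : 𝓞 M) - y ^ q ∈ P j := by
  classical
  obtain ⟨u, hu, hu2⟩ := good_units2 K M hK Z (ι × Fin B) (by
    rw [Fintype.card_prod, Fintype.card_fin]
    exact hs) q.primeFactors (fun p hp => by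
      have hp1 := Nat.prime_of_mem_primeFactors hp
      have hp2 := Nat.dvd_of_mem_primeFactors hp
      refine ⟨hp1, fun h => ?_⟩
      have := Nat.dvd_gcd h hp2
      rw [hqZ] at this
      exact hp1.one_lt.ne' (Nat.dvd_one.1 this))
  have hfG : Finite Gal(M/K) := inferInstance
  have hch : ∀ i : ι, ∃ d : Fin B → ℕ, (∃ j, Nat.Coprime (d j) q) ∧
      ∀ x : J × Gal(M/K), ∃ y : 𝓞 M, ((∏ j, (Units.map (MulSemiringAction.toRingHom Gal(M/K) (𝓞 M) x.2).toMonoidHom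
        (u (i, j))) ^ d j : (𝓞 M)ˣ) : 𝓞 M) - y ^ q ∈ P x.1 := by
    intro i
    refine exists_d (fun x : J × Gal(M/K) => P x.1) (fun x => hP x.1) (fun x => hP0 x.1) hq ?_ _
    rw [Nat.card_prod]
    exact hB
  choose d hd hd2 using hch
  have hval : ∀ i, (((∏ j, u (i, j) ^ d i j : (𝓞 M)ˣ) : 𝓞 M) : M) = ∏ j, ((u (i, j) : 𝓞 M) : M) ^ d i j := by
    intro i
    push_cast
    rfl
  refine ⟨fun i => ∏ j, u (i, j) ^ d i j, fun i z hz => ?_, fun p hp θ hθ y => ?_, fun i g j => ?_⟩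
  · rw [hval, map_prod]
    refine Finset.prod_congr rfl fun j _ => ?_
    rw [map_pow, hu (i, j) z hz]
  · obtain ⟨i₀, x₀, h0⟩ := hθ
    obtain ⟨j₀, hj₀⟩ := hd i₀
    have hp1 := Nat.prime_of_mem_primeFactors hp
    have hp2 := Nat.dvd_of_mem_primeFactors hp
    have h1 := hu2 p hp (fun a x => d a.1 a.2 * θ a.1 x) ⟨(i₀, j₀), x₀, fun h => by
      rcases hp1.dvd_mul.1 h with h | h
      · have := Nat.dvd_gcd h hp2
        rw [hj₀] at this
        exact hp1.one_lt.ne' (Nat.dvd_one.1 this)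
      · exact h0 h⟩ y
    intro h2
    apply h1
    rw [← h2, Fintype.prod_prod_type]
    refine Finset.prod_congr rfl fun i _ => ?_
    rw [Finset.prod_comm]
    refine Finset.prod_congr rfl fun x _ => ?_
    rw [hval, map_prod, ← Finset.prod_pow]
    refine Finset.prod_congr rfl fun j _ => ?_
    rw [map_pow, pow_mul]
  · obtain ⟨y, hy⟩ := hd2 i (j, g)
    refine ⟨y, ?_⟩
    have h1 : g • ((∏ j, u (i, j) ^ d i j : (𝓞 M)ˣ) : 𝓞 M) =
        ((∏ j, (Units.map (MulSemiringAction.toRingHom Gal(M/K) (𝓞 M) g).toMonoidHom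
        (u (i, j))) ^ d i j : (𝓞 M)ˣ) : 𝓞 M) := by
      rw [Units.coe_prod, Units.coe_prod, Finset.smul_prod']
      refine Finset.prod_congr rfl fun j _ => ?_
      rw [Units.val_pow_eq_pow_val, Units.val_pow_eq_pow_val, smul_pow']
      rfl
    rw [h1]
    exact hy

end H71.KA
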