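import Pool.Agent.H71.KA.Lf1
import Pool.Agent.H51.K2.Mc

/-! # [H71 KA LFU] MP_b39724_nt: the step by units for the class `MC` -/

set_option autoImplicit false

noncomputable section

namespace H71.KA

open H51.K2

theorem lfu : LFU := fun _ _ _ _ _ π hπ hab s hsec Z hZ hcop => lf1_step π hπ hab s hsec Z hZ hcop

end H71.KA
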