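import Pool.Agent.H71.KA.Zas
import Pool.Agent.H71.KA.Cor

/-!
# [H71 KA SPL] MP_b39724_nt, theorem K1: the classes in `T` and the classes which meet `A`

`spl`: from the data of `K1C` to representatives `x j` of the classes in `C ∩ T`; the other classes correspond to the elements of `C ∩ A`.
-/

set_option autoImplicit false

open scoped Classical

noncomputable section

namespace H71.KA

theorem spl {G : Type} [Group G] [Finite G] (T A : Subgroup G) (hT : T.Normal)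
    (hTc : ∀ s ∈ T, ∀ t ∈ T, s * t = t * s) (hTA : Subgroup.IsComplement' T A)
    (hco : Nat.Coprime (Nat.card T) (Nat.card A)) (hAc : ∀ a ∈ A, ∀ b ∈ A, a * b = b * a)
    (C : Set G) (hCp : ∀ x ∈ C, (orderOf x).Prime) (hgen : T = Subgroup.closure (C ∩ T))
    (hne : (C ∩ T).Nonempty) (N : ℕ) (g : Fin N → G) (uni : ∀ i j, IsConj (g i) (g j) → i = j)
    (hI : ∀ x, x ∈ C ↔ ∃ i, IsConj x (g i)) :
    ∃ (n : ℕ) (x : Fin (n + 1) → G), (∀ j, x j ∈ C) ∧ (∀ j, x j ∈ T) ∧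
      (∀ i j, IsConj (x i) (x j) → i = j) ∧ T = Subgroup.closure {y : G | ∃ j, IsConj (x j) y} ∧
      N = Nat.card {a : A // (a : G) ∈ C} + (n + 1) := by
  have hNA : T ⊓ A = ⊥ := hTA.disjoint.eq_bot
  have hdec : ∀ g : G, ∃ n ∈ T, ∃ a ∈ A, g = n * a := by
    intro g
    have h1 : g ∈ T ⊔ A := by rw [hTA.sup_eq_top]; exact Subgroup.mem_top g
    obtain ⟨n, hn, a, ha, e⟩ := Subgroup.mem_sup_of_normal_left.1 h1
    exact ⟨n, hn, a, ha, e.symm⟩
  have hcT : ∀ x y : G, IsConj x y → x ∈ T → y ∈ T := by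
    intro x y hxy hx
    obtain ⟨c, rfl⟩ := isConj_iff.1 hxy
    exact hT.conj_mem x hx c
  have hcA : ∀ a ∈ A, ∀ b ∈ A, IsConj a b → a = b := by
    intro a ha b hb hab
    obtain ⟨c, hc⟩ := isConj_iff.1 hab
    obtain ⟨t, ht, d, hd, rfl⟩ := hdec c
    have h1 : d * a * d⁻¹ = a := by rw [hAc d hd a ha, mul_inv_cancel_right]
    have h2 : t * a * t⁻¹ = b := by
      rw [← hc]
      calc t * a * t⁻¹ = t * (d * a * d⁻¹) * t⁻¹ := by rw [h1]
        _ = _ := by group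
    have h3 : b * a⁻¹ ∈ T ⊓ A := by
      refine ⟨?_, A.mul_mem hb (A.inv_mem ha)⟩
      have h4 : b * a⁻¹ = t * (a * t⁻¹ * a⁻¹) := by rw [← h2]; group
      rw [h4]
      exact T.mul_mem ht (hT.conj_mem _ (T.inv_mem ht) a)
    rw [hNA, Subgroup.mem_bot, mul_inv_eq_one] at h3
    exact h3.symm
  have hgC : ∀ i, g i ∈ C := fun i => (hI (g i)).2 ⟨i, IsConj.refl _⟩
  -- the class of `g i` not in `T` meets `A`
  have hmA : ∀ i, g i ∉ T → ∃ a ∈ A, IsConj a (g i) := by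
    intro i hi
    have hpx := hCp _ (hgC i)
    have hcop : Nat.Coprime (orderOf (g i)) (Nat.card T) := by
      rw [Nat.Prime.coprime_iff_not_dvd hpx]
      intro hd
      apply hi
      have h1 : Nat.Coprime (orderOf (g i)) (Nat.card A) := Nat.Coprime.coprime_dvd_left hd hco
      obtain ⟨t, ht, a, ha, e⟩ := hdec (g i)
      have h2 : (QuotientGroup.mk (s := T) a) ^ orderOf (g i) = 1 := by
        have h3 : QuotientGroup.mk (s := T) (g i) = QuotientGroup.mk a := by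
          rw [e, QuotientGroup.mk_mul, (QuotientGroup.eq_one_iff t).2 ht, one_mul]
        rw [← h3, ← QuotientGroup.mk_pow, pow_orderOf_eq_one, QuotientGroup.mk_one]
      have h3 : a ^ orderOf (g i) = 1 := by
        rw [← QuotientGroup.mk_pow, QuotientGroup.eq_one_iff] at h2
        have h4 : a ^ orderOf (g i) ∈ T ⊓ A := ⟨h2, A.pow_mem ha _⟩
        rwa [hNA, Subgroup.mem_bot] at h4
      have h4 : orderOf a ∣ Nat.gcd (orderOf (g i)) (Nat.card A) := by
        refine Nat.dvd_gcd (orderOf_dvd_of_pow_eq_one h3) ?_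
        have h5 : orderOf (⟨a, ha⟩ : A) ∣ Nat.card A := orderOf_dvd_natCard _
        rwa [Subgroup.orderOf_mk] at h5
      rw [h1, Nat.dvd_one, orderOf_eq_one_iff] at h4
      rw [e, h4, mul_one]
      exact ht
    obtain ⟨s, hs, a, ha, -, e⟩ := conj_compl T A hTc hdec hNA (pow_orderOf_eq_one (g i)) hcop
    exact ⟨a, ha, isConj_iff.2 ⟨s, e.symm⟩⟩
  -- the bijection
  have hex : ∀ a : {a : A // (a : G) ∈ C}, ∃ i : Fin N, IsConj ((a : A) : G) (g i) := fun a =>
    (hI _).1 a.2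
  choose f hf using hex
  have hfT : ∀ a, g (f a) ∉ T := by
    intro a h
    have h1 : ((a : A) : G) ∈ T ⊓ A := ⟨hcT _ _ (hf a).symm h, (a : A).2⟩
    rw [hNA, Subgroup.mem_bot] at h1
    have h2 := hCp _ a.2
    rw [h1, orderOf_one] at h2
    exact Nat.not_prime_one h2
  have hbij : Function.Bijective (fun a => (⟨f a, hfT a⟩ : {i : Fin N // g i ∉ T})) := by
    constructor
    · intro a b hab
      have h1 : f a = f b := congrArg Subtype.val hab
      have h2 : IsConj ((a : A) : G) ((b : A) : G) := by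
        have h3 := hf a
        rw [h1] at h3
        exact h3.trans (hf b).symm
      exact Subtype.ext (Subtype.ext (hcA _ (a : A).2 _ (b : A).2 h2))
    · rintro ⟨i, hi⟩
      obtain ⟨a, ha, hai⟩ := hmA i hi
      have haC : a ∈ C := (hI a).2 ⟨i, hai⟩
      refine ⟨⟨⟨a, ha⟩, haC⟩, Subtype.ext ?_⟩
      exact uni _ _ ((hf ⟨⟨a, ha⟩, haC⟩).symm.trans hai)
  have hcard1 : Nat.card {a : A // (a : G) ∈ C} = Nat.card {i : Fin N // g i ∉ T} :=
    Nat.card_congr (Equiv.ofBijective _ hbij)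
  have hcard2 : N = Nat.card {i : Fin N // g i ∉ T} + Nat.card {i : Fin N // g i ∈ T} := by
    have h1 := Nat.card_congr (Equiv.sumCompl fun i : Fin N => g i ∈ T)
    rw [Nat.card_sum, Nat.card_eq_fintype_card (α := Fin N), Fintype.card_fin] at h1
    omega
  obtain ⟨y, hyC, hyT⟩ := hne
  obtain ⟨i₀, hi₀⟩ := (hI y).1 hyC
  have hne' : Nonempty {i : Fin N // g i ∈ T} := ⟨⟨i₀, hcT _ _ hi₀ hyT⟩⟩
  obtain ⟨n, hn⟩ : ∃ n, Nat.card {i : Fin N // g i ∈ T} = n + 1 :=
    Nat.exists_eq_succ_of_ne_zero Nat.card_pos.ne'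
  obtain ⟨e⟩ : Nonempty (Fin (n + 1) ≃ {i : Fin N // g i ∈ T}) := by
    rw [← hn]
    exact ⟨(Finite.equivFin _).symm⟩
  refine ⟨n, fun j => g (e j), fun j => hgC _, fun j => (e j).2, fun i j hij => ?_, ?_, ?_⟩
  · exact e.injective (Subtype.ext (uni _ _ hij))
  · conv_lhs => rw [hgen]
    apply congrArg
    ext z
    constructor
    · rintro ⟨hz, hz2⟩
      obtain ⟨i, hi⟩ := (hI z).1 hz
      refine ⟨e.symm ⟨i, hcT _ _ hi hz2⟩, ?_⟩
      show IsConj (g (e (e.symm ⟨i, hcT _ _ hi hz2⟩))) z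
      rw [Equiv.apply_symm_apply]
      exact hi.symm
    · rintro ⟨j, hj⟩
      exact ⟨(hI z).2 ⟨_, hj.symm⟩, hcT _ _ hj (e j).2⟩
  · rw [hcard1, ← hn]
    exact hcard2

end H71.KA
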