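import Pool.Agent.H71.KA.Stp

/-!
# [H71 KA ST3] MP_b39724_nt, theorem K2+: one step inside a group, the hypothesis is on the acting group

* `act_dvd`: the order of the group of automorphisms induced on a smaller normal subgroup divides the order for the larger one.
* `step_sup3`: as `step_sup`, with the hypothesis: the order of the group of automorphisms of `V` induced by `G` is prime to `l`.
-/

set_option autoImplicit false

open scoped NumberField
open IsDedekindDomain H38.ML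
open scoped Classical IsMulCommutative

noncomputable section

namespace H71.KA

open H63.MA H88.LH H77.PC3 H35.SN

variable {G : Type} [Group G]

theorem act_dvd {G' : Type} [Group G'] (j : G' →* G) (hj : Function.Injective j) (K' : Subgroup G')
    [K'.Normal] (N : Subgroup G) [N.Normal] (h : ∀ x ∈ K', j x ∈ N) :
    Nat.card (MulAut.conjNormal : G' →* MulAut K').range ∣
      Nat.card (MulAut.conjNormal : G →* MulAut N).range := by
  have h1 : ((MulAut.conjNormal : G →* MulAut N).comp j).ker ≤ (MulAut.conjNormal : G' →* MulAut K').ker := by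
    intro g hg
    rw [MonoidHom.mem_ker] at hg ⊢
    refine MulEquiv.ext fun x => ?_
    apply Subtype.ext
    rw [MulAut.conjNormal_apply]
    apply hj
    have h2 := congrArg (fun f : MulAut N => ((f ⟨j x, h x x.2⟩ : N) : G)) hg
    simp only [MonoidHom.comp_apply] at h2
    rw [MulAut.conjNormal_apply] at h2
    rw [map_mul, map_mul, map_inv]
    exact h2
  rw [← Subgroup.index_ker]
  refine (Subgroup.index_dvd_of_le h1).trans ?_
  rw [Subgroup.index_ker]
  exact Subgroup.card_dvd_of_le (by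
    rintro _ ⟨g, rfl⟩
    exact ⟨j g, rfl⟩)

theorem step_sup3 [Finite G] (hst : STP) {r l : ℕ} (hl : l.Prime) (C : Set G)
    (hcc : ∀ x ∈ C, ∀ g : G, g * x * g⁻¹ ∈ C) (H V : Subgroup G) [V.Normal]
    (hne : V ≠ ⊥) (hcom : ∀ x ∈ V, ∀ y ∈ V, x * y = y * x) (hVl : ∀ x ∈ V, x ^ l = 1)
    (hVH : V ⊓ H = ⊥)
    (hirr : ∀ W : Subgroup G, W ≤ V → (∀ h ∈ H, ∀ w ∈ W, h * w * h⁻¹ ∈ W) → W = ⊥ ∨ W = V)
    (hlV : ¬ l ∣ Nat.card (MulAut.conjNormal : G →* MulAut V).range) (h : BASE (CH C H) r) : BASE (CH C (H ⊔ V)) r := by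
  obtain ⟨π, hπ, hker⟩ := exists_proj H V hVH
  obtain ⟨s, hs⟩ : ∃ s : H →* ↥(H ⊔ V), ∀ x : H, s x = ⟨x, Subgroup.mem_sup_left x.2⟩ :=
    ⟨Subgroup.inclusion le_sup_left, fun _ => rfl⟩
  have hsec : ∀ x, π (s x) = x := fun x => by rw [hs, hπ]
  have hsur : Function.Surjective π := fun x => ⟨s x, hsec x⟩
  have hkc : IsMulCommutative π.ker := ⟨⟨fun x y => by
    apply Subtype.ext
    apply Subtype.ext
    exact hcom _ ((hker _).1 x.2) _ ((hker _).1 y.2)⟩⟩
  have hkl : ∀ x ∈ π.ker, x ^ l = 1 := fun x hx => Subtype.ext (hVl _ ((hker _).1 hx))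
  have hkne : π.ker ≠ ⊥ := by
    intro h1
    apply hne
    rw [Subgroup.eq_bot_iff_forall]
    intro x hx
    have h2 : (⟨x, Subgroup.mem_sup_right hx⟩ : ↥(H ⊔ V)) ∈ π.ker := (hker _).2 hx
    rw [h1, Subgroup.mem_bot] at h2
    exact congrArg Subtype.val h2
  have hkirr : ∀ U : Subgroup ↥(H ⊔ V), U.Normal → U ≤ π.ker → U = ⊥ ∨ U = π.ker := by
    intro U hU hUk
    have h5 : U.map (H ⊔ V).subtype ≤ V := by
      rintro _ ⟨u, hu, rfl⟩
      exact (hker _).1 (hUk hu)
    have h6 : ∀ h ∈ H, ∀ w ∈ U.map (H ⊔ V).subtype, h * w * h⁻¹ ∈ U.map (H ⊔ V).subtype := by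
      rintro g hg _ ⟨u, hu, rfl⟩
      exact ⟨⟨g, Subgroup.mem_sup_left hg⟩ * u * (⟨g, Subgroup.mem_sup_left hg⟩)⁻¹,
        hU.conj_mem _ hu _, rfl⟩
    rcases hirr (U.map (H ⊔ V).subtype) h5 h6 with h1 | h1
    · left
      exact (Subgroup.map_eq_bot_iff_of_injective U (Subgroup.subtype_injective _)).1 h1
    · right
      refine le_antisymm hUk fun x hx => ?_
      have h2 : (x : G) ∈ U.map (H ⊔ V).subtype := by
        rw [h1]
        exact (hker _).1 hx
      obtain ⟨u, hu, hux⟩ := h2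
      have h3 : u = x := Subtype.ext hux
      rwa [← h3]
  have hcard : ¬ l ∣ Nat.card (MulAut.conjNormal : ↥(H ⊔ V) →* MulAut π.ker).range := fun h2 =>
    hlV (h2.trans (act_dvd (H ⊔ V).subtype (H ⊔ V).subtype_injective π.ker V fun x hx => (hker _).1 hx))
  have hhig : HIG π.ker := by
    obtain ⟨n, hn⟩ : ∃ n, n = Nat.card (MulAut.conjNormal : ↥(H ⊔ V) →* MulAut π.ker).range :=
      ⟨_, rfl⟩
    have hco : Nat.Coprime n l := by
      rw [Nat.coprime_comm, hn]
      exact (Nat.Prime.coprime_iff_not_dvd hl).2 hcard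
    obtain ⟨c, -, hc⟩ := Nat.exists_mul_mod_eq_one_of_coprime hco hl.one_lt
    refine ⟨powMonoidHom c, fun x => ?_⟩
    have h1 : ∀ a : (MulAut.conjNormal : ↥(H ⊔ V) →* MulAut π.ker).range,
        (a : MulAut π.ker) (powMonoidHom c ((a : MulAut π.ker)⁻¹ x)) = x ^ c := by
      intro a
      show (a : MulAut π.ker) (((a : MulAut π.ker)⁻¹ x) ^ c) = x ^ c
      rw [map_pow, MulAut.apply_inv_self]
    rw [finprod_congr h1]
    have hfin : Finite (MulAut.conjNormal : ↥(H ⊔ V) →* MulAut π.ker).range := by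
      have : Finite ↥(H ⊔ V) := inferInstance
      exact Finite.of_surjective _ (MonoidHom.rangeRestrict_surjective _)
    have : Fintype (MulAut.conjNormal : ↥(H ⊔ V) →* MulAut π.ker).range := Fintype.ofFinite _
    rw [finprod_eq_prod_of_fintype, Finset.prod_const, Finset.card_univ, ← Nat.card_eq_fintype_card,
      ← hn, ← pow_mul, mul_comm c n]
    have hxl : x ^ l = 1 := Subtype.ext (hkl x x.2)
    rw [← Nat.div_add_mod (n * c) l, pow_add, pow_mul, hxl, one_pow, one_mul, hc, pow_one]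
  have S : STEP l π := ⟨hl, hsur, hkne, hkc, hkl, hkirr, ⟨s, hsec⟩, hhig⟩
  refine base_lfs hl.pos (lfs_step hst S s hsec) hsur (CH C (H ⊔ V)) (CH C H) ?_ ?_ h
  · intro y hy
    rw [hs]
    exact hy
  · intro x hx g
    exact hcc _ hx _

end H71.KA
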