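import Pool.Agent.H71.KA.Lft

/-!
# [H71 KA STP] MP_b39724_nt, theorem K1: one step inside a group

`G` a finite group, `C` a set invariant under conjugation, `H` a subgroup, `V` an elementary abelian normal `l`-subgroup with `V ⊓ H = ⊥`, irreducible under `H`; every conjugation on `V` is the
conjugation by an element of the subgroup `A ≤ H`, `l ∤ #A`. Then `BASE` for `H` gives `BASE` for `H ⊔ V` (`step_sup`).
-/

set_option autoImplicit false

open scoped NumberField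
open IsDedekindDomain H38.ML
open scoped Classical IsMulCommutative

noncomputable section

namespace H71.KA

open H63.MA H88.LH H77.PC3 H35.SN

variable {G : Type} [Group G]

/-- the elements of `C` in `H` -/
def CH (C : Set G) (H : Subgroup G) : Set H := {x | (x : G) ∈ C}

/-- the projection of `H ⊔ V` to `H` -/
theorem exists_proj (H V : Subgroup G) [V.Normal] (hVH : V ⊓ H = ⊥) :
    ∃ π : ↥(H ⊔ V) →* H, (∀ x : H, π ⟨x, Subgroup.mem_sup_left x.2⟩ = x) ∧
      ∀ g, g ∈ π.ker ↔ (g : G) ∈ V := by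
  have hd : ∀ g : ↥(H ⊔ V), ∃ h : H, ∃ v ∈ V, (h : G) * v = g := by
    intro g
    obtain ⟨h, hh, v, hv, e⟩ := Subgroup.mem_sup_of_normal_right.1 g.2
    exact ⟨⟨h, hh⟩, v, hv, e⟩
  choose p hp using hd
  have huniq : ∀ (g : ↥(H ⊔ V)) (h : H) (v : G), v ∈ V → (h : G) * v = g → p g = h := by
    intro g h v hv e
    obtain ⟨w, hw, e'⟩ := hp g
    have h1 : (h : G)⁻¹ * p g = v * w⁻¹ := by
      rw [inv_mul_eq_iff_eq_mul, ← mul_assoc, e, ← e', mul_inv_cancel_right]
    have h2 : (h : G)⁻¹ * p g ∈ V ⊓ H :=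
      ⟨by rw [h1]; exact V.mul_mem hv (V.inv_mem hw), H.mul_mem (H.inv_mem h.2) (p g).2⟩
    rw [hVH, Subgroup.mem_bot, inv_mul_eq_one] at h2
    exact Subtype.ext h2.symm
  refine ⟨MonoidHom.mk' p fun g g' => ?_, fun x => huniq _ x 1 V.one_mem (mul_one _), fun g => ?_⟩
  · obtain ⟨v, hv, e⟩ := hp g
    obtain ⟨v', hv', e'⟩ := hp g'
    refine huniq _ _ ((p g' : G)⁻¹ * v * (p g') * v') ?_ ?_
    · refine V.mul_mem ?_ hv'
      have h3 := (inferInstance : V.Normal).conj_mem v hv (p g' : G)⁻¹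
      rwa [inv_inv] at h3
    · rw [Subgroup.coe_mul, Subgroup.coe_mul, ← e, ← e']
      group
  · obtain ⟨v, hv, e⟩ := hp g
    constructor
    · intro h
      have h1 : p g = 1 := h
      rw [h1] at e
      have h2 : v = g := by rw [← e]; exact (one_mul v).symm
      rw [← h2]
      exact hv
    · intro h
      exact huniq g 1 g h (one_mul _)

theorem step_sup [Finite G] (hst : STP) {r l : ℕ} (hl : l.Prime) (C : Set G)
    (hcc : ∀ x ∈ C, ∀ g : G, g * x * g⁻¹ ∈ C) (H V A : Subgroup G) [V.Normal]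
    (hne : V ≠ ⊥) (hcom : ∀ x ∈ V, ∀ y ∈ V, x * y = y * x) (hVl : ∀ x ∈ V, x ^ l = 1)
    (hVH : V ⊓ H = ⊥)
    (hirr : ∀ W : Subgroup G, W ≤ V → (∀ h ∈ H, ∀ w ∈ W, h * w * h⁻¹ ∈ W) → W = ⊥ ∨ W = V)
    (hAH : A ≤ H) (hA : ∀ g : G, ∃ a ∈ A, ∀ x ∈ V, g * x * g⁻¹ = a * x * a⁻¹)
    (hlA : ¬ l ∣ Nat.card A) (h : BASE (CH C H) r) : BASE (CH C (H ⊔ V)) r := by
  obtain ⟨π, hπ, hker⟩ := exists_proj H V hVH
  obtain ⟨s, hs⟩ : ∃ s : H →* ↥(H ⊔ V), ∀ x : H, s x = ⟨x, Subgroup.mem_sup_left x.2⟩ :=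
    ⟨Subgroup.inclusion le_sup_left, fun _ => rfl⟩
  have hsec : ∀ x, π (s x) = x := fun x => by rw [hs, hπ]
  have hsur : Function.Surjective π := fun x => ⟨s x, hsec x⟩
  have hkc : IsMulCommutative π.ker := ⟨⟨fun x y => by
    apply Subtype.ext
    apply Subtype.ext
    exact hcom _ ((hker _).1 x.2) _ ((hker _).1 y.2)⟩⟩
  have hkl : ∀ x ∈ π.ker, x ^ l = 1 := fun x hx => Subtype.ext (hVl _ ((hker _).1 hx))
  have hkne : π.ker ≠ ⊥ := by
    intro h1
    apply hne
    rw [Subgroup.eq_bot_iff_forall]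
    intro x hx
    have h2 : (⟨x, Subgroup.mem_sup_right hx⟩ : ↥(H ⊔ V)) ∈ π.ker := (hker _).2 hx
    rw [h1, Subgroup.mem_bot] at h2
    exact congrArg Subtype.val h2
  have hkirr : ∀ U : Subgroup ↥(H ⊔ V), U.Normal → U ≤ π.ker → U = ⊥ ∨ U = π.ker := by
    intro U hU hUk
    have h5 : U.map (H ⊔ V).subtype ≤ V := by
      rintro _ ⟨u, hu, rfl⟩
      exact (hker _).1 (hUk hu)
    have h6 : ∀ h ∈ H, ∀ w ∈ U.map (H ⊔ V).subtype, h * w * h⁻¹ ∈ U.map (H ⊔ V).subtype := by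
      rintro g hg _ ⟨u, hu, rfl⟩
      exact ⟨⟨g, Subgroup.mem_sup_left hg⟩ * u * (⟨g, Subgroup.mem_sup_left hg⟩)⁻¹,
        hU.conj_mem _ hu _, rfl⟩
    rcases hirr (U.map (H ⊔ V).subtype) h5 h6 with h1 | h1
    · left
      exact (Subgroup.map_eq_bot_iff_of_injective U (Subgroup.subtype_injective _)).1 h1
    · right
      refine le_antisymm hUk fun x hx => ?_
      have h2 : (x : G) ∈ U.map (H ⊔ V).subtype := by
        rw [h1]
        exact (hker _).1 hx
      obtain ⟨u, hu, hux⟩ := h2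
      have h3 : u = x := Subtype.ext hux
      rwa [← h3]
  -- the automorphisms
  obtain ⟨f, hf⟩ : ∃ f : A →* MulAut π.ker, ∀ (a : A) (x : π.ker),
      (((f a x : π.ker) : ↥(H ⊔ V)) : G) = a * ((x : ↥(H ⊔ V)) : G) * (a : G)⁻¹ := by
    refine ⟨(MulAut.conjNormal : ↥(H ⊔ V) →* MulAut π.ker).comp
      (Subgroup.inclusion (hAH.trans le_sup_left)), fun a x => ?_⟩
    show ((((MulAut.conjNormal : ↥(H ⊔ V) →* MulAut π.ker)
      (Subgroup.inclusion (hAH.trans le_sup_left) a) x : π.ker) : ↥(H ⊔ V)) : G) = _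
    rw [MulAut.conjNormal_apply]
    rfl
  have hcard : ¬ l ∣ Nat.card (MulAut.conjNormal : ↥(H ⊔ V) →* MulAut π.ker).range := by
    have h1 : (MulAut.conjNormal : ↥(H ⊔ V) →* MulAut π.ker).range = f.range := by
      ext b
      constructor
      · rintro ⟨g, rfl⟩
        obtain ⟨a, ha, h2⟩ := hA g
        refine ⟨⟨a, ha⟩, ?_⟩
        refine MulEquiv.ext fun x => ?_
        apply Subtype.ext
        apply Subtype.ext
        rw [hf, MulAut.conjNormal_apply]
        exact (h2 _ ((hker _).1 x.2)).symm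
      · rintro ⟨a, rfl⟩
        refine ⟨Subgroup.inclusion (hAH.trans le_sup_left) a, ?_⟩
        refine MulEquiv.ext fun x => ?_
        apply Subtype.ext
        apply Subtype.ext
        rw [hf, MulAut.conjNormal_apply]
        rfl
    rw [h1]
    intro h2
    exact hlA (h2.trans (Subgroup.card_range_dvd f))
  have hhig : HIG π.ker := by
    obtain ⟨n, hn⟩ : ∃ n, n = Nat.card (MulAut.conjNormal : ↥(H ⊔ V) →* MulAut π.ker).range :=
      ⟨_, rfl⟩
    have hco : Nat.Coprime n l := by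
      rw [Nat.coprime_comm, hn]
      exact (Nat.Prime.coprime_iff_not_dvd hl).2 hcard
    obtain ⟨c, -, hc⟩ := Nat.exists_mul_mod_eq_one_of_coprime hco hl.one_lt
    refine ⟨powMonoidHom c, fun x => ?_⟩
    have h1 : ∀ a : (MulAut.conjNormal : ↥(H ⊔ V) →* MulAut π.ker).range,
        (a : MulAut π.ker) (powMonoidHom c ((a : MulAut π.ker)⁻¹ x)) = x ^ c := by
      intro a
      show (a : MulAut π.ker) (((a : MulAut π.ker)⁻¹ x) ^ c) = x ^ c
      rw [map_pow, MulAut.apply_inv_self]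
    rw [finprod_congr h1]
    have hfin : Finite (MulAut.conjNormal : ↥(H ⊔ V) →* MulAut π.ker).range := by
      have : Finite ↥(H ⊔ V) := inferInstance
      exact Finite.of_surjective _ (MonoidHom.rangeRestrict_surjective _)
    have : Fintype (MulAut.conjNormal : ↥(H ⊔ V) →* MulAut π.ker).range := Fintype.ofFinite _
    rw [finprod_eq_prod_of_fintype, Finset.prod_const, Finset.card_univ, ← Nat.card_eq_fintype_card,
      ← hn, ← pow_mul, mul_comm c n]
    have hxl : x ^ l = 1 := Subtype.ext (hkl x x.2)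
    rw [← Nat.div_add_mod (n * c) l, pow_add, pow_mul, hxl, one_pow, one_mul, hc, pow_one]
  have S : STEP l π := ⟨hl, hsur, hkne, hkc, hkl, hkirr, ⟨s, hsec⟩, hhig⟩
  refine base_lfs hl.pos (lfs_step hst S s hsec) hsur (CH C (H ⊔ V)) (CH C H) ?_ ?_ h
  · intro y hy
    rw [hs]
    exact hy
  · intro x hx g
    exact hcc _ hx _

end H71.KA
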